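import Mathlib.Data.List.Infix
import Mathlib.Data.List.Palindrome
import Mathlib.Data.Set.Card
import Mathlib.Data.Set.Finite.List
import Mathlib.Tactic

/-!
Rich words: complete returns to palindromes, a certificate checker for the tree of palindromes
`h ++ z ++ h.reverse` over a three-letter alphabet.
-/

namespace Pool.Agent.Rich3

/-- The palindromic factors (empty word included) of a finite word. -/
def palFactors {α : Type*} (v : List α) : Set (List α) := {p | p <:+: v ∧ p.reverse = p}

/-- A finite word is rich if it has `|v| + 1` distinct palindromic factors. -/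
def RichWord {α : Type*} (v : List α) : Prop := (palFactors v).ncard = v.length + 1

/-- The factor of length `n` at position `i` of an infinite word. -/
def factor {α : Type*} (u : ℕ → α) (i n : ℕ) : List α := (List.range n).map (fun k => u (i + k))

/-- An infinite word is rich if all its finite factors are rich. -/
def RichSeq {α : Type*} (u : ℕ → α) : Prop := ∀ i n : ℕ, RichWord (factor u i n)

/-- There are three consecutive blocks of the same positive length that are rearrangements of one
another. -/
def HasAbelianCube {α : Type*} (u : ℕ → α) : Prop :=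
  ∃ i l : ℕ, 1 ≤ l ∧ (factor u i l).Perm (factor u (i + l) l) ∧
    (factor u (i + l) l).Perm (factor u (i + 2 * l) l)

section general

variable {α : Type*}

lemma palFactors_finite (v : List α) : (palFactors v).Finite := by
  refine Set.Finite.subset (s := {p | p <:+: v}) ?_ (fun p hp => hp.1)
  refine Set.Finite.subset (List.finite_toSet (v.tails.flatMap List.inits)) ?_
  intro p hp
  simp only [Set.mem_ofPred_eq, List.mem_flatMap, List.mem_tails, List.mem_inits] at hp ⊢
  obtain ⟨s, t, h⟩ := hp
  exact ⟨p ++ t, ⟨s, by rw [← h]; simp⟩, ⟨t, rfl⟩⟩

/-- A rich word whose maximal proper prefix is rich has a palindromic suffix that is not a factor of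
that prefix. -/
lemma exists_new_pal {v : List α} {x : α} (hv : RichWord v) (hw : RichWord (v ++ [x])) :
    ∃ q : List α, q <:+ v ++ [x] ∧ q.reverse = q ∧ ¬ q <:+: v := by
  by_contra hcon
  push Not at hcon
  have hsub : palFactors (v ++ [x]) ⊆ palFactors v := by
    rintro q ⟨⟨s, t, hst⟩, hq⟩
    refine ⟨?_, hq⟩
    rcases List.eq_nil_or_concat t with ht | ⟨t', y, ht⟩
    · subst ht
      exact hcon q ⟨s, by simpa using hst⟩ hq
    · subst ht
      have h2 : (s ++ q ++ t') ++ [y] = v ++ [x] := by simpa [List.append_assoc] using hst
      have h3 := List.append_inj' h2 rfl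
      exact ⟨s, t', h3.1⟩
  have h1 := Set.ncard_le_ncard hsub (palFactors_finite v)
  unfold RichWord at hv hw
  rw [hv, hw] at h1
  simp at h1

/-- Complete returns to palindromes in rich words are palindromes. -/
lemma complete_return {R : List α} (hR : RichWord R) (hR' : RichWord R.dropLast) {t : α}
    {T P : List α} (hRT : R = t :: T) (hPpre : P <+: R) (hPpal : P.reverse = P) (hPsuf : P <:+ T)
    (hocc : ∀ s1 s2, T = s1 ++ (P ++ s2) → s2 = []) : R.reverse = R := by
  have hne : R ≠ [] := by rw [hRT]; simp
  have hRd : R.dropLast ++ [R.getLast hne] = R := List.dropLast_append_getLast hne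
  obtain ⟨q, hq1, hq2, hq3⟩ := exists_new_pal (v := R.dropLast) (x := R.getLast hne) hR'
    (by rw [hRd]; exact hR)
  rw [hRd] at hq1
  have hPlen : P.length < R.length := by
    have := hPsuf.length_le
    rw [hRT, List.length_cons]; omega
  have hPsufR : P <:+ R := by
    rw [hRT]; exact hPsuf.trans (List.suffix_cons t T)
  have hPd : P <+: R.dropLast := by
    have h1 : R.dropLast <+: R := List.dropLast_prefix R
    refine List.prefix_of_prefix_length_le hPpre h1 ?_
    rw [List.length_dropLast]; omega
  have hlen : P.length < q.length := by
    by_contra hle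
    push Not at hle
    have h1 : q <:+ P := List.suffix_of_suffix_length_le hq1 hPsufR hle
    exact hq3 (h1.isInfix.trans hPd.isInfix)
  have hPq : P <:+ q := List.suffix_of_suffix_length_le hPsufR hq1 hlen.le
  have hPq' : P <+: q := by
    have h := List.reverse_prefix.mpr hPq
    rwa [hPpal, hq2] at h
  obtain ⟨s2, hs2⟩ := hPq'
  have hq4 : q = R := by
    rw [hRT] at hq1 ⊢
    rcases List.suffix_cons_iff.mp hq1 with h | h
    · exact h
    · exfalso
      obtain ⟨s1, hs1⟩ := h
      have h2 := hocc s1 s2 (by rw [hs2, hs1])
      subst h2
      simp at hs2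
      rw [hs2] at hlen
      exact lt_irrefl _ hlen
  rw [← hq4]; exact hq2

end general

/-- The three-letter alphabet. -/
inductive L3 : Type
  | a : L3
  | b : L3
  | c : L3
  deriving DecidableEq

namespace L3

/-- Equality test. -/
noncomputable def eqb (x y : L3) : Bool :=
  L3.rec (motive := fun _ => Bool)
    (L3.rec (motive := fun _ => Bool) true false false y)
    (L3.rec (motive := fun _ => Bool) false true false y)
    (L3.rec (motive := fun _ => Bool) false false true y) x

lemma eqb_iff (x y : L3) : eqb x y = true ↔ x = y := by
  cases x <;> cases y <;> simp [eqb]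

instance : Fintype L3 := ⟨{a, b, c}, by intro x; cases x <;> simp⟩

end L3

/-- Equality test on words (written with recursors, for fast evaluation in the kernel). -/
noncomputable def eqL (x : List L3) : List L3 → Bool :=
  List.rec (motive := fun _ => List L3 → Bool)
    (fun y => List.rec (motive := fun _ => Bool) true (fun _ _ _ => false) y)
    (fun s _ ih y => List.rec (motive := fun _ => Bool) false
      (fun t ts _ => cond (L3.eqb s t) (ih ts) false) y) x

lemma eqL_iff (x y : List L3) : eqL x y = true ↔ x = y := by
  induction x generalizing y with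
  | nil => cases y <;> simp [eqL]
  | cons s ss ih =>
    cases y with
    | nil => simp [eqL]
    | cons t ts =>
      have h : eqL (s :: ss) (t :: ts) = cond (L3.eqb s t) (eqL ss ts) false := rfl
      rw [h, Bool.cond_false_right, Bool.and_eq_true, ih, L3.eqb_iff, List.cons.injEq]

/-- Test whether the first word is an initial segment of the second. -/
noncomputable def pre (x : List L3) : List L3 → Bool :=
  List.rec (motive := fun _ => List L3 → Bool)
    (fun _ => true)
    (fun s _ ih y => List.rec (motive := fun _ => Bool) false
      (fun t ts _ => cond (L3.eqb s t) (ih ts) false) y) x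

lemma pre_iff (x y : List L3) : pre x y = true ↔ x <+: y := by
  induction x generalizing y with
  | nil => simp [pre]
  | cons s ss ih =>
    cases y with
    | nil => simp [pre]
    | cons t ts =>
      have h : pre (s :: ss) (t :: ts) = cond (L3.eqb s t) (pre ss ts) false := rfl
      rw [h, Bool.cond_false_right, Bool.and_eq_true, ih, L3.eqb_iff, List.cons_prefix_cons]

/-- The first occurrence of `P` in `T` is at the end of `T`. -/
noncomputable def walk (P T : List L3) : Bool :=
  List.rec (motive := fun _ => Bool) false
    (fun t T ih => cond (pre P (t :: T)) (eqL P (t :: T)) ih) T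

lemma walk_spec (P T : List L3) (h : walk P T = true) :
    P <:+ T ∧ ∀ s1 s2, T = s1 ++ (P ++ s2) → s2 = [] := by
  induction T with
  | nil => simp [walk] at h
  | cons t T ih =>
    have hw : walk P (t :: T) = cond (pre P (t :: T)) (eqL P (t :: T)) (walk P T) := rfl
    rw [hw] at h
    by_cases hp : pre P (t :: T) = true
    · rw [hp, cond_true, eqL_iff] at h
      refine ⟨by rw [h], ?_⟩
      intro s1 s2 hs
      have h1 := congrArg List.length hs
      simp only [List.length_append] at h1
      rw [← h] at h1
      have : s2.length = 0 := by omega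
      exact List.length_eq_zero_iff.mp this
    · rw [Bool.not_eq_true] at hp
      rw [hp, cond_false] at h
      rw [← Bool.not_eq_true] at hp
      obtain ⟨h1, h2⟩ := ih h
      refine ⟨h1.trans (List.suffix_cons t T), ?_⟩
      intro s1 s2 hs
      cases s1 with
      | nil =>
        exfalso
        exact hp ((pre_iff _ _).mpr ⟨s2, by simpa using hs.symm⟩)
      | cons y s1 =>
        simp only [List.cons_append, List.cons.injEq] at hs
        exact h2 s1 s2 hs.2

/-- `rv x acc = x.reverse ++ acc`. -/
noncomputable def rv (x : List L3) : List L3 → List L3 :=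
  List.rec (motive := fun _ => List L3 → List L3) (fun acc => acc)
    (fun s _ ih acc => ih (s :: acc)) x

lemma rv_eq (x acc : List L3) : rv x acc = x.reverse ++ acc := by
  induction x generalizing acc with
  | nil => rfl
  | cons s ss ih =>
    have h : rv (s :: ss) acc = rv ss (s :: acc) := rfl
    rw [h, ih, List.reverse_cons, List.append_assoc, List.singleton_append]

/-- `R` is a complete return to the palindrome `P` and is not a palindrome. -/
noncomputable def retChk (P R : List L3) : Bool :=
  List.rec (motive := fun _ => Bool) false
    (fun t T _ => cond (pre P (t :: T)) (cond (eqL (rv P []) P) (cond (walk P T)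
      (Bool.not (eqL (rv (t :: T) []) (t :: T))) false) false) false) R

lemma retChk_spec (P R : List L3) (h : retChk P R = true) (h1 : RichWord R)
    (h2 : RichWord R.dropLast) : False := by
  cases R with
  | nil => exact absurd h (by simp [retChk])
  | cons t T =>
    have he : retChk P (t :: T) = cond (pre P (t :: T)) (cond (eqL (rv P []) P) (cond (walk P T)
      (Bool.not (eqL (rv (t :: T) []) (t :: T))) false) false) false := rfl
    rw [he, Bool.cond_false_right, Bool.cond_false_right, Bool.cond_false_right,
      Bool.and_eq_true, Bool.and_eq_true, Bool.and_eq_true, Bool.not_eq_true', rv_eq, rv_eq,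
      List.append_nil, List.append_nil] at h
    obtain ⟨ha, hb, hc, hd⟩ := h
    rw [pre_iff] at ha
    rw [eqL_iff] at hb
    obtain ⟨h3, h4⟩ := walk_spec P T hc
    have h5 := complete_return h1 h2 rfl ha hb h3 h4
    rw [← eqL_iff] at h5
    rw [h5] at hd
    exact Bool.noConfusion hd

lemma length_eq_counts (x : List L3) : x.length = x.count L3.a + x.count L3.b + x.count L3.c := by
  induction x with
  | nil => rfl
  | cons y ys ih => cases y <;> simp [ih] <;> omega

lemma perm_of_cnt {x y : List L3} (hl : x.length = y.length) (ha : x.count L3.a = y.count L3.a)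
    (hb : x.count L3.b = y.count L3.b) : x.Perm y := by
  rw [List.perm_iff_count]
  have h1 := length_eq_counts x
  have h2 := length_eq_counts y
  intro z
  cases z
  · exact ha
  · exact hb
  · omega

/-- Reads `n` letters, adding the numbers of letters `a`, `b` to the accumulators, and passes the
result and the rest of the word to `k`; `false` if there are less than `n` letters. -/
noncomputable def cnt (n : ℕ) : List L3 → ℕ → ℕ → (ℕ → ℕ → List L3 → Bool) → Bool :=
  Nat.rec (motive := fun _ => List L3 → ℕ → ℕ → (ℕ → ℕ → List L3 → Bool) → Bool)
    (fun l a b k => k a b l)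
    (fun _ ih l a b k => List.rec (motive := fun _ => Bool) false
      (fun x xs _ => L3.rec (motive := fun _ => Bool)
        (ih xs (Nat.succ a) b k) (ih xs a (Nat.succ b) k) (ih xs a b k) x) l) n

lemma cnt_spec (n : ℕ) (l : List L3) (a b : ℕ) (k : ℕ → ℕ → List L3 → Bool)
    (h : cnt n l a b k = true) :
    n ≤ l.length ∧ k (a + (l.take n).count L3.a) (b + (l.take n).count L3.b) (l.drop n) = true := by
  induction n generalizing l a b with
  | zero => exact ⟨Nat.zero_le _, by simpa [cnt] using h⟩
  | succ n ih =>
    cases l with
    | nil => exact absurd h (by simp [cnt])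
    | cons x xs =>
      cases x
      · have h1 : cnt n xs (a + 1) b k = true := h
        obtain ⟨h2, h3⟩ := ih _ _ _ h1
        refine ⟨by simpa using h2, ?_⟩
        simpa [add_assoc, add_comm, add_left_comm] using h3
      · have h1 : cnt n xs a (b + 1) k = true := h
        obtain ⟨h2, h3⟩ := ih _ _ _ h1
        refine ⟨by simpa using h2, ?_⟩
        simpa [add_assoc, add_comm, add_left_comm] using h3
      · have h1 : cnt n xs a b k = true := h
        obtain ⟨h2, h3⟩ := ih _ _ _ h1
        refine ⟨by simpa using h2, ?_⟩
        simpa [add_assoc, add_comm, add_left_comm] using h3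

/-- The word `w` starts with an abelian cube with blocks of length `l`. -/
noncomputable def cubeChk (w : List L3) (l : ℕ) : Bool :=
  cnt l w 0 0 (fun a1 b1 w1 => cnt l w1 0 0 (fun a2 b2 w2 =>
    cond (Nat.beq a1 a2) (cond (Nat.beq b1 b2) (cnt l w2 0 0 (fun a3 b3 _ =>
      cond (Nat.beq a2 a3) (cond (Nat.beq b2 b3) (Nat.ble 1 l) false) false)) false) false))

/-- `w` contains three consecutive blocks of equal positive length that are rearrangements of one
another. -/
def CubeIn {α : Type*} (w : List α) : Prop :=
  ∃ x y z : List α, x ≠ [] ∧ x.Perm y ∧ y.Perm z ∧ (x ++ y ++ z) <:+: w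

lemma cubeChk_spec (w : List L3) (l : ℕ) (h : cubeChk w l = true) : CubeIn w := by
  unfold cubeChk at h
  obtain ⟨h1, h⟩ := cnt_spec _ _ _ _ _ h
  obtain ⟨h2, h⟩ := cnt_spec _ _ _ _ _ h
  rw [Bool.cond_false_right, Bool.and_eq_true, Bool.cond_false_right, Bool.and_eq_true] at h
  obtain ⟨ha1, hb1, h⟩ := h
  obtain ⟨h3, h⟩ := cnt_spec _ _ _ _ _ h
  rw [Bool.cond_false_right, Bool.and_eq_true, Bool.cond_false_right, Bool.and_eq_true] at h
  obtain ⟨ha2, hb2, hl⟩ := h
  rw [Nat.beq_eq] at ha1 hb1 ha2 hb2
  rw [Nat.ble_eq] at hl
  simp only [zero_add] at ha1 hb1 ha2 hb2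
  refine ⟨w.take l, (w.drop l).take l, ((w.drop l).drop l).take l, ?_,
    perm_of_cnt (by rw [List.length_take_of_le h1, List.length_take_of_le h2]) ha1 hb1,
    perm_of_cnt (by rw [List.length_take_of_le h2, List.length_take_of_le h3]) ha2 hb2, ?_⟩
  · intro hnil
    have := List.length_take_of_le h1
    rw [hnil] at this
    simp at this
    omega
  · refine ⟨[], ((w.drop l).drop l).drop l, ?_⟩
    simp only [List.nil_append, List.append_assoc, List.take_append_drop]

/-- Certificates for the palindromic tree. -/
inductive Cert : Type
  | q : ℕ → Cert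
  | r : ℕ → ℕ → Cert
  | n : Cert → Cert → Cert → Cert

/-- The palindrome with half `h` and centre `z`. -/
def word (z h : List L3) : List L3 := h ++ (z ++ h.reverse)

/-- `force l k = k l`; it makes the kernel evaluate `l` before `k` is applied. -/
noncomputable def force (l : List L3) : (List L3 → Bool) → Bool :=
  List.rec (motive := fun _ => (List L3 → Bool) → Bool)
    (fun k => k [])
    (fun x _ ih k => L3.rec (motive := fun _ => Bool)
      (ih (fun ys => k (L3.a :: ys))) (ih (fun ys => k (L3.b :: ys)))
      (ih (fun ys => k (L3.c :: ys))) x) l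

lemma force_eq (l : List L3) (k : List L3 → Bool) : force l k = k l := by
  induction l generalizing k with
  | nil => rfl
  | cons x xs ih =>
    cases x
    · exact ih (fun ys => k (L3.a :: ys))
    · exact ih (fun ys => k (L3.b :: ys))
    · exact ih (fun ys => k (L3.c :: ys))

/-- `apr x acc = x ++ acc`. -/
noncomputable def app (x acc : List L3) : List L3 :=
  List.rec (motive := fun _ => List L3) acc (fun s _ ih => s :: ih) x

lemma app_eq (x acc : List L3) : app x acc = x ++ acc := by
  induction x with
  | nil => rfl
  | cons s ss ih =>
    have h : app (s :: ss) acc = s :: app ss acc := rfl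
    rw [h, ih, List.cons_append]

/-- `tk n x = x.take n`. -/
noncomputable def tk (n : ℕ) : List L3 → List L3 :=
  Nat.rec (motive := fun _ => List L3 → List L3) (fun _ => [])
    (fun _ ih x => List.rec (motive := fun _ => List L3) [] (fun s ss _ => s :: ih ss) x) n

lemma tk_eq (n : ℕ) (x : List L3) : tk n x = x.take n := by
  induction n generalizing x with
  | zero => simp [tk]
  | succ n ih =>
    cases x with
    | nil => simp [tk]
    | cons s ss =>
      have h : tk (n + 1) (s :: ss) = s :: tk n ss := rfl
      rw [h, ih, List.take_succ_cons]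

/-- The checker. -/
noncomputable def check (z : List L3) (C : Cert) : List L3 → Bool :=
  Cert.rec (motive := fun _ => List L3 → Bool)
    (fun l h => cubeChk (app h (app z (rv h []))) l)
    (fun p r h => force (tk r (app h (app z (rv h [])))) (fun R =>
      force (tk p R) (fun P => retChk P R)))
    (fun _ _ _ ihx ihy ihw h =>
      cond (ihx (L3.a :: h)) (cond (ihy (L3.b :: h)) (ihw (L3.c :: h)) false) false) C

/-- Depth of a certificate. -/
def Cert.depth : Cert → ℕ
  | .q _ => 0
  | .r _ _ => 0
  | .n x y w => max x.depth (max y.depth w.depth) + 1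

/-- Soundness of the checker. -/
theorem check_sound (L : List L3 → Prop) (hL : ∀ v w, v <:+: w → L w → L v)
    (hrich : ∀ v, L v → RichWord v) (hcube : ∀ v, L v → ¬ CubeIn v)
    (z : List L3) (C : Cert) : ∀ (h : List L3), check z C h = true →
      ∀ g : List L3, C.depth ≤ g.length → ¬ L (word z (g ++ h)) := by
  induction C with
  | q l =>
    intro h hc g _ hw
    have hinf : word z h <:+: word z (g ++ h) :=
      ⟨g, g.reverse, by simp [word, List.append_assoc]⟩
    have he : app h (app z (rv h [])) = word z h := by
      rw [app_eq, app_eq, rv_eq, List.append_nil]; rfl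
    have hc' : cubeChk (app h (app z (rv h []))) l = true := hc
    rw [he] at hc'
    exact hcube _ (hL _ _ hinf hw) (cubeChk_spec _ _ hc')
  | r p r =>
    intro h hc g _ hw
    have hinf : word z h <:+: word z (g ++ h) :=
      ⟨g, g.reverse, by simp [word, List.append_assoc]⟩
    have hR : L ((word z h).take r) := hL _ _ (List.take_prefix _ _).isInfix (hL _ _ hinf hw)
    have hR' : L ((word z h).take r).dropLast := hL _ _ (List.dropLast_prefix _).isInfix hR
    have he : app h (app z (rv h [])) = word z h := by
      rw [app_eq, app_eq, rv_eq, List.append_nil]; rfl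
    have hc' : force (tk r (app h (app z (rv h [])))) (fun R =>
      force (tk p R) (fun P => retChk P R)) = true := hc
    rw [force_eq, force_eq, he, tk_eq, tk_eq] at hc'
    exact retChk_spec _ _ hc' (hrich _ hR) (hrich _ hR')
  | n x y w ihx ihy ihw =>
    intro h hc g hg hw
    have hc' : cond (check z x (L3.a :: h)) (cond (check z y (L3.b :: h))
      (check z w (L3.c :: h)) false) false = true := hc
    rw [Bool.cond_false_right, Bool.cond_false_right, Bool.and_eq_true, Bool.and_eq_true] at hc'
    obtain ⟨hcx, hcy, hcw⟩ := hc'
    simp only [Cert.depth] at hg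
    rcases List.eq_nil_or_concat g with hg0 | ⟨g', t, hg'⟩
    · subst hg0; simp at hg
    · subst hg'
      have hlen : max x.depth (max y.depth w.depth) ≤ g'.length := by
        simp at hg; omega
      have hx : x.depth ≤ g'.length := le_trans (le_max_left _ _) hlen
      have hy : y.depth ≤ g'.length := le_trans (le_trans (le_max_left _ _) (le_max_right _ _)) hlen
      have hw' : w.depth ≤ g'.length := le_trans (le_trans (le_max_right _ _) (le_max_right _ _)) hlen
      have e : g'.concat t ++ h = g' ++ (t :: h) := by simp
      rw [e] at hw
      cases t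
      · exact ihx _ hcx g' hx hw
      · exact ihy _ hcy g' hy hw
      · exact ihw _ hcw g' hw' hw

end Pool.Agent.Rich3
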