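import Pool.Agent.Rich3.Core

/-! Certificate for the tree of palindromes with even length. -/

namespace Pool.Agent.Rich3

open Cert in
/-- The certificate (even case). -/
def evenCert : Cert :=
  (n (n (n (q 1) (q 3) (n (n (n (q 1) (n (n (n (q 1) (n (n (n (q 1) (q 3) (q 9)) (q 2) (q 8)) (n
  (q 2) (q 1) (r 1 9)) (r 1 8)) (q 6)) (n (n (n (q 1) (q 2) (q 8)) (q 2) (r 1 8)) (n (q 2) (q 1)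
  (r 1 8)) (r 1 7)) (q 5)) (n (n (n (q 1) (q 2) (q 7)) (n (q 2) (n (n (n (q 1) (q 2) (n (q 7) (r 1
  5) (n (n (n (q 1) (n (r 3 20) (n (q 6) (q 1) (r 1 6)) (r 1 5)) (q 2)) (r 1 7) (n (q 2) (r 1 8)
  (n (n (n (q 1) (n (r 3 23) (n (n (n (q 1) (q 2) (n (r 3 24) (r 1 5) (n (n (n (q 1) (q 4) (q 2))
  (r 1 7) (n (q 2) (r 1 8) (n (n (n (q 1) (n (q 6) (n (n (n (q 1) (q 2) (n (r 3 35) (q 19) (n (n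
  (n (q 1) (q 4) (q 2)) (r 1 7) (n (q 2) (r 1 8) (n (q 11) (r 1 9) (q 1)))) (r 1 6) (q 1)))) (n (q
  2) (n (n (n (q 1) (q 2) (q 21)) (n (q 2) (q 3) (r 1 11)) (r 1 10)) (q 1) (r 1 9)) (r 1 8)) (q
  9)) (q 1) (r 1 6)) (r 1 5)) (q 2)) (q 5) (n (q 2) (r 1 11) (q 3))) (r 1 9) (q 1)))) (r 1 6) (q
  1)))) (n (q 2) (n (n (n (q 1) (q 2) (n (n (n (q 1) (q 16) (n (n (n (q 1) (n (r 3 36) (q 6) (q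
  18)) (q 3)) (r 1 9) (q 2)) (r 1 8) (r 2 16))) (r 1 6) (q 7)) (r 1 5) (q 7))) (n (q 2) (q 3) (r 1
  11)) (r 1 10)) (q 1) (r 1 9)) (r 1 8)) (r 1 7)) (q 1) (r 1 6)) (r 1 5)) (q 2)) (r 1 10) (n (q 2)
  (r 1 11) (q 3))) (r 1 9) (q 1)))) (r 1 6) (q 1)))) (n (q 2) (q 3) (r 1 11)) (r 1 10)) (q 1) (r 1
  9)) (r 1 8)) (r 1 7)) (q 1) (r 1 6)) (r 1 5)) (n (n (n (q 1) (q 6) (q 3)) (q 5) (q 2)) (r 1 8)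
  (n (q 2) (r 1 9) (q 1)))) (r 1 6) (n (n (n (q 1) (q 5) (q 2)) (r 1 8) (q 2)) (r 1 7) (n (q 2) (r
  1 8) (q 1)))) (r 1 5) (n (n (n (q 1) (n (q 5) (n (n (n (q 1) (q 2) (q 4)) (n (q 2) (n (n (n (q
  1) (q 2) (n (n (n (q 1) (n (r 3 20) (n (n (n (q 1) (q 2) (q 6)) (n (q 2) (n (n (n (q 1) (q 2) (q
  12)) (n (q 2) (q 3) (q 13)) (r 1 10)) (q 1) (r 1 9)) (r 1 8)) (q 12)) (q 1) (r 1 6)) (q 10)) (n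
  (q 9) (q 10) (r 2 16))) (r 1 6) (q 8)) (r 1 5) (n (q 8) (r 1 6) (q 1)))) (n (q 2) (q 3) (r 1
  11)) (r 1 10)) (q 1) (r 1 9)) (r 1 8)) (r 1 7)) (q 1) (r 1 6)) (r 1 5)) (q 2)) (r 1 7) (n (q 2)
  (r 1 8) (n (n (n (q 1) (q 6) (q 2)) (r 1 10) (n (q 2) (r 1 11) (q 3))) (r 1 9) (q 1)))) (r 1 6)
  (q 1)))) (q 2) (n (n (r 2 7) (n (n (n (q 1) (n (n (n (q 1) (n (q 3) (n (q 2) (q 1) (r 1 11)) (q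
  7)) (q 7)) (q 2) (q 7)) (n (q 2) (q 1) (r 1 8)) (r 1 7)) (r 1 6)) (n (n (r 2 11) (q 2) (q 6)) (n
  (q 2) (q 1) (r 1 7)) (r 1 6)) (q 4)) (n (n (r 2 10) (n (q 2) (n (n (r 2 13) (n (q 2) (q 3) (r 1
  10)) (n (n (q 6) (q 7) (n (n (r 2 17) (n (r 3 17) (q 5) (r 1 4)) (q 2)) (r 1 6) (n (q 2) (r 1 7)
  (q 1)))) (r 1 4) (n (n (r 2 16) (n (r 3 16) (n (q 5) (q 1) (r 1 5)) (r 1 4)) (n (q 2) (r 1 7) (n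
  (n (r 2 19) (n (r 3 19) (n (n (r 2 22) (n (q 2) (n (n (r 2 25) (n (q 2) (q 3) (r 1 10)) (n (n (r
  2 27) (q 13) (q 6)) (r 1 4) (q 6))) (q 1) (r 1 8)) (r 1 7)) (n (r 3 20) (r 1 4) (n (n (r 2 25)
  (q 3) (n (q 2) (r 1 7) (n (n (r 2 28) (n (q 5) (n (n (r 2 31) (n (q 2) (n (n (r 2 34) (n (q 2)
  (q 3) (r 1 10)) (n (q 18) (r 1 4) (q 6))) (q 1) (r 1 8)) (r 1 7)) (n (q 8) (r 1 4) (n (n (r 2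
  34) (q 3) (n (q 2) (r 1 7) (q 9))) (r 1 5) (q 1)))) (q 1) (q 7)) (r 1 4)) (n (q 2) (r 1 10) (q
  3))) (q 4) (q 1)))) (r 1 5) (q 1)))) (q 1) (r 1 5)) (r 1 4)) (n (q 2) (r 1 10) (q 3))) (r 1 8)
  (q 1)))) (r 1 5) (q 1)))) (q 1) (r 1 8)) (r 1 7)) (n (q 6) (r 1 4) (n (n (q 8) (q 3) (n (q 2) (r
  1 7) (n (n (r 2 16) (n (r 3 16) (n (n (r 2 19) (n (q 2) (n (n (r 2 22) (n (q 2) (q 3) (r 1 10))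
  (n (r 3 20) (r 1 4) (q 6))) (q 1) (r 1 8)) (r 1 7)) (n (n (r 2 21) (q 10) (r 3 11)) (r 1 4) (n
  (n (r 2 22) (q 3) (n (q 2) (r 1 7) (n (n (r 2 25) (n (q 5) (n (q 8) (q 1) (q 7)) (r 1 4)) (n (q
  2) (r 1 10) (q 3))) (q 4) (q 1)))) (r 1 5) (q 1)))) (q 1) (r 1 5)) (r 1 4)) (n (q 2) (r 1 10) (q
  3))) (r 1 8) (q 1)))) (r 1 5) (q 1)))) (q 1) (r 1 5)) (r 1 4)) (n (n (r 2 9) (q 4) (q 2)) (r 1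
  6) (n (q 2) (r 1 7) (q 1)))) (r 1 4) (n (n (r 2 8) (n (q 4) (n (n (r 2 11) (n (q 2) (n (n (r 2
  14) (n (q 2) (q 3) (r 1 10)) (n (n (r 2 16) (n (r 3 16) (n (n (r 2 19) (n (q 2) (n (n (r 2 22)
  (n (q 2) (q 3) (q 6)) (n (q 10) (q 6) (n (n (r 2 25) (n (n (n (q 1) (n (n (n (q 1) (n (q 3) (r 2
  14) (r 1 10)) (r 1 9)) (q 2) (n (r 3 19) (q 15) (n (n (r 2 8) (n (q 4) (n (n (r 2 11) (n (q 2)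
  (n (n (r 2 14) (n (q 2) (q 3) (q 23)) (q 25)) (q 1) (r 1 8)) (q 23)) (q 3)) (q 1) (r 1 5)) (r 1
  4)) (n (q 2) (r 1 7) (n (n (r 2 11) (q 5) (n (q 2) (r 1 10) (q 3))) (r 1 8) (q 1)))) (r 1 5) (q
  1)))) (r 2 11) (q 15)) (r 1 6)) (q 5) (q 13)) (n (q 5) (q 1) (r 1 5)) (r 1 4)) (q 16)) (r 1 5)
  (q 1)))) (q 1) (r 1 8)) (r 1 7)) (q 10)) (q 1) (r 1 5)) (q 8)) (n (q 7) (q 8) (r 2 13))) (r 1 4)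
  (n (n (q 7) (q 8) (n (q 2) (r 1 7) (n (n (r 2 20) (n (r 3 20) (q 6) (r 1 4)) (n (q 2) (r 1 10)
  (q 3))) (r 1 8) (q 1)))) (r 1 5) (q 1)))) (q 1) (r 1 8)) (r 1 7)) (q 3)) (q 1) (r 1 5)) (r 1 4))
  (n (q 2) (r 1 7) (n (n (r 2 11) (q 5) (n (q 2) (r 1 10) (q 3))) (r 1 8) (q 1)))) (r 1 5) (q
  1)))) (n (q 2) (q 1) (n (r 1 5) (n (r 1 6) (n (n (n (q 1) (n (n (n (q 1) (n (n (q 3) (q 2) (r 1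
  11)) (n (q 2) (q 1) (q 6)) (r 1 10)) (r 1 9)) (q 2) (r 1 8)) (n (q 2) (q 1) (q 7)) (q 6)) (r 1
  6)) (n (n (r 2 11) (n (q 2) (n (q 2) (q 1) (q 7)) (q 7)) (r 1 7)) (n (n (r 2 12) (n (q 2) (n (q
  3) (q 1) (q 8)) (r 1 9)) (q 7)) (q 1) (q 5)) (r 1 6)) (q 4)) (q 1) (n (q 4) (n (r 1 9) (n (q 5)
  (q 1) (q 3)) (q 2)) (n (r 1 9) (q 2) (q 1)))) (n (r 1 7) (n (q 4) (n (n (n (q 1) (n (n (n (q 1)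
  (n (n (q 3) (q 2) (r 1 11)) (n (q 2) (q 1) (q 6)) (r 1 10)) (r 1 9)) (q 2) (r 1 8)) (n (q 2) (q
  1) (n (r 1 5) (q 9) (q 8))) (q 8)) (r 1 6)) (q 5) (r 1 5)) (q 1) (q 2)) (q 2)) (n (r 1 8) (q 2)
  (q 1)))) (n (r 1 6) (n (r 1 7) (n (q 4) (q 1) (q 2)) (n (r 1 8) (q 2) (n (r 1 9) (n (q 5) (n (n
  (n (q 1) (n (n (n (q 1) (n (n (q 3) (q 2) (r 1 11)) (n (q 2) (q 1) (n (r 1 5) (n (r 1 6) (n (n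
  (n (q 1) (n (n (n (q 1) (n (n (q 3) (q 2) (r 1 11)) (n (q 2) (q 1) (n (r 1 5) (n (r 1 6) (n (n
  (n (q 1) (n (n (n (q 1) (n (n (q 3) (q 2) (r 1 11)) (q 10) (q 9)) (r 1 9)) (q 2) (r 1 8)) (r 6
  37) (q 6)) (r 1 6)) (n (r 3 12) (n (n (r 2 12) (n (q 2) (n (q 3) (q 1) (q 7)) (q 7)) (q 6)) (q
  1) (n (q 6) (n (q 7) (n (q 7) (q 1) (n (r 1 8) (n (q 5) (n (n (r 2 18) (n (r 3 21) (q 6) (r 1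
  6)) (r 1 5)) (q 1) (q 3)) (q 2)) (r 2 32))) (r 3 32)) (r 2 29))) (r 1 6)) (r 1 5)) (q 1) (n (r 1
  8) (n (r 1 9) (n (n (q 6) (n (q 7) (n (q 7) (q 1) (n (r 1 5) (n (q 5) (n (r 7 26) (q 1) (n (r 1
  8) (n (r 1 9) (n (n (n (q 1) (n (q 13) (r 6 49) (r 1 7)) (r 1 6)) (n (r 3 24) (n (n (r 2 24) (n
  (q 2) (n (q 3) (q 1) (q 6)) (q 5)) (r 1 8)) (q 1) (n (r 1 5) (n (q 5) (n (q 6) (q 1) (n (r 1 8)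
  (n (q 8) (q 9) (q 2)) (r 2 44))) (q 8)) (r 2 41))) (r 1 6)) (r 1 5)) (q 1) (q 3)) (q 2)) (r 2
  35))) (r 3 35)) (r 2 32))) (r 1 6)) (r 1 5)) (q 1) (q 3)) (q 2)) (q 15))) (r 3 26)) (n (r 1 6)
  (n (r 1 7) (n (n (n (q 1) (q 6) (r 1 6)) (n (q 6) (n (n (r 2 13) (n (q 2) (n (q 3) (q 1) (n (r 1
  5) (r 3 23) (n (r 1 6) (n (r 1 7) (n (n (q 12) (q 5) (r 1 5)) (q 1) (q 2)) (q 21)) (q 1)))) (r 1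
  9)) (q 4)) (q 1) (n (q 4) (r 3 20) (n (r 1 6) (n (r 1 7) (n (n (n (q 1) (n (n (n (q 1) (n (n (q
  3) (q 2) (q 24)) (n (q 2) (q 1) (q 23)) (r 1 10)) (q 22)) (q 2) (q 13)) (r 6 45) (q 21)) (r 1
  6)) (n (r 3 20) (n (n (q 12) (n (q 2) (n (q 3) (q 1) (q 5)) (r 1 9)) (q 4)) (q 1) (n (q 4) (r 3
  27) (n (r 1 6) (n (q 6) (q 7) (r 3 41)) (q 1)))) (q 21)) (q 21)) (q 1) (q 2)) (q 19)) (q 1))))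
  (q 17)) (r 1 5)) (q 1) (q 2)) (n (q 16) (q 2) (n (r 1 9) (n (r 1 10) (n (n (n (q 1) (n (n (n (q
  1) (q 11) (r 1 9)) (q 2) (r 1 8)) (n (q 2) (q 1) (n (r 1 5) (q 21) (n (r 1 6) (n (r 1 7) (n (q
  4) (q 1) (q 2)) (n (r 1 8) (q 2) (n (r 1 9) (n (q 5) (n (n (n (q 1) (n (n (n (q 1) (n (n (q 3)
  (q 2) (r 1 11)) (n (q 2) (q 1) (q 35)) (q 34)) (r 1 9)) (q 2) (q 18)) (q 15) (q 9)) (r 1 6)) (q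
  6) (r 1 5)) (q 1) (q 2)) (n (r 1 11) (q 2) (q 3))) (q 1)))) (q 1)))) (q 20)) (r 1 6)) (n (r 3
  16) (n (n (r 2 16) (n (q 2) (n (q 3) (q 1) (q 21)) (q 21)) (r 1 8)) (q 1) (q 19)) (r 1 6)) (q
  18)) (q 1) (q 2)) (n (r 1 11) (q 2) (q 3))) (q 1)))) (q 1)))) (r 1 10)) (r 1 9)) (q 2) (r 1 8))
  (r 6 27) (r 1 7)) (r 1 6)) (n (r 3 12) (n (n (r 2 12) (n (q 2) (n (q 3) (q 1) (n (r 1 5) (n (r 1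
  6) (n (n (n (q 1) (n (n (n (q 1) (n (n (q 3) (q 2) (r 1 11)) (n (q 2) (q 1) (n (r 1 5) (q 7) (n
  (r 1 6) (n (r 1 7) (n (n (n (q 1) (q 6) (r 1 6)) (r 3 20) (r 1 5)) (q 1) (q 2)) (n (r 1 8) (q 2)
  (q 22))) (q 1)))) (r 1 10)) (r 1 9)) (q 2) (r 1 8)) (r 6 36) (r 1 7)) (r 1 6)) (n (r 3 21) (n (n
  (r 2 21) (n (q 2) (n (q 3) (q 1) (q 8)) (r 1 9)) (q 7)) (q 1) (q 6)) (q 5)) (r 1 5)) (q 1) (n (r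
  1 8) (n (q 5) (n (q 6) (q 1) (q 3)) (q 2)) (r 2 25))) (r 3 25)) (r 2 22))) (r 1 9)) (q 6)) (q 1)
  (n (q 6) (n (r 1 6) (n (n (n (q 1) (n (n (n (q 1) (n (n (q 3) (q 2) (r 1 11)) (n (q 2) (q 1) (n
  (r 1 5) (q 7) (n (r 1 6) (n (r 1 7) (n (n (n (q 1) (q 6) (r 1 6)) (r 3 20) (r 1 5)) (q 1) (q 2))
  (n (r 1 8) (q 2) (q 19))) (q 1)))) (r 1 10)) (r 1 9)) (q 2) (r 1 8)) (r 6 33) (r 1 7)) (r 1 6))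
  (n (r 3 18) (n (n (r 2 18) (n (q 2) (n (q 3) (q 1) (q 6)) (q 5)) (r 1 8)) (q 1) (n (r 1 5) (n (q
  5) (q 6) (r 3 28)) (r 2 25))) (q 5)) (r 1 5)) (q 1) (n (r 1 8) (n (q 5) (n (n (r 2 18) (n (r 3
  21) (q 6) (r 1 6)) (r 1 5)) (q 1) (q 3)) (q 2)) (r 2 22))) (r 3 22)) (r 2 19))) (r 1 6)) (r 1
  5)) (q 1) (q 8)) (q 7)) (q 7))) (r 1 10)) (r 1 9)) (q 2) (r 1 8)) (n (q 2) (q 1) (n (r 1 5) (q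
  10) (n (r 1 6) (q 11) (q 1)))) (q 9)) (r 1 6)) (q 6) (r 1 5)) (q 1) (q 2)) (n (r 1 11) (q 2) (q
  3))) (q 1)))) (q 1)))) (n (r 1 4) (n (n (n (q 1) (n (n (n (q 1) (n (n (q 3) (q 2) (q 6)) (n (q
  2) (q 1) (q 5)) (q 5)) (r 1 8)) (q 2) (r 1 7)) (n (q 2) (q 1) (q 5)) (q 5)) (r 1 5)) (n (n (r 2
  9) (n (q 2) (n (q 2) (q 1) (q 6)) (n (q 5) (q 6) (n (r 1 5) (q 7) (q 1)))) (q 5)) (n (n (r 2 10)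
  (n (q 2) (n (n (r 2 13) (q 3) (q 6)) (q 1) (r 1 9)) (q 6)) (r 1 7)) (q 1) (q 4)) (n (r 1 4) (q
  4) (n (q 6) (n (n (r 2 12) (q 7) (r 1 4)) (n (r 1 7) (q 1) (q 2)) (n (r 1 7) (q 2) (n (r 1 8) (n
  (n (r 2 15) (n (n (r 2 17) (n (q 2) (n (q 2) (q 1) (q 9)) (n (r 1 4) (q 9) (q 5))) (q 8)) (n (n
  (r 2 18) (n (q 2) (n (n (r 2 21) (q 3) (r 1 10)) (q 1) (r 1 9)) (q 9)) (r 1 7)) (q 1) (r 1 6))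
  (n (q 8) (n (n (n (q 1) (n (n (n (q 1) (n (n (q 3) (q 2) (r 1 10)) (n (q 2) (q 1) (r 1 10)) (n
  (r 1 4) (n (n (n (q 1) (n (n (n (q 1) (n (n (q 3) (q 2) (q 6)) (n (q 2) (q 1) (q 7)) (n (q 6) (q
  7) (r 2 23))) (r 1 8)) (q 2) (r 1 7)) (n (q 2) (q 1) (q 5)) (q 5)) (r 1 5)) (n (r 3 10) (n (n (r
  2 10) (n (q 2) (n (n (r 2 13) (q 3) (r 1 10)) (q 1) (r 1 9)) (n (r 1 4) (n (n (q 7) (n (r 3 17)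
  (n (q 8) (q 1) (r 1 6)) (q 4)) (r 1 4)) (r 2 7) (r 3 25)) (r 2 22))) (q 5)) (q 1) (r 1 6)) (n (q
  5) (n (q 5) (n (r 1 6) (q 1) (n (r 1 7) (n (q 4) (n (r 1 9) (q 1) (n (r 1 10) (q 3) (r 2 25)))
  (q 2)) (r 2 22))) (q 10)) (q 10))) (r 1 4)) (n (r 1 6) (q 1) (n (r 1 7) (n (n (q 5) (r 3 18) (q
  10)) (n (r 1 9) (q 1) (n (r 1 10) (q 3) (r 2 21))) (q 2)) (r 2 18))) (r 3 18)) (r 2 15))) (r 1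
  8)) (q 2) (r 1 7)) (n (q 2) (q 1) (r 1 7)) (n (r 1 4) (n (n (n (q 1) (n (n (n (q 1) (n (n (q 3)
  (q 2) (r 1 10)) (n (q 2) (q 1) (q 5)) (q 5)) (r 1 8)) (q 2) (r 1 7)) (n (q 2) (q 1) (r 1 7)) (n
  (r 1 4) (n (q 5) (n (r 1 6) (q 1) (n (q 10) (n (q 4) (n (r 1 9) (q 1) (n (r 1 10) (q 3) (r 2
  23))) (q 2)) (r 2 20))) (r 3 20)) (r 2 17))) (r 1 5)) (n (n (r 2 9) (n (q 2) (n (q 2) (q 1) (r 1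
  8)) (n (q 5) (n (n (q 5) (q 6) (q 10)) (n (q 6) (q 1) (n (q 4) (n (q 4) (n (r 1 9) (q 1) (n (r 1
  10) (q 3) (r 2 24))) (q 2)) (r 2 21))) (r 3 21)) (r 2 18))) (r 1 6)) (n (n (r 2 10) (n (q 2) (n
  (n (r 2 13) (q 3) (q 6)) (q 1) (r 1 9)) (n (r 1 4) (n (q 6) (r 2 7) (r 3 22)) (r 2 19))) (r 1
  7)) (q 1) (q 4)) (n (r 1 4) (q 4) (n (r 1 5) (q 17) (q 1)))) (q 3)) (n (r 1 6) (q 1) (n (r 1 7)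
  (n (q 4) (n (r 1 9) (q 1) (n (q 18) (q 3) (r 2 18))) (q 2)) (r 2 15))) (r 3 15)) (r 2 12))) (r 1
  5)) (q 9) (q 5)) (n (q 9) (q 1) (n (q 5) (n (n (r 2 22) (n (n (r 2 24) (n (q 2) (r 2 9) (q 4))
  (r 1 6)) (r 2 7) (n (r 1 4) (n (q 4) (n (r 1 6) (q 1) (q 8)) (r 3 17)) (q 7))) (r 1 4)) (n (r 1
  9) (q 1) (n (r 1 10) (q 3) (r 2 13))) (q 2)) (r 2 10))) (r 3 10)) (n (r 1 5) (n (q 5) (n (q 5)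
  (q 1) (q 2)) (n (r 1 7) (q 2) (n (r 1 8) (n (n (r 2 23) (q 7) (q 6)) (n (q 7) (q 1) (q 2)) (n (q
  6) (q 2) (q 3))) (q 1)))) (q 1)))) (r 1 4)) (n (r 1 10) (q 1) (q 2)) (n (r 1 10) (q 2) (q 3)))
  (q 1)))) (q 1)))) (q 3)) (n (r 1 6) (q 1) (n (r 1 7) (n (q 4) (n (r 1 9) (q 1) (n (r 1 10) (q 3)
  (n (r 1 11) (q 2) (q 1)))) (q 2)) (n (r 1 8) (q 2) (q 1)))) (n (q 3) (n (n (n (q 1) (n (n (n (q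
  1) (n (n (q 3) (q 2) (r 1 10)) (n (q 2) (q 1) (q 5)) (q 5)) (r 1 8)) (q 2) (r 1 7)) (n (q 2) (q
  1) (r 1 7)) (n (r 1 4) (q 7) (n (r 1 5) (q 7) (q 1)))) (q 6)) (q 4) (r 1 4)) (n (q 4) (q 1) (q
  2)) (q 2)) (n (r 1 7) (q 2) (q 1)))) (n (r 1 5) (n (q 3) (n (r 1 7) (q 1) (q 2)) (n (r 1 7) (q
  2) (n (q 4) (n (n (n (q 1) (n (n (n (q 1) (n (n (q 3) (q 2) (r 1 10)) (n (q 2) (q 1) (r 1 10))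
  (n (r 1 4) (n (n (n (q 1) (n (n (n (q 1) (n (n (q 3) (q 2) (q 6)) (n (q 2) (q 1) (r 1 10)) (n (q
  6) (n (n (n (q 1) (n (n (n (q 1) (q 8) (r 1 8)) (q 2) (q 6)) (n (q 2) (q 1) (q 5)) (q 5)) (r 1
  5)) (n (r 3 10) (n (n (r 2 10) (n (q 2) (n (n (r 2 13) (q 3) (r 1 10)) (q 1) (r 1 9)) (n (q 7)
  (n (n (q 7) (n (r 3 17) (n (n (r 2 17) (n (q 2) (n (n (r 2 20) (q 3) (r 1 10)) (q 1) (r 1 9)) (n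
  (q 6) (n (n (n (q 1) (n (n (n (q 1) (n (n (q 3) (q 2) (r 1 10)) (r 2 13) (n (r 1 4) (n (n (n (q
  1) (n (n (n (q 1) (n (n (q 3) (q 2) (q 6)) (r 2 21) (n (q 6) (q 7) (n (r 1 5) (n (n (n (q 1) (q
  5) (r 1 5)) (r 3 24) (r 1 4)) (r 2 24) (n (r 1 7) (q 2) (n (r 1 8) (n (n (n (q 1) (n (n (q 9) (q
  2) (r 1 7)) (r 2 30) (n (r 1 4) (r 3 20) (n (r 1 5) (n (q 3) (r 2 33) (n (r 1 7) (q 2) (n (q 4)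
  (n (n (n (q 1) (n (n (n (q 1) (n (n (q 3) (q 2) (r 1 10)) (r 2 42) (n (r 1 4) (n (n (n (q 1) (n
  (n (n (q 1) (n (q 54) (q 53) (n (q 6) (n (n (n (q 1) (n (n (n (q 1) (q 8) (r 1 8)) (q 2) (q 6))
  (r 2 55) (q 5)) (r 1 5)) (n (r 3 10) (n (n (r 2 10) (n (q 2) (q 54) (q 59)) (q 5)) (q 1) (q 30))
  (q 56)) (r 1 4)) (q 27) (r 3 22)) (n (r 1 5) (n (n (n (q 1) (q 5) (r 1 5)) (q 56) (r 1 4)) (r 2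
  53) (q 12)) (q 1)))) (r 1 8)) (q 2) (r 1 7)) (r 2 47) (r 6 23)) (r 1 5)) (r 3 44) (r 1 4)) (r 2
  44) (q 6)) (q 6))) (r 1 8)) (q 2) (r 1 7)) (r 2 39) (n (r 1 4) (q 8) (n (r 1 5) (n (q 3) (r 2
  42) (n (r 1 7) (q 2) (q 9))) (q 1)))) (q 7)) (q 5) (r 1 4)) (r 2 36) (n (r 1 10) (q 2) (q 3)))
  (q 1)))) (q 1)))) (r 1 5)) (r 3 27) (q 30)) (r 2 27) (n (q 30) (q 2) (q 3))) (q 1)))) (q 1))))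
  (r 1 8)) (q 2) (r 1 7)) (r 2 18) (q 5)) (r 1 5)) (q 8) (r 1 4)) (q 6) (r 3 44)) (r 2 41))) (r 1
  8)) (q 2) (r 1 7)) (q 7) (r 6 45)) (r 1 5)) (n (r 3 24) (q 7) (q 4)) (r 1 4)) (r 2 7) (r 3 36))
  (r 2 33))) (q 6)) (q 1) (r 1 6)) (q 4)) (r 1 4)) (r 2 7) (r 3 29)) (r 2 26))) (q 5)) (q 1) (r 1
  6)) (n (q 5) (n (q 5) (n (r 1 6) (q 1) (n (r 1 7) (n (q 4) (n (r 1 9) (q 1) (n (r 1 10) (q 3) (r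
  2 29))) (q 2)) (r 2 26))) (r 3 26)) (q 14))) (r 1 4)) (n (r 1 6) (q 1) (n (r 1 7) (n (n (q 5) (n
  (r 3 13) (r 2 7) (n (r 1 4) (n (q 4) (n (r 1 6) (q 1) (n (r 1 7) (n (n (n (q 1) (n (n (n (q 1)
  (n (n (q 3) (q 2) (r 1 10)) (r 2 11) (n (r 1 4) (n (n (n (q 1) (n (n (n (q 1) (n (n (q 3) (q 2)
  (q 6)) (r 2 19) (n (q 6) (q 11) (q 25))) (r 1 8)) (q 2) (r 1 7)) (r 2 16) (q 5)) (r 1 5)) (r 3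
  18) (r 1 4)) (n (r 1 6) (q 1) (q 8)) (r 3 40)) (r 2 37))) (r 1 8)) (q 2) (r 1 7)) (r 2 8) (r 6
  41)) (r 1 5)) (n (r 3 20) (r 2 7) (n (r 1 4) (n (q 4) (n (r 1 6) (q 1) (n (r 1 7) (q 7) (r 2
  36))) (r 3 36)) (r 2 33))) (r 1 4)) (n (r 1 9) (q 1) (n (r 1 10) (q 3) (r 2 32))) (q 2)) (r 2
  29))) (r 3 29)) (r 2 26))) (r 1 4)) (n (r 1 9) (q 1) (n (r 1 10) (q 3) (r 2 25))) (q 2)) (r 2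
  22))) (r 3 22)) (n (r 1 5) (n (n (n (q 1) (q 5) (r 1 5)) (n (q 5) (n (n (r 2 11) (n (q 2) (n (n
  (r 2 14) (q 3) (r 1 10)) (q 1) (r 1 9)) (n (r 1 4) (r 3 19) (n (r 1 5) (n (n (n (q 1) (n (n (n
  (q 1) (n (n (q 3) (q 2) (r 1 10)) (r 2 14) (n (r 1 4) (n (n (n (q 1) (n (n (n (q 1) (n (n (q 3)
  (q 2) (q 6)) (r 2 22) (n (q 6) (q 10) (q 27))) (r 1 8)) (q 2) (r 1 7)) (r 2 19) (q 10)) (r 1 5))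
  (r 3 16) (q 8)) (r 2 16) (r 3 39)) (q 22))) (q 20)) (q 2) (q 19)) (r 2 11) (q 3)) (q 11)) (q 4)
  (r 1 4)) (r 2 8) (r 3 31)) (q 1)))) (r 1 7)) (q 1) (r 1 6)) (q 14)) (r 1 4)) (n (r 1 7) (q 1) (q
  2)) (q 12)) (q 1)))) (r 1 8)) (q 2) (r 1 7)) (n (q 2) (q 1) (q 5)) (r 6 23)) (r 1 5)) (n (r 3
  10) (n (n (r 2 10) (n (q 2) (n (n (r 2 13) (q 3) (r 1 10)) (q 1) (r 1 9)) (n (r 1 4) (n (n (n (q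
  1) (n (n (n (q 1) (n (n (q 3) (q 2) (r 1 10)) (r 2 13) (n (r 1 4) (n (q 7) (q 6) (r 3 29)) (n (r
  1 5) (n (n (n (q 1) (q 5) (r 1 5)) (r 3 16) (r 1 4)) (r 2 16) (n (r 1 7) (q 2) (q 18))) (q 1))))
  (r 1 8)) (q 2) (r 1 7)) (r 2 10) (r 6 30)) (r 1 5)) (n (r 3 17) (n (n (r 2 17) (n (q 2) (n (n (r
  2 20) (q 3) (r 1 10)) (q 1) (r 1 9)) (n (q 6) (n (n (n (q 1) (n (n (n (q 1) (n (n (q 3) (q 2) (r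
  1 10)) (r 2 13) (n (r 1 4) (n (n (n (q 1) (n (n (n (q 1) (n (n (q 3) (q 2) (q 6)) (r 2 21) (n (q
  6) (q 7) (r 2 41))) (r 1 8)) (q 2) (r 1 7)) (r 2 18) (q 5)) (r 1 5)) (q 8) (r 1 4)) (q 6) (r 3
  36)) (n (r 1 5) (n (n (n (q 1) (q 5) (r 1 5)) (r 3 16) (r 1 4)) (r 2 16) (n (r 1 7) (q 2) (n (r
  1 8) (n (n (n (q 1) (n (n (n (q 1) (n (n (q 3) (q 2) (r 1 10)) (r 2 25) (n (r 1 4) (n (n (n (q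
  1) (n (n (n (q 1) (n (n (q 3) (q 2) (q 6)) (r 2 33) (q 9)) (q 9)) (q 2) (r 1 7)) (q 16) (r 6
  57)) (r 1 5)) (n (r 3 10) (n (q 16) (q 1) (r 1 6)) (n (r 1 4) (n (q 5) (r 2 31) (r 3 18)) (r 2
  15))) (r 1 4)) (r 2 27) (q 6)) (q 6))) (r 1 8)) (q 2) (r 1 7)) (r 2 22) (n (r 1 4) (r 3 20) (n
  (r 1 5) (n (q 3) (r 2 25) (n (r 1 7) (q 2) (n (q 4) (n (n (n (q 1) (n (n (n (q 1) (n (q 38) (q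
  37) (n (r 1 4) (n (n (n (q 1) (n (n (n (q 1) (n (n (q 3) (q 2) (q 6)) (r 2 42) (n (q 6) (n (n (n
  (q 1) (n (n (n (q 1) (q 8) (r 1 8)) (q 2) (q 6)) (r 2 47) (q 5)) (r 1 5)) (r 3 44) (r 1 4)) (r 2
  44) (r 3 22)) (n (r 1 5) (n (n (n (q 1) (q 5) (r 1 5)) (r 3 45) (r 1 4)) (r 2 45) (q 12)) (q
  1)))) (r 1 8)) (q 2) (r 1 7)) (r 2 39) (r 6 23)) (r 1 5)) (n (r 3 10) (n (n (r 2 10) (n (q 2) (q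
  38) (q 43)) (q 5)) (q 1) (q 22)) (q 40)) (r 1 4)) (q 19) (q 6)) (q 6))) (r 1 8)) (q 2) (r 1 7))
  (r 2 31) (n (r 1 4) (q 8) (n (r 1 5) (n (q 3) (r 2 34) (n (r 1 7) (q 2) (q 9))) (q 1)))) (q 7))
  (q 5) (r 1 4)) (r 2 28) (n (r 1 10) (q 2) (q 3))) (q 1)))) (q 1)))) (r 1 5)) (r 3 19) (q 22)) (r
  2 19) (n (q 22) (q 2) (q 3))) (q 1)))) (q 1)))) (r 1 8)) (q 2) (r 1 7)) (q 7) (r 6 37)) (r 1 5))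
  (n (r 3 24) (q 7) (q 4)) (r 1 4)) (r 2 7) (r 3 28)) (r 2 25))) (q 6)) (q 1) (r 1 6)) (q 4)) (r 1
  4)) (r 2 7) (r 3 21)) (r 2 18))) (q 5)) (q 1) (r 1 6)) (n (r 1 4) (n (q 5) (n (r 1 6) (q 1) (n
  (r 1 7) (n (q 4) (n (r 1 9) (q 1) (n (r 1 10) (q 3) (r 2 21))) (q 2)) (r 2 18))) (r 3 18)) (r 2
  15))) (r 1 4)) (n (r 1 6) (q 1) (n (r 1 7) (n (n (q 5) (n (r 3 13) (r 2 7) (n (r 1 4) (n (q 4)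
  (n (r 1 6) (q 1) (n (r 1 7) (n (n (n (q 1) (n (n (n (q 1) (n (n (q 3) (q 2) (r 1 10)) (r 2 11)
  (n (r 1 4) (n (n (n (q 1) (n (n (n (q 1) (n (n (q 3) (q 2) (q 6)) (r 2 19) (n (q 6) (q 11) (r 2
  37))) (r 1 8)) (q 2) (r 1 7)) (r 2 16) (q 5)) (r 1 5)) (r 3 18) (r 1 4)) (n (r 1 6) (q 1) (q 8))
  (r 3 32)) (q 17))) (r 1 8)) (q 2) (r 1 7)) (r 2 8) (r 6 33)) (r 1 5)) (n (r 3 20) (r 2 7) (n (r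
  1 4) (n (q 4) (n (r 1 6) (q 1) (n (r 1 7) (q 7) (r 2 28))) (r 3 28)) (r 2 25))) (r 1 4)) (n (r 1
  9) (q 1) (n (r 1 10) (q 3) (r 2 24))) (q 2)) (r 2 21))) (r 3 21)) (r 2 18))) (r 1 4)) (n (r 1 9)
  (q 1) (n (r 1 10) (q 3) (r 2 17))) (q 2)) (q 8))) (q 6)) (q 6))) (r 1 8)) (q 2) (r 1 7)) (n (q
  2) (q 1) (q 8)) (n (r 1 4) (q 8) (n (r 1 5) (q 9) (q 1)))) (q 7)) (q 5) (r 1 4)) (n (q 5) (q 1)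
  (q 2)) (n (r 1 10) (q 2) (q 3))) (q 1)))) (q 1))))

set_option maxRecDepth 100000 in
theorem evenCert_ok : check [] evenCert [L3.b, L3.a] = true := by decide +kernel

end Pool.Agent.Rich3
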