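import Pool.Agent.Rich3.Core

/-! Certificate for the tree of palindromes with odd length. -/

namespace Pool.Agent.Rich3

open Cert in
/-- The certificate (odd case). -/
def oddCert : Cert :=
  (n (n (n (q 1) (q 2) (n (n (n (q 1) (n (n (n (q 1) (n (n (n (q 1) (q 3) (q 8)) (q 2) (q 8)) (n
  (q 2) (q 1) (r 1 9)) (r 1 8)) (q 5)) (n (n (n (q 1) (q 2) (q 8)) (q 2) (q 7)) (n (q 2) (q 1) (r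
  1 8)) (r 1 7)) (q 5)) (n (n (n (q 1) (q 2) (q 7)) (r 3 12) (r 1 7)) (q 1) (r 1 6)) (r 1 5)) (n
  (n (n (q 1) (q 5) (q 3)) (q 5) (q 2)) (r 1 8) (n (q 2) (r 1 9) (q 1)))) (r 1 6) (n (n (n (q 1)
  (q 5) (q 2)) (r 1 8) (q 2)) (r 1 7) (n (q 2) (r 1 8) (q 1)))) (r 1 5) (n (n (n (q 1) (n (n (n (q
  1) (n (n (n (q 1) (q 3) (q 5)) (q 2) (q 9)) (n (q 2) (q 1) (r 1 9)) (q 4)) (n (n (n (q 1) (q 5)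
  (q 7)) (q 9) (q 7)) (q 4) (q 6))) (n (n (n (q 1) (q 2) (q 9)) (q 2) (q 4)) (n (q 2) (q 1) (r 1
  8)) (r 1 7)) (r 1 6)) (n (n (n (q 1) (q 2) (q 4)) (r 3 13) (r 1 7)) (q 1) (r 1 6)) (r 1 5)) (q
  2)) (r 1 7) (n (q 2) (r 1 8) (n (n (n (q 1) (q 6) (q 2)) (r 1 10) (n (q 2) (r 1 11) (q 3))) (r 1
  9) (q 1)))) (r 1 6) (q 1)))) (q 2) (n (n (n (q 1) (r 1 6) (n (n (n (q 1) (q 5) (n (q 3) (r 1 10)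
  (n (q 2) (r 1 11) (q 1)))) (q 4) (q 2)) (q 4) (n (q 2) (r 1 8) (q 1)))) (n (n (n (q 1) (n (n (n
  (q 1) (n (q 3) (n (q 2) (q 1) (r 1 11)) (q 6)) (q 7)) (q 2) (n (q 7) (q 6) (n (q 8) (r 1 5) (q
  1)))) (n (q 2) (q 1) (r 1 8)) (q 6)) (q 4)) (n (n (n (q 1) (q 2) (q 6)) (q 2) (q 6)) (n (q 2) (q
  1) (r 1 7)) (r 1 6)) (q 4)) (n (n (n (q 1) (q 2) (q 6)) (r 3 10) (q 5)) (q 1) (r 1 5)) (r 1 4))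
  (n (n (n (q 1) (q 4) (q 2)) (q 4) (q 2)) (r 1 6) (n (q 2) (r 1 7) (q 1)))) (r 1 4) (n (n (n (q
  1) (r 1 7) (q 2)) (n (n (n (q 1) (n (n (n (q 1) (n (q 3) (n (q 2) (q 1) (r 1 11)) (r 1 10)) (r 1
  9)) (q 2) (q 4)) (n (q 2) (q 1) (r 1 8)) (q 7)) (r 1 6)) (n (n (n (q 1) (q 2) (q 4)) (q 2) (q
  7)) (n (q 2) (q 1) (r 1 7)) (q 3)) (n (n (n (q 1) (q 4) (n (n (n (q 1) (r 1 9) (n (q 3) (r 1 10)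
  (r 2 13))) (n (n (r 2 7) (r 3 17) (n (n (n (q 1) (r 1 6) (n (n (n (q 1) (r 1 9) (n (q 3) (r 1
  10) (r 2 20))) (q 10) (q 2)) (q 6) (r 2 17))) (q 4) (q 6)) (r 1 4) (q 11))) (q 7) (r 1 4)) (q
  2)) (r 1 7) (r 2 10))) (q 7) (q 5)) (q 3) (q 5))) (n (n (n (q 1) (q 2) (q 7)) (r 3 11) (q 3)) (q
  1) (r 1 5)) (r 1 4)) (n (q 2) (r 1 7) (n (n (n (q 1) (q 5) (q 2)) (q 5) (n (q 2) (r 1 10) (q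
  3))) (r 1 8) (q 1)))) (r 1 5) (q 1)))) (n (n (n (q 1) (q 2) (n (n (n (q 1) (n (n (n (q 1) (n (n
  (n (q 1) (q 3) (q 7)) (q 2) (q 7)) (r 2 12) (q 6)) (n (n (n (q 1) (q 7) (n (n (n (q 1) (n (n (q
  6) (r 3 21) (r 1 6)) (r 2 18) (r 1 5)) (q 3)) (q 5) (q 2)) (r 1 8) (n (q 2) (r 1 9) (q 1)))) (q
  7) (n (n (n (q 1) (q 5) (q 2)) (r 1 8) (q 2)) (r 1 7) (n (q 2) (r 1 8) (q 1)))) (q 6) (n (n (n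
  (q 1) (n (q 5) (r 2 16) (r 1 5)) (q 2)) (r 1 7) (n (q 2) (r 1 8) (n (n (n (q 1) (n (n (n (q 1)
  (n (n (n (q 1) (q 3) (n (r 3 22) (q 13) (q 6))) (q 2) (r 1 9)) (r 2 22) (r 1 8)) (n (n (n (q 1)
  (n (n (n (q 1) (n (n (n (q 1) (q 3) (n (n (q 6) (r 1 6) (r 3 21)) (r 1 5) (r 2 18))) (q 2) (q
  5)) (r 2 28) (r 1 8)) (q 7)) (q 13) (q 7)) (q 13) (q 6)) (n (n (n (q 1) (q 7) (q 3)) (q 7) (q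
  2)) (q 6) (r 2 12))) (r 1 6) (r 3 12)) (r 1 5) (n (n (n (q 1) (q 6) (q 2)) (q 6) (n (q 2) (r 1
  8) (n (n (n (q 1) (n (n (q 9) (r 3 32) (q 8)) (r 2 29) (r 1 5)) (q 2)) (r 1 10) (n (q 2) (r 1
  11) (q 3))) (r 1 9) (q 1)))) (r 1 6) (q 1)))) (r 3 22) (r 1 6)) (r 2 19) (r 1 5)) (q 2)) (r 1
  10) (n (q 2) (r 1 11) (q 3))) (r 1 9) (q 1)))) (r 1 6) (q 1)))) (r 3 12) (r 1 6)) (n (n (n (q 1)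
  (q 2) (q 6)) (n (q 2) (n (n (n (q 1) (q 2) (q 10)) (n (q 2) (q 3) (r 1 11)) (q 9)) (q 1) (r 1
  9)) (r 1 8)) (q 6)) (q 1) (r 1 6)) (r 1 5)) (n (n (n (q 1) (n (n (n (q 1) (q 7) (n (n (n (q 1)
  (n (n (q 6) (r 3 21) (q 10)) (r 2 18) (q 9)) (n (n (n (q 1) (q 10) (q 3)) (q 10) (q 2)) (q 9) (n
  (q 2) (r 1 9) (q 1)))) (q 5) (n (n (n (q 1) (q 10) (q 2)) (q 9) (q 2)) (q 9) (n (q 2) (r 1 8) (q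
  1)))) (r 1 5) (n (n (n (q 1) (q 9) (q 2)) (q 9) (n (q 2) (r 1 8) (n (n (n (q 1) (n (q 7) (r 2
  22) (r 1 5)) (q 2)) (r 1 10) (n (q 2) (r 1 11) (q 3))) (r 1 9) (q 1)))) (r 1 6) (q 1)))) (q 7)
  (r 1 6)) (q 6) (r 1 5)) (q 3)) (r 1 9) (q 2)) (r 1 8) (n (q 2) (r 1 9) (q 1)))) (r 1 6) (n (n (n
  (q 1) (n (n (n (q 1) (n (n (n (q 1) (q 3) (q 5)) (q 2) (r 1 9)) (r 2 14) (r 1 8)) (n (n (n (q 1)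
  (q 5) (n (n (n (q 1) (n (n (n (q 1) (n (n (n (q 1) (q 3) (q 6)) (q 2) (q 5)) (q 12) (r 1 8)) (n
  (n (n (q 1) (q 6) (q 8)) (q 5) (n (q 8) (r 1 7) (n (q 2) (r 1 8) (q 1)))) (r 1 5) (n (n (q 8) (r
  1 7) (r 3 21)) (r 1 6) (q 1)))) (r 3 23) (r 1 6)) (r 2 20) (r 1 5)) (q 3)) (q 9) (q 2)) (q 9) (n
  (q 2) (r 1 9) (q 1)))) (r 1 6) (n (n (n (q 1) (q 9) (q 2)) (q 9) (q 2)) (q 8) (n (q 2) (r 1 8)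
  (q 1)))) (r 1 5) (n (n (n (q 1) (q 9) (q 2)) (q 8) (r 3 12)) (q 8) (q 1)))) (q 6) (r 1 6)) (q 6)
  (r 1 5)) (q 2)) (r 1 8) (q 2)) (r 1 7) (n (q 2) (r 1 8) (q 1)))) (r 1 5) (n (n (n (q 1) (n (n (n
  (q 1) (n (n (n (q 1) (q 3) (n (n (n (q 1) (n (n (n (q 1) (n (n (n (q 1) (q 3) (n (n (n (q 1) (n
  (n (n (q 1) (n (n (q 9) (q 2) (q 8)) (r 2 31) (r 1 8)) (q 6)) (q 8) (q 5)) (q 14) (r 1 5)) (n (n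
  (n (q 1) (q 6) (q 3)) (q 5) (q 2)) (r 1 8) (r 2 24))) (r 1 6) (n (n (n (q 1) (q 5) (q 2)) (r 1
  8) (q 2)) (r 1 7) (r 2 23))) (r 1 5) (n (n (n (q 1) (n (q 5) (n (n (n (q 1) (q 2) (q 4)) (n (q
  2) (n (n (n (q 1) (q 2) (n (r 3 23) (q 24) (n (n (n (q 1) (n (n (n (q 1) (n (n (n (q 1) (q 3) (q
  30)) (q 2) (q 29)) (r 2 13) (q 4)) (q 27)) (r 3 13) (q 26)) (n (n (n (q 1) (q 2) (q 4)) (n (q 2)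
  (n (n (n (q 1) (q 2) (n (q 6) (r 1 5) (n (n (q 10) (q 9) (n (q 2) (r 1 8) (n (n (n (q 1) (n (r 3
  35) (q 7) (r 1 5)) (q 2)) (r 1 10) (n (q 2) (r 1 11) (q 3))) (r 1 9) (q 1)))) (r 1 6) (q 1))))
  (n (q 2) (q 3) (r 1 11)) (q 5)) (q 1) (r 1 9)) (r 1 8)) (r 1 7)) (q 1) (r 1 6)) (r 1 5)) (q 2))
  (r 1 7) (n (q 2) (r 1 8) (n (n (n (q 1) (n (r 3 24) (q 7) (r 1 5)) (q 2)) (r 1 10) (n (q 2) (r 1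
  11) (q 3))) (r 1 9) (q 1)))) (r 1 6) (q 1)))) (n (q 2) (q 3) (r 1 11)) (r 1 10)) (q 1) (r 1 9))
  (r 1 8)) (q 16)) (q 1) (r 1 6)) (r 1 5)) (q 2)) (r 1 7) (n (q 2) (r 1 8) (n (n (n (q 1) (n (n (n
  (q 1) (n (q 10) (r 2 35) (r 1 8)) (n (r 3 22) (r 1 5) (n (n (r 6 35) (q 6) (n (q 2) (r 1 8) (n
  (n (n (q 1) (n (n (n (q 1) (n (n (n (q 1) (q 3) (n (n (n (q 1) (n (n (n (q 1) (n (n (n (q 1) (q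
  3) (n (n (n (q 1) (n (n (n (q 1) (n (n (q 9) (q 2) (q 8)) (r 2 63) (r 1 8)) (q 6)) (q 8) (q 5))
  (r 2 60) (q 30)) (n (n (n (q 1) (q 6) (q 3)) (q 5) (q 2)) (q 30) (q 14))) (r 1 6) (r 3 24)) (r 1
  5) (n (n (n (q 1) (q 30) (q 2)) (q 30) (q 13)) (q 29) (q 1)))) (q 2) (r 1 9)) (r 2 54) (r 1 8))
  (r 7 26)) (r 3 54) (q 5)) (r 2 51) (r 1 5)) (q 7)) (r 1 6) (q 7)) (r 1 5) (q 6))) (q 2) (r 1 9))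
  (r 2 45) (r 1 8)) (n (q 9) (r 1 5) (n (n (r 6 45) (q 6) (n (q 2) (r 1 8) (q 10))) (r 1 6) (q
  1)))) (r 3 45) (q 8)) (r 2 42) (r 1 5)) (q 2)) (r 1 10) (n (q 2) (r 1 11) (q 3))) (r 1 9) (q
  1)))) (r 1 6) (q 1)))) (r 3 35) (r 1 6)) (r 2 32) (r 1 5)) (q 2)) (r 1 10) (n (q 2) (r 1 11) (q
  3))) (r 1 9) (q 1)))) (r 1 6) (q 1)))) (q 2) (r 1 9)) (r 2 22) (q 11)) (n (n (q 6) (r 1 6) (n (n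
  (n (q 1) (q 5) (q 2)) (r 1 8) (q 2)) (r 1 7) (r 2 20))) (q 11) (r 2 18))) (r 3 22) (q 5)) (r 2
  19) (r 1 5)) (n (n (n (q 1) (n (n (q 6) (r 3 25) (r 1 6)) (q 11) (r 1 5)) (q 3)) (q 5) (q 2)) (r
  1 8) (r 2 15))) (r 1 6) (n (n (n (q 1) (q 5) (q 2)) (r 1 8) (q 2)) (r 1 7) (r 2 14))) (r 1 5) (q
  8))) (q 2) (r 1 9)) (r 2 13) (q 4)) (n (n (n (q 1) (n (n (n (q 1) (n (n (n (q 1) (q 3) (n (n (q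
  6) (r 1 6) (n (n (n (q 1) (q 5) (q 2)) (r 1 8) (q 2)) (r 1 7) (r 2 20))) (q 11) (r 2 18))) (q 2)
  (q 5)) (r 2 19) (r 1 8)) (n (n (n (q 1) (n (n (q 6) (r 3 25) (q 5)) (q 11) (r 1 5)) (n (n (n (q
  1) (q 6) (q 3)) (q 5) (q 2)) (r 1 8) (r 2 18))) (q 5) (n (n (n (q 1) (q 5) (q 2)) (r 1 8) (q 2))
  (r 1 7) (r 2 17))) (r 1 5) (n (n (n (q 1) (n (q 5) (n (n (n (q 1) (q 2) (q 4)) (n (q 2) (n (n (n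
  (q 1) (q 2) (n (r 3 20) (r 1 5) (n (n (n (q 1) (n (n (n (q 1) (q 21) (q 24)) (r 3 13) (q 23)) (n
  (n (q 21) (n (q 2) (n (n (n (q 1) (q 2) (n (q 6) (r 1 5) (n (n (q 10) (q 9) (n (q 2) (r 1 8) (n
  (n (n (q 1) (n (q 18) (q 7) (r 1 5)) (q 2)) (r 1 10) (n (q 2) (r 1 11) (q 3))) (r 1 9) (q 1))))
  (r 1 6) (q 1)))) (n (q 2) (q 3) (r 1 11)) (q 5)) (q 1) (r 1 9)) (r 1 8)) (r 1 7)) (q 1) (r 1 6))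
  (r 1 5)) (q 2)) (r 1 7) (n (q 2) (r 1 8) (n (n (n (q 1) (n (q 25) (q 7) (r 1 5)) (q 2)) (r 1 10)
  (n (q 2) (r 1 11) (q 3))) (r 1 9) (q 1)))) (r 1 6) (q 1)))) (n (q 2) (q 3) (r 1 11)) (r 1 10))
  (q 1) (r 1 9)) (r 1 8)) (q 13)) (q 1) (r 1 6)) (r 1 5)) (q 2)) (r 1 7) (n (q 2) (r 1 8) (n (n (n
  (q 1) (n (q 7) (r 2 26) (r 1 5)) (q 2)) (r 1 10) (n (q 2) (r 1 11) (q 3))) (r 1 9) (q 1)))) (r 1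
  6) (q 1)))) (r 3 19) (r 1 6)) (r 2 16) (q 8)) (n (n (n (q 1) (n (n (n (q 1) (n (n (n (q 1) (q 3)
  (q 6)) (q 2) (q 5)) (q 11) (r 1 8)) (n (n (n (q 1) (q 6) (n (n (n (q 1) (q 8) (q 3)) (q 8) (q
  2)) (q 7) (r 2 21))) (q 5) (n (n (n (q 1) (q 8) (q 2)) (q 7) (q 2)) (r 1 7) (r 2 20))) (r 1 5)
  (q 7))) (r 3 22) (r 1 6)) (r 2 19) (r 1 5)) (q 3)) (r 1 9) (q 2)) (q 8) (r 2 12))) (r 1 6) (n (n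
  (n (q 1) (n (n (n (q 1) (n (n (n (q 1) (q 3) (q 5)) (q 2) (q 5)) (q 11) (r 1 8)) (n (n (n (q 1)
  (q 5) (n (n (n (q 1) (q 8) (q 3)) (q 7) (q 2)) (q 7) (r 2 20))) (q 5) (q 7)) (r 1 5) (n (q 7) (r
  1 6) (q 1)))) (r 3 21) (r 1 6)) (r 2 18) (r 1 5)) (q 2)) (q 8) (q 2)) (q 8) (r 2 11))) (q 4) (n
  (n (n (q 1) (q 8) (q 2)) (q 8) (n (q 2) (r 1 8) (n (n (n (q 1) (q 6) (q 2)) (r 1 10) (n (q 2) (r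
  1 11) (q 3))) (r 1 9) (q 1)))) (q 7) (q 1)))) (r 3 13) (r 1 6)) (n (n (n (q 1) (q 2) (q 4)) (n
  (q 2) (n (n (n (q 1) (q 2) (q 11)) (n (q 2) (q 3) (r 1 11)) (q 5)) (q 1) (r 1 9)) (r 1 8)) (r 1
  7)) (q 1) (r 1 6)) (r 1 5)) (q 2)) (r 1 7) (n (q 2) (r 1 8) (n (n (n (q 1) (n (n (n (q 1) (n (n
  (n (q 1) (q 3) (n (n (n (q 1) (n (n (n (q 1) (n (n (n (q 1) (q 3) (n (n (n (q 1) (n (n (n (q 1)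
  (n (n (q 9) (q 2) (q 8)) (r 2 34) (r 1 8)) (q 6)) (q 8) (q 5)) (r 2 31) (r 1 5)) (n (n (n (q 1)
  (q 6) (q 3)) (q 5) (q 2)) (r 1 8) (r 2 24))) (r 1 6) (r 3 24)) (r 1 5) (n (n (n (q 1) (n (q 5)
  (r 2 32) (r 1 5)) (q 2)) (r 1 7) (n (q 2) (r 1 8) (n (n (n (q 1) (n (n (n (q 1) (n (q 10) (r 2
  38) (q 19)) (n (r 3 22) (q 19) (n (n (n (q 1) (q 6) (q 2)) (q 6) (n (q 2) (r 1 8) (n (n (n (q 1)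
  (q 13) (q 2)) (r 1 10) (n (q 2) (r 1 11) (q 3))) (r 1 9) (q 1)))) (r 1 6) (q 1)))) (r 3 38) (r 1
  6)) (n (n (n (q 1) (q 2) (q 19)) (n (q 2) (n (n (n (q 1) (q 2) (n (r 3 26) (r 1 5) (n (n (q 8)
  (r 1 7) (n (q 2) (q 30) (n (n (n (q 1) (n (n (n (q 1) (n (n (n (q 1) (q 3) (q 36)) (q 2) (q 35))
  (r 2 16) (r 1 8)) (q 33)) (q 7) (q 32)) (q 7) (r 1 5)) (q 2)) (r 1 10) (n (q 2) (r 1 11) (q 3)))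
  (r 1 9) (q 1)))) (r 1 6) (q 1)))) (n (q 2) (q 3) (r 1 11)) (r 1 10)) (q 1) (r 1 9)) (r 1 8)) (q
  19)) (q 1) (r 1 6)) (r 1 5)) (q 2)) (r 1 10) (n (q 2) (r 1 11) (q 3))) (r 1 9) (q 1)))) (r 1 6)
  (q 1)))) (q 2) (r 1 9)) (r 2 25) (r 1 8)) (n (n (q 6) (r 1 6) (r 3 21)) (r 1 5) (r 2 18))) (r 3
  25) (q 5)) (r 2 22) (r 1 5)) (n (n (n (q 1) (n (n (q 6) (r 3 28) (r 1 6)) (r 2 25) (r 1 5)) (q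
  3)) (q 5) (q 2)) (r 1 8) (r 2 15))) (r 1 6) (r 3 15)) (r 1 5) (q 6))) (q 2) (r 1 9)) (r 2 16) (r
  1 8)) (n (n (n (q 1) (n (n (n (q 1) (n (n (n (q 1) (q 3) (n (n (q 6) (r 1 6) (r 3 21)) (r 1 5)
  (r 2 18))) (q 2) (q 5)) (r 2 22) (r 1 8)) (n (n (n (q 1) (n (n (q 6) (r 3 28) (q 5)) (r 2 25) (r
  1 5)) (n (n (n (q 1) (q 6) (q 3)) (q 5) (q 2)) (r 1 8) (r 2 18))) (q 5) (r 3 18)) (r 1 5) (n (n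
  (n (q 1) (n (q 5) (r 2 26) (r 1 5)) (q 2)) (r 1 7) (n (q 2) (r 1 8) (n (n (n (q 1) (n (q 7) (n
  (n (n (q 1) (q 2) (q 16)) (n (q 2) (n (n (n (q 1) (q 2) (n (r 3 23) (r 1 5) (n (n (n (q 1) (n (r
  3 24) (n (n (n (q 1) (q 2) (q 4)) (n (q 2) (n (n (n (q 1) (q 2) (n (q 6) (r 1 5) (n (n (n (q 1)
  (n (r 3 35) (n (n (n (q 1) (q 2) (q 4)) (n (q 2) (n (q 11) (q 1) (r 1 9)) (r 1 8)) (r 1 7)) (q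
  1) (r 1 6)) (q 19)) (q 2)) (q 9) (n (q 2) (r 1 8) (n (n (n (q 1) (n (q 19) (q 7) (r 1 5)) (q 2))
  (r 1 10) (n (q 2) (r 1 11) (q 3))) (r 1 9) (q 1)))) (r 1 6) (q 1)))) (n (q 2) (q 3) (r 1 11)) (q
  5)) (q 1) (r 1 9)) (r 1 8)) (r 1 7)) (q 1) (r 1 6)) (q 27)) (q 2)) (r 1 7) (n (q 2) (r 1 8) (n
  (n (n (q 1) (n (n (n (q 1) (n (n (q 28) (q 2) (q 29)) (r 2 16) (r 1 8)) (q 30)) (q 7) (q 29)) (q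
  7) (r 1 5)) (q 2)) (r 1 10) (n (q 2) (r 1 11) (q 3))) (r 1 9) (q 1)))) (r 1 6) (q 1)))) (n (q 2)
  (q 3) (r 1 11)) (r 1 10)) (q 1) (r 1 9)) (r 1 8)) (q 16)) (q 1) (r 1 6)) (r 1 5)) (q 2)) (r 1
  10) (n (q 2) (r 1 11) (q 3))) (r 1 9) (q 1)))) (r 1 6) (q 1)))) (r 3 22) (r 1 6)) (r 2 19) (q
  6)) (n (n (n (q 1) (n (n (n (q 1) (n (n (n (q 1) (q 3) (q 6)) (q 2) (q 5)) (r 2 25) (r 1 8)) (n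
  (n (n (q 1) (q 6) (n (n (n (q 1) (q 8) (q 3)) (r 1 9) (q 2)) (q 7) (r 2 21))) (q 5) (r 3 21)) (r
  1 5) (n (n (n (q 1) (q 7) (q 2)) (r 1 7) (n (q 2) (r 1 8) (n (n (n (q 1) (n (q 7) (q 16) (r 1
  5)) (q 2)) (r 1 10) (n (q 2) (r 1 11) (q 3))) (r 1 9) (q 1)))) (r 1 6) (q 1)))) (r 3 25) (r 1
  6)) (r 2 22) (r 1 5)) (q 3)) (r 1 9) (q 2)) (q 6) (r 2 12))) (r 1 6) (r 3 12)) (r 1 5) (n (n (n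
  (q 1) (q 6) (q 2)) (r 1 7) (n (q 2) (r 1 8) (n (n (n (q 1) (q 11) (q 2)) (q 11) (n (q 2) (r 1
  11) (q 3))) (q 10) (q 1)))) (r 1 6) (q 1)))) (q 7) (r 1 6)) (q 7) (r 1 5)) (q 2)) (r 1 10) (n (q
  2) (r 1 11) (q 3))) (r 1 9) (q 1)))) (r 1 6) (q 1)))) (q 3) (n (n (n (q 1) (r 1 6) (n (n (n (q
  1) (r 1 9) (n (q 3) (r 1 10) (n (q 2) (r 1 11) (q 1)))) (n (n (r 2 7) (q 6) (n (n (n (q 1) (r 1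
  6) (n (n (n (q 1) (r 1 9) (n (q 3) (r 1 10) (n (q 2) (r 1 11) (q 1)))) (q 8) (q 2)) (q 8) (n (q
  2) (r 1 8) (q 1)))) (q 4) (n (n (r 2 11) (q 8) (q 2)) (r 1 6) (n (q 2) (r 1 7) (q 1)))) (r 1 4)
  (n (n (r 2 10) (n (q 8) (r 2 15) (r 1 4)) (n (q 2) (r 1 7) (n (n (r 2 13) (n (n (q 6) (r 3 21)
  (n (n (n (q 1) (r 1 6) (n (n (n (q 1) (r 1 9) (n (q 3) (r 1 10) (r 2 13))) (n (n (r 2 7) (q 13)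
  (n (n (n (q 1) (r 1 6) (q 8)) (q 4) (q 8)) (r 1 4) (q 7))) (q 13) (r 1 4)) (q 2)) (q 5) (r 2
  10))) (n (n (r 2 19) (r 3 25) (q 5)) (r 2 22) (q 5)) (r 3 10)) (r 1 4) (n (n (r 2 18) (q 5) (n
  (q 2) (r 1 7) (n (n (r 2 21) (n (q 7) (r 2 26) (q 6)) (n (q 2) (q 6) (q 3))) (r 1 8) (q 1)))) (r
  1 5) (q 1)))) (r 2 18) (r 1 4)) (n (q 2) (r 1 10) (q 3))) (r 1 8) (q 1)))) (r 1 5) (q 1)))) (q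
  5) (r 1 4)) (q 2)) (r 1 7) (n (q 2) (r 1 8) (q 1)))) (n (n (n (q 1) (n (n (n (q 1) (n (q 3) (r 2
  13) (r 1 10)) (r 1 9)) (q 2) (n (n (r 2 7) (n (n (n (q 1) (q 8) (r 1 6)) (q 8) (q 4)) (q 7) (r 1
  4)) (n (n (r 2 9) (q 4) (q 2)) (r 1 6) (n (q 2) (r 1 7) (q 1)))) (r 1 4) (n (n (r 2 8) (n (q 4)
  (r 2 15) (r 1 4)) (n (q 2) (r 1 7) (n (n (r 2 11) (n (n (n (q 1) (n (n (n (q 1) (n (q 3) (r 2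
  24) (r 1 10)) (r 1 9)) (q 2) (n (n (r 2 7) (n (n (n (q 1) (n (n (n (q 1) (n (q 3) (r 2 31) (r 1
  10)) (r 1 9)) (q 2) (q 8)) (r 2 28) (q 8)) (r 1 6)) (q 13) (q 4)) (q 13) (r 1 4)) (q 6)) (r 1 4)
  (q 5))) (r 2 21) (r 1 7)) (r 1 6)) (r 3 21) (n (r 3 18) (r 1 4) (n (n (r 2 16) (q 5) (n (q 2) (r
  1 7) (n (n (r 2 19) (n (n (n (q 1) (n (n (n (q 1) (n (q 3) (r 2 32) (q 16)) (r 1 9)) (q 2) (n (n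
  (r 2 7) (q 16) (r 3 13)) (q 16) (q 5))) (r 2 29) (r 1 7)) (q 7)) (r 3 29) (n (q 7) (r 1 4) (n (n
  (r 2 24) (q 5) (n (q 2) (q 6) (q 8))) (r 1 5) (q 1)))) (r 2 26) (q 6)) (n (q 2) (q 6) (q 3))) (r
  1 8) (q 1)))) (r 1 5) (q 1)))) (r 2 18) (r 1 4)) (n (q 2) (r 1 10) (q 3))) (r 1 8) (q 1)))) (r 1
  5) (q 1)))) (r 2 10) (q 5)) (r 1 6)) (r 3 10) (n (n (n (q 1) (r 1 6) (n (n (n (q 1) (r 1 9) (n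
  (q 3) (r 1 10) (n (q 2) (r 1 11) (q 1)))) (q 4) (q 2)) (r 1 7) (n (q 2) (r 1 8) (q 1)))) (q 5)
  (n (n (n (q 1) (q 4) (q 2)) (n (q 4) (r 2 13) (r 1 4)) (q 2)) (r 1 6) (n (q 2) (r 1 7) (q 1))))
  (q 5) (n (n (n (q 1) (r 1 7) (q 2)) (n (n (n (q 1) (n (n (n (q 1) (n (q 3) (r 2 18) (r 1 10)) (r
  1 9)) (q 2) (q 4)) (r 2 15) (r 1 7)) (r 1 6)) (r 3 15) (n (n (n (q 1) (q 4) (n (n (n (q 1) (r 1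
  9) (n (q 3) (q 6) (r 2 13))) (n (n (r 2 7) (r 3 22) (q 6)) (r 2 19) (r 1 4)) (q 2)) (r 1 7) (r 2
  10))) (n (q 4) (n (n (n (q 1) (q 2) (r 1 7)) (n (q 2) (n (n (n (q 1) (q 2) (r 1 10)) (n (q 2) (q
  3) (r 1 10)) (n (n (n (q 1) (r 1 6) (q 12)) (n (n (n (q 1) (n (n (n (q 1) (n (q 3) (r 2 13) (r 1
  10)) (r 1 9)) (q 2) (n (n (r 2 7) (n (n (n (q 1) (q 8) (r 1 6)) (r 3 17) (q 4)) (q 7) (r 1 4))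
  (n (n (r 2 9) (q 4) (q 2)) (r 1 6) (q 17))) (r 1 4) (q 17))) (r 2 10) (q 5)) (q 9)) (r 3 10) (q
  17)) (n (n (n (q 1) (q 2) (q 5)) (n (q 2) (n (n (n (q 1) (q 2) (q 7)) (n (q 2) (q 3) (q 6)) (n
  (q 7) (q 6) (r 2 23))) (q 1) (r 1 8)) (r 1 7)) (q 5)) (q 1) (r 1 5)) (q 8)) (q 12)) (r 1 4) (r 2
  15))) (q 1) (r 1 8)) (r 1 7)) (n (n (n (q 1) (r 1 6) (n (n (n (q 1) (r 1 9) (n (q 3) (r 1 10) (r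
  2 18))) (q 4) (q 2)) (q 7) (r 2 15))) (n (n (n (q 1) (n (n (n (q 1) (n (q 3) (r 2 13) (q 6)) (r
  1 9)) (q 2) (n (n (r 2 7) (q 6) (n (n (r 2 9) (q 4) (q 2)) (r 1 6) (q 14))) (q 9) (q 7))) (r 2
  10) (q 12)) (q 4)) (r 3 24) (q 7)) (n (n (n (q 1) (q 2) (q 12)) (r 3 25) (q 12)) (q 1) (r 1 5))
  (q 3)) (q 10)) (r 1 4) (q 10))) (q 1) (r 1 5)) (r 1 4)) (n (n (n (q 1) (r 1 8) (q 2)) (n (n (n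
  (q 1) (n (n (n (q 1) (n (q 3) (r 2 24) (r 1 10)) (r 1 9)) (q 2) (q 4)) (r 2 21) (q 4)) (q 6)) (r
  3 21) (n (q 6) (q 10) (q 5))) (r 2 18) (q 5)) (q 2)) (r 1 6) (r 2 9))) (q 3) (n (n (n (q 1) (r 1
  7) (q 2)) (n (n (n (q 1) (n (n (n (q 1) (n (q 3) (r 2 23) (r 1 10)) (r 1 9)) (q 2) (q 4)) (r 2
  20) (q 10)) (r 1 6)) (r 3 20) (q 5)) (r 2 17) (r 1 4)) (n (q 2) (r 1 7) (n (n (n (q 1) (q 5) (q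
  2)) (q 5) (n (q 2) (r 1 10) (q 3))) (r 1 8) (q 1)))) (r 1 5) (q 1)))) (r 2 12) (r 1 4)) (n (q 2)
  (r 1 7) (n (n (n (q 1) (r 1 10) (q 2)) (n (n (n (q 1) (n (n (n (q 1) (n (q 3) (r 2 21) (r 1 10))
  (r 1 9)) (q 2) (n (r 3 18) (q 10) (q 5))) (r 2 18) (r 1 7)) (r 1 6)) (r 3 18) (n (n (n (q 1) (r
  1 6) (n (n (n (q 1) (r 1 9) (n (q 3) (r 1 10) (r 2 13))) (n (n (r 2 7) (r 3 25) (n (n (n (q 1)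
  (r 1 6) (q 8)) (q 4) (r 3 17)) (r 1 4) (q 7))) (r 2 22) (r 1 4)) (q 2)) (q 5) (r 2 10))) (n (n
  (n (q 1) (n (n (n (q 1) (n (q 3) (r 2 25) (r 1 10)) (r 1 9)) (q 2) (q 4)) (r 2 22) (r 1 7)) (r 1
  6)) (q 10) (q 5)) (q 10) (q 5)) (r 3 10)) (r 1 4) (n (n (n (q 1) (q 5) (q 2)) (q 5) (n (q 2) (r
  1 7) (n (n (n (q 1) (q 7) (q 2)) (n (q 7) (r 2 23) (q 6)) (n (q 2) (q 6) (q 3))) (r 1 8) (q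
  1)))) (r 1 5) (q 1)))) (r 2 15) (r 1 4)) (n (q 2) (r 1 10) (q 3))) (r 1 8) (q 1)))) (r 1 5) (q
  1)))) (n (n (n (q 1) (q 2) (q 5)) (n (q 2) (n (n (n (q 1) (q 2) (q 8)) (n (q 2) (q 3) (q 6)) (q
  8)) (q 1) (r 1 8)) (q 6)) (q 5)) (q 1) (r 1 5)) (r 1 4)) (n (n (n (q 1) (r 1 8) (q 2)) (n (n (n
  (q 1) (n (n (n (q 1) (n (q 3) (r 2 15) (r 1 10)) (r 1 9)) (q 2) (q 4)) (r 2 12) (r 1 7)) (r 1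
  6)) (q 5) (n (n (n (q 1) (q 4) (n (n (n (q 1) (r 1 9) (n (q 3) (r 1 10) (n (q 2) (r 1 11) (q
  1)))) (n (n (r 2 7) (r 3 19) (n (n (n (q 1) (r 1 6) (n (n (n (q 1) (q 7) (n (q 3) (r 1 10) (n (q
  2) (r 1 11) (q 1)))) (n (q 7) (q 8) (q 6)) (q 2)) (q 6) (n (q 2) (r 1 8) (q 1)))) (q 4) (q 6))
  (r 1 4) (n (q 6) (r 1 5) (q 1)))) (r 2 16) (r 1 4)) (q 2)) (q 7) (n (q 2) (r 1 8) (q 1)))) (n (q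
  4) (r 2 13) (q 7)) (n (n (n (q 1) (r 1 8) (q 2)) (q 7) (q 2)) (q 7) (n (q 2) (r 1 7) (q 1)))) (r
  1 4) (n (n (n (q 1) (q 7) (q 2)) (q 7) (r 3 10)) (r 1 5) (q 1)))) (q 5) (r 1 4)) (q 2)) (r 1 6)
  (n (q 2) (r 1 7) (q 1)))) (r 1 4) (n (n (n (q 1) (r 1 7) (q 2)) (n (n (n (q 1) (n (n (n (q 1) (n
  (q 3) (r 2 14) (r 1 10)) (r 1 9)) (q 2) (n (n (r 2 7) (n (n (n (q 1) (n (n (n (q 1) (n (q 3) (r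
  2 21) (r 1 10)) (r 1 9)) (q 2) (n (n (r 2 7) (n (n (n (q 1) (n (q 7) (r 2 25) (r 1 7)) (r 1 6))
  (r 3 25) (q 4)) (q 11) (r 1 4)) (n (n (r 2 9) (q 4) (q 2)) (r 1 6) (r 2 19))) (r 1 4) (n (n (r 2
  8) (n (q 4) (n (n (r 2 11) (n (q 2) (n (n (r 2 14) (n (q 2) (q 3) (r 1 10)) (n (q 15) (r 1 4) (n
  (n (r 2 17) (n (n (n (q 1) (n (n (n (q 1) (n (q 3) (r 2 14) (q 24)) (q 24)) (q 2) (q 24)) (r 2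
  11) (r 1 7)) (r 1 6)) (r 3 11) (q 21)) (n (n (r 2 20) (n (q 2) (n (n (r 2 23) (n (q 2) (q 3) (r
  1 10)) (n (q 5) (r 1 4) (n (q 8) (q 7) (q 1)))) (q 1) (q 4)) (r 1 7)) (q 3)) (q 1) (r 1 5)) (r 1
  4)) (n (q 2) (r 1 7) (n (n (r 2 20) (n (r 3 20) (q 6) (r 1 4)) (n (q 2) (r 1 10) (q 3))) (r 1 8)
  (q 1)))) (r 1 5) (q 1)))) (q 1) (r 1 8)) (r 1 7)) (q 3)) (q 1) (r 1 5)) (r 1 4)) (n (q 2) (r 1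
  7) (n (n (r 2 11) (n (n (n (q 1) (q 8) (r 1 6)) (r 3 29) (n (r 3 18) (r 1 4) (n (n (r 2 16) (q
  5) (n (q 2) (r 1 7) (n (n (r 2 19) (n (n (n (q 1) (n (n (n (q 1) (n (q 3) (r 2 40) (r 1 10)) (r
  1 9)) (q 2) (n (n (r 2 7) (n (n (n (q 1) (n (n (n (q 1) (n (q 3) (r 2 47) (r 1 10)) (r 1 9)) (q
  2) (n (n (r 2 7) (n (n (n (q 1) (n (q 7) (r 2 51) (r 1 7)) (r 1 6)) (r 3 51) (q 4)) (r 2 48) (q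
  24)) (r 3 20)) (r 1 4) (n (n (r 2 8) (q 24) (q 11)) (q 24) (q 1)))) (r 2 44) (r 1 7)) (r 1 6))
  (r 3 44) (q 4)) (r 2 41) (r 1 4)) (r 3 13)) (r 1 4) (q 5))) (r 2 37) (r 1 7)) (q 7)) (r 3 37) (n
  (q 7) (r 1 4) (n (n (r 2 24) (q 5) (n (q 2) (q 6) (q 8))) (r 1 5) (q 1)))) (r 2 34) (q 6)) (n (q
  2) (q 6) (q 3))) (r 1 8) (q 1)))) (r 1 5) (q 1)))) (r 2 26) (r 1 4)) (n (q 2) (r 1 10) (q 3)))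
  (r 1 8) (q 1)))) (r 1 5) (q 1)))) (r 2 18) (q 9)) (r 1 6)) (r 3 18) (q 4)) (r 2 15) (r 1 4)) (n
  (n (r 2 9) (q 4) (q 2)) (r 1 6) (r 2 12))) (r 1 4) (n (n (r 2 8) (n (q 4) (q 8) (r 1 4)) (n (q
  2) (r 1 7) (n (n (r 2 11) (q 5) (n (q 2) (r 1 10) (q 3))) (r 1 8) (q 1)))) (r 1 5) (q 1)))) (r 2
  11) (r 1 7)) (r 1 6)) (r 3 11) (n (n (n (q 1) (r 1 6) (n (n (n (q 1) (r 1 9) (n (q 3) (r 1 10)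
  (r 2 13))) (n (n (r 2 7) (r 3 18) (n (n (n (q 1) (r 1 6) (n (n (n (q 1) (r 1 9) (n (q 3) (r 1
  10) (r 2 20))) (n (n (r 2 7) (r 3 25) (n (n (q 7) (q 4) (n (q 7) (q 13) (r 2 23))) (r 1 4) (n (n
  (q 7) (q 13) (n (q 2) (r 1 7) (n (n (r 2 13) (n (n (q 6) (r 3 33) (n (q 8) (r 1 4) (n (n (r 2
  18) (q 5) (n (q 2) (r 1 7) (n (n (r 2 21) (n (q 7) (r 2 38) (q 6)) (n (q 2) (q 6) (q 3))) (r 1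
  8) (q 1)))) (r 1 5) (q 1)))) (r 2 30) (r 1 4)) (n (q 2) (r 1 10) (q 3))) (r 1 8) (q 1)))) (q 13)
  (q 1)))) (q 11) (q 6)) (q 2)) (q 6) (r 2 17))) (q 4) (n (n (r 2 11) (q 6) (q 2)) (r 1 6) (r 2
  16))) (r 1 4) (n (n (r 2 10) (n (q 6) (q 10) (r 1 4)) (n (q 2) (r 1 7) (n (n (r 2 13) (n (n (q
  6) (r 3 26) (q 7)) (r 2 23) (r 1 4)) (n (q 2) (r 1 10) (q 3))) (r 1 8) (q 1)))) (r 1 5) (q 1))))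
  (r 2 15) (r 1 4)) (q 2)) (r 1 7) (r 2 10))) (n (n (n (q 1) (n (n (n (q 1) (n (q 3) (r 2 18) (r 1
  10)) (r 1 9)) (q 2) (q 4)) (r 2 15) (r 1 7)) (r 1 6)) (r 3 15) (n (n (n (q 1) (q 4) (n (n (n (q
  1) (r 1 9) (n (q 3) (q 6) (r 2 17))) (q 4) (q 2)) (q 4) (r 2 14))) (n (q 4) (q 8) (r 1 4)) (n (n
  (n (q 1) (q 4) (q 2)) (q 4) (q 2)) (r 1 6) (r 2 13))) (r 1 4) (n (n (n (q 1) (q 4) (q 2)) (n (q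
  4) (n (n (n (q 1) (q 2) (q 7)) (n (q 2) (n (n (n (q 1) (q 2) (q 12)) (n (q 2) (q 3) (r 1 10)) (n
  (q 12) (r 1 4) (n (n (q 7) (n (n (n (q 1) (n (q 17) (r 2 11) (q 18)) (q 18)) (q 16) (q 18)) (n
  (q 16) (q 1) (r 1 5)) (r 1 4)) (n (q 2) (r 1 7) (n (n (n (q 1) (r 1 10) (q 2)) (q 19) (n (q 2)
  (r 1 10) (q 3))) (r 1 8) (q 1)))) (r 1 5) (q 1)))) (q 1) (r 1 8)) (r 1 7)) (q 3)) (q 1) (r 1 5))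
  (r 1 4)) (n (q 2) (r 1 7) (n (n (n (q 1) (r 1 10) (q 2)) (q 5) (n (q 2) (r 1 10) (q 3))) (r 1 8)
  (q 1)))) (r 1 5) (q 1)))) (r 2 12) (q 6)) (n (n (n (q 1) (r 1 8) (q 2)) (n (n (n (q 1) (n (n (n
  (q 1) (n (q 3) (r 2 20) (r 1 10)) (r 1 9)) (q 2) (q 4)) (r 2 17) (q 4)) (r 1 6)) (r 3 17) (n (n
  (n (q 1) (q 4) (n (n (n (q 1) (r 1 9) (n (q 3) (q 6) (r 2 19))) (q 6) (q 2)) (r 1 7) (r 2 16)))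
  (q 4) (n (n (n (q 1) (q 6) (q 2)) (n (q 6) (q 7) (r 1 4)) (q 2)) (q 5) (r 2 15))) (r 1 4) (q
  5))) (r 2 14) (r 1 4)) (q 2)) (q 6) (r 2 9))) (q 3) (n (n (n (q 1) (r 1 7) (q 2)) (q 6) (n (q 2)
  (r 1 7) (n (n (n (q 1) (q 5) (q 2)) (n (q 5) (r 2 16) (r 1 4)) (n (q 2) (r 1 10) (q 3))) (r 1 8)
  (q 1)))) (q 6) (q 1)))) (n (n (n (q 1) (q 2) (r 1 7)) (n (q 2) (n (n (n (q 1) (q 2) (q 5)) (n (q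
  2) (q 3) (r 1 10)) (q 9)) (q 1) (q 4)) (r 1 7)) (q 3)) (q 1) (r 1 5)) (r 1 4)) (n (q 2) (r 1 7)
  (n (n (n (q 1) (r 1 10) (q 2)) (n (n (n (q 1) (n (n (n (q 1) (n (q 3) (r 2 17) (r 1 10)) (r 1
  9)) (q 2) (n (n (r 2 7) (n (n (n (q 1) (n (n (n (q 1) (n (q 3) (r 2 24) (r 1 10)) (r 1 9)) (q 2)
  (n (n (r 2 7) (n (n (n (q 1) (n (q 7) (r 2 28) (r 1 7)) (r 1 6)) (r 3 28) (q 4)) (r 2 25) (r 1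
  4)) (r 3 20)) (r 1 4) (n (n (r 2 8) (n (q 4) (r 2 26) (r 1 4)) (n (q 2) (r 1 7) (n (n (r 2 11)
  (n (n (n (q 1) (q 8) (r 1 6)) (r 3 32) (n (r 3 18) (q 16) (n (n (r 2 16) (q 5) (n (q 2) (r 1 7)
  (n (n (r 2 19) (n (q 11) (r 2 37) (q 6)) (n (q 2) (q 6) (q 3))) (r 1 8) (q 1)))) (r 1 5) (q
  1)))) (n (n (q 8) (n (q 2) (n (n (r 2 17) (n (q 2) (q 3) (r 1 10)) (n (q 18) (r 1 4) (n (n (q 7)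
  (n (r 3 20) (n (n (r 2 23) (n (q 2) (n (n (r 2 26) (n (q 2) (q 3) (r 1 10)) (n (q 5) (r 1 4) (n
  (n (r 2 29) (n (q 8) (n (n (r 2 32) (n (q 2) (q 9) (r 1 7)) (q 3)) (q 1) (r 1 5)) (r 1 4)) (n (q
  2) (r 1 7) (n (n (r 2 32) (n (n (q 17) (q 6) (n (r 3 39) (r 1 4) (n (n (r 2 37) (r 6 23) (n (q
  2) (r 1 7) (n (n (r 2 40) (n (n (r 2 42) (r 3 22) (n (r 3 47) (r 1 4) (n (n (r 2 45) (q 5) (n (q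
  2) (q 6) (n (q 8) (r 1 8) (q 1)))) (r 1 5) (q 1)))) (n (n (r 2 43) (q 12) (n (r 3 48) (r 1 4) (n
  (q 5) (r 1 5) (q 1)))) (q 1) (r 1 5)) (q 6)) (n (q 2) (q 6) (q 3))) (r 1 8) (q 1)))) (r 1 5) (q
  1)))) (q 6) (r 1 4)) (n (q 2) (r 1 10) (q 3))) (r 1 8) (q 1)))) (q 7) (q 1)))) (q 1) (q 4)) (r 1
  7)) (q 3)) (q 1) (r 1 5)) (r 1 4)) (n (q 2) (r 1 7) (n (n (r 2 23) (n (n (n (q 1) (n (n (n (q 1)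
  (n (q 3) (r 2 17) (q 30)) (q 30)) (q 2) (q 30)) (r 2 14) (r 1 7)) (r 1 6)) (q 6) (q 27)) (q 6)
  (r 1 4)) (n (q 2) (r 1 10) (q 3))) (r 1 8) (q 1)))) (r 1 5) (q 1)))) (q 1) (r 1 8)) (r 1 7)) (q
  16)) (q 1) (r 1 5)) (r 1 4)) (n (q 2) (r 1 10) (q 3))) (r 1 8) (q 1)))) (r 1 5) (q 1)))) (r 2
  21) (r 1 7)) (r 1 6)) (r 3 21) (q 4)) (r 2 18) (r 1 4)) (r 3 13)) (r 1 4) (q 5))) (r 2 14) (r 1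
  7)) (r 1 6)) (q 6) (n (n (n (q 1) (r 1 6) (n (n (n (q 1) (r 1 9) (n (q 3) (r 1 10) (r 2 13))) (n
  (n (r 2 7) (r 3 21) (n (n (n (q 1) (r 1 6) (n (n (n (q 1) (r 1 9) (n (q 3) (r 1 10) (r 2 20)))
  (n (n (r 2 7) (r 3 28) (n (n (q 7) (q 4) (r 3 24)) (r 1 4) (n (n (q 7) (n (n (q 7) (r 3 33) (n
  (q 6) (q 3) (q 16))) (r 2 30) (r 1 4)) (n (q 2) (r 1 7) (n (n (r 2 13) (q 16) (n (q 2) (r 1 10)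
  (q 3))) (q 16) (q 1)))) (q 14) (q 1)))) (r 2 25) (q 6)) (q 2)) (q 6) (r 2 17))) (q 4) (r 3 17))
  (r 1 4) (n (n (r 2 10) (n (q 6) (r 2 23) (r 1 4)) (n (q 2) (r 1 7) (n (n (r 2 13) (n (n (q 6) (q
  14) (q 7)) (q 13) (r 1 4)) (n (q 2) (r 1 10) (q 3))) (r 1 8) (q 1)))) (r 1 5) (q 1)))) (r 2 18)
  (r 1 4)) (q 2)) (q 5) (r 2 10))) (n (n (n (q 1) (n (n (n (q 1) (n (q 3) (r 2 21) (r 1 10)) (r 1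
  9)) (q 2) (q 4)) (r 2 18) (r 1 7)) (r 1 6)) (r 3 18) (q 5)) (r 2 15) (r 1 4)) (r 3 10)) (r 1 4)
  (n (n (n (q 1) (q 5) (q 2)) (n (q 5) (r 2 16) (r 1 4)) (n (q 2) (r 1 7) (n (n (n (q 1) (r 1 10)
  (q 2)) (q 9) (n (q 2) (q 6) (q 3))) (q 9) (q 1)))) (r 1 5) (q 1)))) (q 6) (r 1 4)) (n (q 2) (r 1
  10) (q 3))) (r 1 8) (q 1)))) (r 1 5) (q 1)))) (q 1) (n (r 1 5) (n (r 1 6) (n (n (n (q 1) (n (n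
  (n (q 1) (n (n (q 3) (q 2) (r 1 11)) (n (q 2) (q 1) (n (r 1 5) (q 7) (n (r 1 6) (n (r 1 7) (n (n
  (n (q 1) (q 6) (r 1 6)) (r 3 20) (r 1 5)) (q 1) (q 2)) (n (r 1 8) (q 2) (n (r 1 9) (n (r 1 10)
  (n (n (n (q 1) (n (n (n (q 1) (n (n (q 3) (q 2) (r 1 11)) (n (q 2) (q 1) (n (r 1 5) (n (r 1 6)
  (n (n (n (q 1) (n (n (n (q 1) (n (n (q 3) (q 2) (r 1 11)) (n (q 2) (q 1) (q 11)) (q 11)) (q 10))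
  (q 2) (r 1 8)) (n (q 2) (q 1) (q 6)) (r 1 7)) (r 1 6)) (n (r 3 12) (n (n (r 2 12) (n (q 2) (n (q
  3) (q 1) (n (r 1 5) (n (r 1 6) (n (n (n (q 1) (n (n (n (q 1) (n (n (q 3) (q 2) (r 1 11)) (n (q
  2) (q 1) (n (r 1 5) (q 7) (q 16))) (r 1 10)) (r 1 9)) (q 2) (r 1 8)) (n (q 2) (q 1) (q 7)) (r 1
  7)) (r 1 6)) (n (r 3 21) (n (n (r 2 21) (n (q 2) (n (q 3) (q 1) (q 8)) (r 1 9)) (q 7)) (q 1) (q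
  6)) (q 5)) (r 1 5)) (q 1) (n (r 1 8) (n (q 5) (n (q 6) (q 1) (q 3)) (q 2)) (r 2 25))) (r 3 25))
  (r 2 22))) (r 1 9)) (q 6)) (q 1) (n (q 6) (n (r 1 6) (n (n (n (q 1) (n (n (n (q 1) (n (n (q 3)
  (q 2) (r 1 11)) (n (q 2) (q 1) (n (r 1 5) (q 7) (n (r 1 6) (q 30) (q 1)))) (q 28)) (r 1 9)) (q
  2) (r 1 8)) (n (q 2) (q 1) (n (r 1 5) (q 5) (r 2 26))) (r 1 7)) (r 1 6)) (n (r 3 18) (n (n (r 2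
  18) (n (q 2) (n (q 3) (q 1) (q 6)) (q 5)) (r 1 8)) (q 1) (n (r 1 5) (n (q 5) (q 6) (r 3 28)) (r
  2 25))) (q 5)) (r 1 5)) (q 1) (n (r 1 8) (n (q 5) (n (n (r 2 18) (n (r 3 21) (q 6) (r 1 6)) (r 1
  5)) (q 1) (q 3)) (q 2)) (r 2 22))) (r 3 22)) (r 2 19))) (r 1 6)) (r 1 5)) (q 1) (n (r 1 8) (n (r
  1 9) (n (n (q 6) (r 3 36) (r 1 5)) (q 1) (q 3)) (q 2)) (r 2 16))) (q 7)) (q 7))) (r 1 10)) (r 1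
  9)) (q 2) (r 1 8)) (n (q 2) (q 1) (n (r 1 5) (r 3 24) (n (r 1 6) (n (r 1 7) (n (q 4) (q 1) (q
  2)) (n (r 1 8) (q 2) (n (r 1 9) (n (q 5) (n (n (n (q 1) (n (n (n (q 1) (n (n (q 3) (q 2) (r 1
  11)) (n (q 2) (q 1) (n (r 1 5) (q 19) (q 7))) (r 1 10)) (r 1 9)) (q 2) (r 1 8)) (n (q 2) (q 1)
  (n (q 19) (r 3 35) (n (r 1 6) (n (r 1 7) (n (q 4) (q 1) (q 2)) (n (r 1 8) (q 2) (n (r 1 9) (q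
  11) (q 1)))) (q 1)))) (q 9)) (r 1 6)) (q 6) (r 1 5)) (q 1) (q 2)) (n (r 1 11) (q 2) (q 3))) (q
  1)))) (q 1)))) (r 1 7)) (r 1 6)) (r 3 23) (r 1 5)) (q 1) (q 2)) (n (r 1 11) (q 2) (q 3))) (q
  1)))) (q 1)))) (r 1 10)) (r 1 9)) (q 2) (r 1 8)) (n (q 2) (q 1) (n (r 1 5) (q 5) (n (r 1 6) (n
  (r 1 7) (n (q 4) (q 1) (q 2)) (n (r 1 8) (q 2) (n (r 1 9) (n (r 1 10) (n (n (n (q 1) (n (n (n (q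
  1) (n (n (q 3) (q 2) (r 1 11)) (n (q 2) (q 1) (n (r 1 5) (r 3 24) (q 7))) (r 1 10)) (r 1 9)) (q
  2) (r 1 8)) (n (q 2) (q 1) (n (r 1 5) (n (r 1 6) (n (n (n (q 1) (n (n (n (q 1) (n (n (q 3) (q 2)
  (r 1 11)) (n (q 2) (q 1) (q 6)) (r 1 10)) (r 1 9)) (q 2) (r 1 8)) (n (q 2) (q 1) (q 8)) (q 8))
  (q 7)) (n (n (r 2 11) (n (q 2) (n (q 2) (q 1) (n (r 1 5) (n (r 1 6) (n (n (n (q 1) (q 7) (r 1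
  6)) (n (q 7) (r 5 37) (q 5)) (q 22)) (q 1) (n (r 1 8) (n (q 5) (n (q 5) (q 1) (q 3)) (q 2)) (q
  11))) (r 3 21)) (r 2 18))) (q 8)) (q 8)) (n (n (r 2 12) (n (q 2) (n (q 3) (q 1) (n (r 1 5) (n (r
  1 6) (n (n (q 7) (n (n (r 2 20) (n (q 2) (n (q 2) (q 1) (q 8)) (q 7)) (r 1 7)) (n (n (r 2 21) (n
  (q 2) (n (q 3) (q 1) (q 8)) (q 8)) (q 7)) (q 1) (q 6)) (q 5)) (r 1 5)) (q 1) (n (r 1 8) (n (q 5)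
  (n (q 6) (q 1) (q 3)) (q 2)) (q 11))) (r 3 22)) (r 2 19))) (r 1 9)) (q 8)) (q 1) (n (q 8) (n (r
  1 6) (n (n (n (q 1) (n (n (n (q 1) (n (n (q 3) (q 2) (r 1 11)) (n (q 2) (q 1) (n (r 1 5) (q 7)
  (r 2 26))) (r 1 10)) (r 1 9)) (q 2) (r 1 8)) (n (q 2) (q 1) (n (r 1 5) (q 5) (n (r 1 6) (q 24)
  (q 1)))) (q 22)) (r 1 6)) (n (n (r 2 17) (n (q 2) (n (q 2) (q 1) (q 5)) (r 1 8)) (q 22)) (n (n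
  (r 2 18) (n (q 2) (n (q 3) (q 1) (q 6)) (q 5)) (r 1 8)) (q 1) (n (r 1 5) (n (q 5) (q 6) (r 3
  25)) (q 11))) (q 5)) (r 1 5)) (q 1) (n (r 1 8) (n (q 5) (n (n (r 2 18) (n (n (r 2 20) (n (q 2)
  (n (q 2) (q 1) (q 5)) (q 25)) (r 1 7)) (q 6) (r 1 6)) (q 11)) (q 1) (q 3)) (q 2)) (r 2 19))) (r
  3 19)) (r 2 16))) (r 1 6)) (q 4)) (q 1) (n (q 4) (n (r 1 9) (n (n (q 8) (r 3 30) (r 1 5)) (q 1)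
  (q 3)) (q 2)) (r 2 13))) (r 3 13)) (n (r 1 6) (n (r 1 7) (n (q 4) (q 1) (q 2)) (n (r 1 8) (q 2)
  (n (r 1 9) (n (q 5) (n (n (n (q 1) (n (n (n (q 1) (n (n (q 3) (q 2) (r 1 11)) (n (q 2) (q 1) (n
  (r 1 5) (q 18) (q 7))) (r 1 10)) (r 1 9)) (q 2) (r 1 8)) (q 10) (q 9)) (r 1 6)) (q 6) (r 1 5))
  (q 1) (q 2)) (n (r 1 11) (q 2) (q 3))) (q 1)))) (q 1)))) (r 1 7)) (r 1 6)) (r 3 20) (r 1 5)) (q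
  1) (q 2)) (n (r 1 11) (q 2) (q 3))) (q 1)))) (q 1)))) (r 1 7)) (r 1 6)) (n (n (n (q 1) (q 2) (r
  1 8)) (n (q 2) (n (q 2) (q 1) (q 5)) (r 1 8)) (r 1 7)) (n (n (n (q 1) (q 2) (r 1 9)) (n (q 2) (n
  (q 3) (q 1) (q 6)) (q 5)) (r 1 8)) (q 1) (q 6)) (q 5)) (r 1 5)) (q 1) (n (r 1 8) (n (r 1 9) (n
  (n (n (q 1) (n (n (n (q 1) (n (n (q 3) (q 2) (r 1 11)) (n (q 2) (q 1) (n (r 1 5) (n (r 1 6) (n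
  (n (n (q 1) (n (n (n (q 1) (n (n (q 3) (q 2) (r 1 11)) (n (q 2) (q 1) (q 13)) (r 1 10)) (r 1 9))
  (q 2) (r 1 8)) (n (q 2) (q 1) (q 6)) (q 6)) (r 1 6)) (r 3 22) (r 1 5)) (q 1) (n (r 1 8) (q 10)
  (n (r 1 9) (q 2) (q 1)))) (n (r 1 7) (n (r 1 8) (q 10) (q 2)) (n (r 1 8) (q 2) (q 1)))) (n (r 1
  6) (n (r 1 7) (n (n (n (q 1) (q 6) (r 1 6)) (r 3 23) (r 1 5)) (q 1) (q 2)) (n (r 1 8) (q 2) (n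
  (r 1 9) (n (r 1 10) (n (n (n (q 1) (n (n (n (q 1) (n (n (q 3) (q 2) (r 1 11)) (n (q 2) (q 1) (n
  (r 1 5) (n (r 1 6) (n (n (n (q 1) (n (n (n (q 1) (n (n (q 3) (q 2) (r 1 11)) (n (q 2) (q 1) (q
  11)) (q 11)) (q 10)) (q 2) (r 1 8)) (n (q 2) (q 1) (q 6)) (r 1 7)) (r 1 6)) (r 3 36) (r 1 5)) (q
  1) (n (r 1 8) (n (r 1 9) (n (n (q 6) (n (r 3 15) (n (n (r 2 15) (n (q 2) (n (q 3) (q 1) (n (r 1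
  5) (n (r 1 6) (q 6) (r 3 28)) (r 2 25))) (q 5)) (r 1 8)) (q 1) (n (r 1 5) (n (q 5) (n (n (r 2
  18) (n (r 3 21) (q 6) (r 1 6)) (r 1 5)) (q 1) (n (r 1 8) (n (r 1 9) (n (n (n (q 1) (n (n (n (q
  1) (n (n (q 3) (q 2) (r 1 11)) (n (q 2) (q 1) (n (r 1 5) (q 35) (n (r 1 6) (q 36) (q 1)))) (q
  34)) (r 1 9)) (q 2) (r 1 8)) (n (q 2) (q 1) (n (r 1 5) (q 5) (r 2 32))) (r 1 7)) (r 1 6)) (n (r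
  3 24) (n (n (r 2 24) (n (q 2) (n (q 3) (q 1) (q 6)) (q 5)) (r 1 8)) (q 1) (n (r 1 5) (n (q 5) (n
  (q 6) (q 1) (n (r 1 8) (n (q 8) (q 9) (q 2)) (r 2 34))) (q 8)) (r 2 31))) (r 1 6)) (r 1 5)) (q
  1) (q 3)) (q 2)) (r 2 25))) (r 3 25)) (r 2 22))) (r 1 6)) (r 1 5)) (q 1) (q 3)) (q 2)) (r 2
  16))) (q 7)) (q 7))) (r 1 10)) (r 1 9)) (q 2) (r 1 8)) (q 8) (r 1 7)) (r 1 6)) (r 3 26) (r 1 5))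
  (q 1) (q 2)) (n (r 1 11) (q 2) (q 3))) (q 1)))) (q 1)))) (r 1 10)) (r 1 9)) (q 2) (r 1 8)) (n (q
  2) (q 1) (n (r 1 5) (q 5) (n (r 1 6) (n (r 1 7) (n (q 4) (q 1) (q 2)) (n (r 1 8) (q 2) (n (r 1
  9) (n (r 1 10) (n (n (n (q 1) (n (n (n (q 1) (n (n (q 3) (q 2) (r 1 11)) (n (q 2) (q 1) (n (r 1
  5) (r 3 24) (q 7))) (r 1 10)) (r 1 9)) (q 2) (r 1 8)) (n (q 2) (q 1) (n (r 1 5) (n (r 1 6) (n (n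
  (n (q 1) (n (n (n (q 1) (n (n (q 3) (q 2) (r 1 11)) (n (q 2) (q 1) (q 6)) (r 1 10)) (r 1 9)) (q
  2) (r 1 8)) (n (q 2) (q 1) (q 8)) (q 8)) (q 7)) (r 3 30) (q 4)) (q 1) (n (q 4) (n (r 1 9) (n (n
  (q 8) (n (n (r 2 14) (n (q 2) (n (q 2) (q 1) (q 5)) (r 1 8)) (r 1 7)) (n (n (r 2 15) (n (q 2) (n
  (q 3) (q 1) (n (r 1 5) (n (r 1 6) (q 6) (r 3 25)) (q 11))) (q 5)) (r 1 8)) (q 1) (n (r 1 5) (n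
  (q 5) (n (n (r 2 18) (n (n (r 2 20) (n (q 2) (q 27) (r 1 8)) (r 1 7)) (q 6) (r 1 6)) (q 11)) (q
  1) (n (q 11) (n (r 1 9) (n (n (n (q 1) (n (n (n (q 1) (n (n (q 3) (q 2) (r 1 11)) (n (q 2) (q 1)
  (n (r 1 5) (n (r 1 6) (n (n (n (q 1) (n (n (n (q 1) (n (n (q 3) (q 2) (r 1 11)) (n (q 2) (q 1)
  (n (r 1 5) (n (q 8) (n (n (n (q 1) (n (n (q 10) (q 2) (r 1 8)) (r 6 45) (q 6)) (r 1 6)) (q 9) (r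
  1 5)) (q 1) (n (r 1 8) (n (r 1 9) (n (n (q 6) (n (q 7) (n (q 7) (q 1) (n (r 1 5) (n (q 5) (n (r
  7 26) (q 1) (n (r 1 8) (n (r 1 9) (n (n (n (q 1) (n (q 13) (n (q 2) (q 1) (n (r 1 5) (q 5) (n (r
  1 6) (n (r 1 7) (n (q 4) (q 1) (q 2)) (q 34)) (q 1)))) (r 1 7)) (r 1 6)) (n (r 3 24) (n (n (q
  14) (n (q 2) (n (q 3) (q 1) (q 6)) (q 5)) (r 1 8)) (q 1) (n (r 1 5) (n (q 5) (n (q 6) (q 1) (n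
  (r 1 8) (n (q 8) (q 9) (q 2)) (r 2 63))) (q 8)) (r 2 60))) (r 1 6)) (r 1 5)) (q 1) (q 3)) (q 2))
  (r 2 54))) (r 3 54)) (r 2 51))) (r 1 6)) (r 1 5)) (q 1) (q 3)) (q 2)) (r 2 45))) (r 3 45)) (r 2
  42))) (r 1 10)) (r 1 9)) (q 2) (r 1 8)) (r 6 35) (q 6)) (r 1 6)) (r 3 22) (r 1 5)) (q 1) (n (r 1
  8) (q 10) (q 27))) (r 3 35)) (r 2 32))) (r 1 10)) (r 1 9)) (q 2) (r 1 8)) (n (q 2) (q 1) (n (r 1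
  5) (q 5) (n (q 22) (q 30) (q 1)))) (q 28)) (r 1 6)) (n (n (r 2 23) (n (q 2) (n (q 2) (q 1) (q
  5)) (r 1 8)) (q 28)) (n (n (r 2 24) (n (q 2) (n (q 3) (q 1) (q 6)) (q 5)) (r 1 8)) (q 1) (n (r 1
  5) (n (q 5) (n (q 6) (q 1) (n (q 31) (n (q 8) (q 9) (q 2)) (r 2 31))) (q 8)) (q 14))) (r 1 6))
  (r 1 5)) (q 1) (q 3)) (q 2)) (r 2 22))) (r 3 22)) (r 2 19))) (r 1 6)) (r 1 5)) (q 1) (q 3)) (q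
  2)) (r 2 13))) (r 3 13)) (n (r 1 6) (n (r 1 7) (n (q 4) (q 1) (q 2)) (n (r 1 8) (q 2) (n (r 1 9)
  (n (q 5) (n (n (n (q 1) (n (n (n (q 1) (n (n (q 3) (q 2) (r 1 11)) (n (q 2) (q 1) (n (r 1 5) (r
  3 35) (q 7))) (r 1 10)) (r 1 9)) (q 2) (r 1 8)) (q 10) (q 9)) (r 1 6)) (q 6) (r 1 5)) (q 1) (q
  2)) (n (r 1 11) (q 2) (q 3))) (q 1)))) (q 1)))) (r 1 7)) (r 1 6)) (r 3 23) (r 1 5)) (q 1) (q 2))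
  (n (r 1 11) (q 2) (q 3))) (q 1)))) (q 1)))) (r 1 7)) (r 1 6)) (n (n (n (q 1) (q 2) (r 1 8)) (n
  (q 2) (n (q 2) (q 1) (q 5)) (r 1 8)) (r 1 7)) (n (n (n (q 1) (q 2) (r 1 9)) (n (q 2) (n (q 3) (q
  1) (q 6)) (q 5)) (r 1 8)) (q 1) (n (r 1 5) (q 9) (n (r 1 6) (q 8) (q 1)))) (r 1 6)) (q 7)) (q 1)
  (q 3)) (q 2)) (n (r 1 9) (q 2) (q 1)))) (n (r 1 7) (n (r 1 8) (n (n (n (q 1) (n (n (n (q 1) (n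
  (n (q 3) (q 2) (r 1 11)) (n (q 2) (q 1) (n (r 1 5) (n (r 1 6) (n (n (n (q 1) (n (n (n (q 1) (n
  (n (q 3) (q 2) (r 1 11)) (n (q 2) (q 1) (n (r 1 5) (n (q 8) (q 13) (n (r 1 7) (n (r 1 8) (n (n
  (q 6) (n (q 6) (n (q 7) (q 1) (n (q 23) (n (q 17) (q 18) (n (r 1 7) (n (r 1 8) (n (n (n (q 1) (n
  (n (n (q 1) (n (n (q 3) (q 2) (r 1 11)) (n (q 2) (q 1) (q 30)) (q 29)) (r 1 9)) (q 2) (r 1 8))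
  (n (q 2) (q 1) (q 26)) (q 26)) (r 1 6)) (n (r 3 22) (n (n (q 13) (n (q 2) (n (q 3) (q 1) (q 5))
  (q 5)) (q 26)) (q 1) (n (q 26) (n (q 5) (r 5 31) (n (r 1 7) (n (q 7) (q 8) (q 2)) (n (r 1 8) (q
  2) (q 1)))) (q 7))) (r 1 6)) (r 1 5)) (q 1) (q 2)) (q 2)) (n (r 1 8) (q 2) (q 1)))) (n (r 1 6)
  (n (r 1 7) (n (n (r 2 18) (n (r 3 21) (n (n (r 2 21) (n (q 2) (n (q 3) (q 1) (q 5)) (q 26)) (q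
  4)) (q 1) (n (q 4) (n (q 26) (r 5 30) (q 7)) (n (r 1 6) (q 7) (q 1)))) (r 1 6)) (r 1 5)) (q 1)
  (q 2)) (r 3 12)) (q 1)))) (q 17)) (r 1 5)) (q 1) (q 2)) (q 2)) (n (r 1 8) (q 2) (q 1)))) (n (r 1
  6) (n (r 1 7) (n (n (n (q 1) (q 6) (r 1 6)) (r 3 32) (r 1 5)) (q 1) (q 2)) (r 3 26)) (q 1)))) (q
  12)) (r 1 9)) (q 2) (r 1 8)) (n (q 2) (q 1) (q 6)) (q 6)) (r 1 6)) (r 3 21) (r 1 5)) (q 1) (q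
  9)) (n (r 1 7) (q 9) (n (r 1 8) (q 2) (q 1)))) (n (r 1 6) (n (r 1 7) (q 9) (r 3 16)) (q 1)))) (r
  1 10)) (r 1 9)) (q 2) (r 1 8)) (n (q 2) (q 1) (n (r 1 5) (q 5) (n (r 1 6) (n (r 1 7) (q 7) (r 3
  13)) (q 1)))) (r 1 7)) (r 1 6)) (n (n (n (q 1) (q 2) (r 1 8)) (n (q 2) (n (q 2) (q 1) (q 5)) (r
  1 8)) (r 1 7)) (n (n (n (q 1) (q 2) (r 1 9)) (n (q 2) (n (q 3) (q 1) (q 5)) (q 5)) (r 1 8)) (q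
  1) (n (r 1 5) (q 8) (q 7))) (q 7)) (r 1 5)) (q 1) (q 2)) (q 2)) (n (r 1 8) (q 2) (q 1)))) (n (r
  1 6) (n (r 1 7) (n (n (n (q 1) (n (n (n (q 1) (n (n (q 3) (q 2) (r 1 11)) (n (q 2) (q 1) (n (r 1
  5) (n (r 1 6) (n (n (n (q 1) (n (n (n (q 1) (n (n (q 3) (q 2) (r 1 11)) (n (q 2) (q 1) (n (r 1
  5) (q 12) (n (r 1 6) (n (r 1 7) (n (n (n (q 1) (q 6) (r 1 6)) (n (q 6) (n (n (r 2 13) (n (q 2)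
  (n (q 3) (q 1) (q 17)) (q 16)) (q 4)) (q 1) (n (q 4) (r 3 20) (n (r 1 6) (n (r 1 7) (n (n (n (q
  1) (n (n (n (q 1) (n (n (q 3) (q 2) (r 1 11)) (n (q 2) (q 1) (q 28)) (q 27)) (r 1 9)) (q 2) (r 1
  8)) (n (q 2) (q 1) (q 4)) (q 24)) (r 1 6)) (n (r 3 20) (n (n (q 12) (n (q 2) (n (q 3) (q 1) (q
  5)) (q 25)) (q 4)) (q 1) (n (q 4) (r 3 27) (n (r 1 6) (n (q 6) (q 7) (n (r 1 8) (q 2) (n (r 1 9)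
  (n (r 1 10) (n (q 6) (q 1) (q 2)) (n (r 1 11) (q 2) (q 3))) (q 1)))) (q 1)))) (r 1 6)) (r 1 5))
  (q 1) (q 2)) (n (r 1 8) (q 2) (n (r 1 9) (n (r 1 10) (n (q 6) (q 1) (q 2)) (n (r 1 11) (q 2) (q
  3))) (q 1)))) (q 1)))) (q 16)) (r 1 5)) (q 1) (q 2)) (n (r 1 8) (q 2) (n (r 1 9) (n (r 1 10) (n
  (n (n (q 1) (n (n (n (q 1) (q 11) (r 1 9)) (q 2) (r 1 8)) (n (q 2) (q 1) (n (r 1 5) (r 3 24) (n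
  (r 1 6) (n (r 1 7) (r 6 38) (n (r 1 8) (q 2) (n (r 1 9) (n (q 5) (n (n (n (q 1) (n (n (n (q 1)
  (n (n (q 3) (q 2) (r 1 11)) (n (q 2) (q 1) (n (r 1 5) (n (r 1 6) (n (n (n (q 1) (q 23) (r 1 6))
  (r 3 55) (r 1 5)) (q 1) (q 8)) (q 7)) (q 7))) (r 1 10)) (r 1 9)) (q 2) (r 1 8)) (n (q 2) (q 1)
  (n (r 1 5) (r 3 35) (n (r 1 6) (n (r 1 7) (r 6 49) (n (r 1 8) (q 2) (n (r 1 9) (q 11) (q 1))))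
  (q 1)))) (q 9)) (r 1 6)) (q 6) (r 1 5)) (q 1) (q 2)) (n (r 1 11) (q 2) (q 3))) (q 1)))) (q 1))))
  (r 1 7)) (r 1 6)) (r 3 34) (r 1 5)) (q 1) (q 2)) (n (r 1 11) (q 2) (q 3))) (q 1)))) (q 1)))) (r
  1 10)) (q 11)) (q 2) (q 11)) (n (q 2) (q 1) (q 6)) (q 10)) (r 1 6)) (r 3 20) (r 1 5)) (q 1) (n
  (r 1 8) (n (q 10) (n (n (q 6) (r 3 23) (r 1 5)) (q 1) (q 3)) (q 2)) (r 2 16))) (q 8)) (n (r 1 6)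
  (q 8) (q 1)))) (r 1 10)) (r 1 9)) (q 2) (r 1 8)) (n (q 2) (q 1) (q 4)) (r 1 7)) (r 1 6)) (n (n
  (n (q 1) (q 2) (r 1 8)) (n (q 2) (n (q 2) (q 1) (n (r 1 5) (q 5) (q 6))) (q 4)) (r 1 7)) (n (n
  (n (q 1) (q 2) (r 1 9)) (n (q 2) (n (q 3) (q 1) (q 5)) (r 1 9)) (q 4)) (q 1) (q 7)) (r 1 6)) (r
  1 5)) (q 1) (q 2)) (n (r 1 8) (q 2) (n (r 1 9) (n (r 1 10) (n (n (n (q 1) (n (n (n (q 1) (n (n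
  (q 3) (q 2) (r 1 11)) (n (q 2) (q 1) (n (r 1 5) (n (r 1 6) (n (n (n (q 1) (n (n (n (q 1) (n (n
  (q 3) (q 2) (r 1 11)) (n (q 2) (q 1) (n (r 1 5) (n (r 1 6) (n (n (n (q 1) (n (n (n (q 1) (n (n
  (q 3) (q 2) (r 1 11)) (q 10) (q 9)) (r 1 9)) (q 2) (r 1 8)) (n (q 2) (q 1) (q 6)) (q 6)) (r 1
  6)) (r 3 33) (r 1 5)) (q 1) (n (r 1 8) (n (r 1 9) (n (n (q 6) (r 3 36) (r 1 5)) (q 1) (q 3)) (q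
  2)) (q 15))) (r 3 26)) (n (r 1 6) (n (r 1 7) (n (n (n (q 1) (q 6) (r 1 6)) (r 3 34) (r 1 5)) (q
  1) (q 2)) (n (r 1 8) (q 2) (n (r 1 9) (n (r 1 10) (n (n (n (q 1) (n (n (n (q 1) (q 11) (r 1 9))
  (q 2) (r 1 8)) (n (q 2) (q 1) (n (r 1 5) (q 19) (n (r 1 6) (n (r 1 7) (n (q 4) (q 1) (q 2)) (n
  (r 1 8) (q 2) (n (r 1 9) (n (q 5) (n (n (n (q 1) (n (n (n (q 1) (n (n (q 3) (q 2) (r 1 11)) (n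
  (q 2) (q 1) (n (r 1 5) (q 19) (q 7))) (r 1 10)) (r 1 9)) (q 2) (r 1 8)) (q 15) (q 9)) (r 1 6))
  (q 6) (r 1 5)) (q 1) (q 2)) (n (r 1 11) (q 2) (q 3))) (q 1)))) (q 1)))) (r 1 7)) (r 1 6)) (n (r
  3 16) (n (n (r 2 16) (n (q 2) (n (q 3) (q 1) (q 20)) (q 19)) (r 1 8)) (q 1) (n (r 1 5) (r 3 23)
  (n (r 1 6) (n (r 1 7) (n (q 6) (q 1) (q 2)) (n (r 1 8) (q 2) (n (r 1 9) (n (r 1 10) (n (n (n (q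
  1) (n (n (n (q 1) (n (n (q 3) (q 2) (r 1 11)) (n (q 2) (q 1) (q 34)) (q 33)) (r 1 9)) (q 2) (r 1
  8)) (n (q 2) (q 1) (q 30)) (q 30)) (r 1 6)) (n (r 3 26) (n (n (q 15) (n (q 2) (n (q 3) (q 1) (q
  31)) (q 31)) (q 30)) (q 1) (n (q 30) (r 3 33) (n (r 1 6) (n (q 6) (n (q 6) (q 1) (q 2)) (n (r 1
  8) (q 2) (n (r 1 9) (n (q 9) (q 10) (n (r 1 11) (q 2) (q 3))) (q 1)))) (q 1)))) (r 1 6)) (r 1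
  5)) (q 1) (q 2)) (n (r 1 11) (q 2) (q 3))) (q 1)))) (q 1)))) (q 19)) (r 1 5)) (q 1) (q 2)) (n (r
  1 11) (q 2) (q 3))) (q 1)))) (q 1)))) (r 1 10)) (r 1 9)) (q 2) (r 1 8)) (n (q 2) (q 1) (q 6)) (r
  1 7)) (r 1 6)) (r 3 23) (r 1 5)) (q 1) (n (r 1 8) (n (r 1 9) (n (n (q 6) (r 3 26) (r 1 5)) (q 1)
  (q 3)) (q 2)) (r 2 16))) (r 3 16)) (n (r 1 6) (n (r 1 7) (n (n (n (q 1) (n (n (n (q 1) (n (n (q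
  3) (q 2) (r 1 11)) (n (q 2) (q 1) (n (r 1 5) (q 6) (n (r 1 6) (n (q 9) (q 15) (n (q 18) (q 2) (n
  (r 1 9) (n (r 1 10) (n (n (q 7) (n (q 7) (n (q 8) (q 1) (n (q 18) (n (r 1 6) (n (n (r 2 19) (n
  (r 3 22) (n (n (r 2 22) (n (q 2) (n (q 3) (q 1) (n (r 1 5) (n (r 1 6) (q 6) (r 3 21)) (r 2 18)))
  (q 5)) (r 1 8)) (q 1) (n (r 1 5) (n (q 5) (n (n (r 2 25) (n (r 3 28) (q 6) (q 5)) (r 1 5)) (q 1)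
  (n (r 1 8) (n (q 5) (n (q 6) (q 1) (q 3)) (q 2)) (r 2 18))) (r 3 18)) (n (r 1 6) (n (r 1 7) (r 6
  33) (n (r 1 8) (q 2) (n (r 1 9) (n (r 1 10) (n (n (n (q 1) (n (n (q 19) (q 2) (r 1 8)) (n (q 2)
  (q 1) (n (r 1 5) (r 3 20) (n (r 1 6) (q 6) (q 1)))) (r 1 7)) (r 1 6)) (q 7) (r 1 5)) (q 1) (q
  2)) (n (r 1 11) (q 2) (q 3))) (q 1)))) (q 1)))) (r 1 6)) (q 6)) (q 1) (q 21)) (r 3 12)) (n (q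
  27) (n (q 20) (q 21) (n (r 1 8) (q 2) (n (r 1 9) (n (r 1 10) (n (n (n (q 1) (n (n (n (q 1) (n (n
  (q 3) (q 2) (r 1 11)) (n (q 2) (q 1) (q 35)) (r 1 10)) (r 1 9)) (q 2) (q 16)) (n (q 2) (q 1) (n
  (r 1 5) (n (q 17) (n (n (n (q 1) (n (q 19) (n (q 2) (q 1) (n (q 21) (n (q 21) (n (n (n (q 1) (n
  (r 3 41) (q 7) (q 6)) (r 1 6)) (r 3 27) (q 4)) (q 1) (n (q 4) (n (r 1 9) (n (q 5) (q 1) (q 3))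
  (q 2)) (q 12))) (r 3 20)) (n (r 1 6) (n (q 21) (r 6 45) (n (q 13) (q 2) (n (q 22) (n (r 1 10) (n
  (q 23) (q 1) (q 2)) (n (q 24) (q 2) (q 3))) (q 1)))) (q 1)))) (r 1 7)) (r 1 6)) (r 3 20) (q 4))
  (q 1) (q 32)) (q 6)) (q 31))) (r 1 7)) (r 1 6)) (n (r 3 26) (n (n (q 15) (n (q 2) (n (q 3) (q 1)
  (n (r 1 5) (n (r 1 6) (n (n (r 2 32) (n (r 3 35) (n (n (r 2 35) (n (q 2) (n (q 3) (q 1) (n (r 1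
  5) (n (r 1 6) (n (n (r 2 41) (n (q 8) (n (n (r 2 44) (n (q 2) (q 9) (q 8)) (r 1 8)) (q 1) (q 6))
  (q 5)) (r 1 5)) (q 1) (n (r 1 8) (n (q 5) (n (q 6) (q 1) (q 3)) (q 2)) (r 2 24))) (r 3 24)) (n
  (r 1 6) (n (r 1 7) (r 6 49) (q 13)) (q 1)))) (r 1 9)) (r 1 8)) (q 1) (r 7 26)) (q 5)) (r 1 5))
  (q 1) (q 7)) (q 7)) (q 6))) (r 1 9)) (r 1 8)) (q 1) (n (r 1 5) (n (r 1 6) (n (n (r 2 29) (n (r 3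
  32) (n (n (r 2 32) (n (q 2) (n (q 3) (q 1) (n (r 1 5) (n (r 1 6) (q 6) (r 3 21)) (r 2 18))) (q
  5)) (r 1 8)) (q 1) (q 7)) (q 7)) (q 6)) (q 1) (n (q 6) (n (q 7) (n (q 7) (q 1) (q 3)) (q 2)) (r
  2 12))) (r 3 12)) (n (q 31) (n (q 6) (r 6 37) (n (r 1 8) (q 2) (n (r 1 9) (n (q 9) (q 10) (n (r
  1 11) (q 2) (q 3))) (q 1)))) (q 1)))) (r 1 6)) (r 1 5)) (q 1) (q 2)) (n (r 1 11) (q 2) (q 3)))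
  (q 1)))) (q 1)))) (r 1 6)) (r 1 5)) (q 1) (q 2)) (n (r 1 11) (q 2) (q 3))) (q 1)))) (q 1)))) (q
  5)) (r 1 9)) (q 2) (r 1 8)) (n (q 2) (q 1) (q 4)) (r 1 7)) (r 1 6)) (r 3 24) (r 1 5)) (q 1) (q
  2)) (n (r 1 8) (q 2) (n (r 1 9) (q 11) (q 1)))) (q 1)))) (r 1 10)) (r 1 9)) (q 2) (r 1 8)) (n (q
  2) (q 1) (n (r 1 5) (n (r 1 6) (n (n (n (q 1) (n (n (n (q 1) (n (n (q 3) (q 2) (r 1 11)) (n (q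
  2) (q 1) (q 6)) (r 1 10)) (r 1 9)) (q 2) (r 1 8)) (n (q 2) (q 1) (n (r 1 5) (n (r 1 6) (n (n (n
  (q 1) (n (n (n (q 1) (n (n (q 3) (q 2) (r 1 11)) (n (q 2) (q 1) (q 6)) (r 1 10)) (r 1 9)) (q 2)
  (r 1 8)) (q 7) (q 6)) (r 1 6)) (r 3 27) (q 4)) (q 1) (n (q 4) (n (r 1 9) (n (q 5) (q 1) (q 3))
  (q 2)) (q 12))) (r 3 20)) (n (r 1 6) (n (r 1 7) (n (q 4) (q 1) (q 2)) (n (r 1 8) (q 2) (n (r 1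
  9) (n (r 1 10) (n (n (n (q 1) (q 8) (r 1 6)) (n (q 8) (n (n (r 2 16) (n (q 2) (n (q 3) (q 1) (q
  17)) (q 10)) (r 1 8)) (q 1) (n (r 1 5) (r 3 20) (n (r 1 6) (n (q 10) (n (q 6) (q 1) (q 2)) (n (q
  11) (q 2) (n (q 11) (n (r 1 10) (n (n (n (q 1) (n (n (n (q 1) (n (n (q 3) (q 2) (r 1 11)) (n (q
  2) (q 1) (q 27)) (r 1 10)) (r 1 9)) (q 2) (r 1 8)) (n (q 2) (q 1) (q 28)) (q 27)) (r 1 6)) (q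
  12) (q 25)) (q 1) (q 2)) (n (r 1 11) (q 2) (q 3))) (q 1)))) (q 1)))) (q 16)) (r 1 5)) (q 1) (q
  2)) (n (r 1 11) (q 2) (q 3))) (q 1)))) (q 1)))) (r 1 7)) (r 1 6)) (r 3 20) (q 4)) (q 1) (n (q 4)
  (n (r 1 9) (n (n (n (q 1) (n (n (n (q 1) (n (n (q 3) (q 2) (r 1 11)) (n (q 2) (q 1) (q 6)) (r 1
  10)) (r 1 9)) (q 2) (r 1 8)) (n (q 2) (q 1) (n (r 1 5) (q 5) (q 12))) (r 1 7)) (r 1 6)) (r 3 23)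
  (r 1 5)) (q 1) (q 3)) (q 2)) (r 2 13))) (q 6)) (n (r 1 6) (q 6) (q 1)))) (r 1 7)) (r 1 6)) (n (n
  (n (q 1) (q 2) (r 1 8)) (n (q 2) (n (q 2) (q 1) (n (r 1 5) (n (r 1 6) (n (n (n (q 1) (n (r 3 12)
  (n (q 2) (q 1) (n (r 1 5) (n (r 1 6) (n (n (n (q 1) (q 7) (r 1 6)) (n (q 7) (r 5 30) (r 1 6)) (q
  4)) (q 1) (n (q 4) (n (r 1 9) (n (q 5) (q 1) (q 3)) (q 2)) (r 2 21))) (r 3 21)) (r 2 18))) (r 1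
  7)) (r 1 6)) (n (n (n (q 1) (q 2) (r 1 8)) (n (q 2) (n (q 2) (q 1) (n (r 1 5) (n (r 1 6) (n (n
  (q 7) (n (n (n (q 1) (q 2) (r 1 8)) (n (q 2) (q 8) (q 7)) (r 1 7)) (r 5 31) (q 5)) (r 1 5)) (q
  1) (n (r 1 8) (n (q 5) (n (q 5) (q 1) (q 3)) (q 2)) (q 13))) (r 3 22)) (n (r 1 6) (n (r 1 7) (n
  (n (n (q 1) (n (r 3 13) (q 7) (r 1 7)) (r 1 6)) (q 5) (r 1 5)) (q 1) (q 2)) (n (r 1 8) (q 2) (n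
  (r 1 9) (n (r 1 10) (n (n (n (q 1) (n (r 3 16) (q 9) (r 1 7)) (r 1 6)) (n (n (n (q 1) (q 2) (r 1
  8)) (q 9) (r 1 7)) (n (q 9) (q 1) (n (r 1 5) (q 18) (n (r 1 6) (n (q 6) (n (q 6) (q 1) (q 2)) (n
  (r 1 8) (q 2) (n (r 1 9) (n (q 12) (n (n (n (q 1) (n (r 3 26) (n (q 2) (q 1) (q 29)) (r 1 7)) (r
  1 6)) (n (n (n (q 1) (q 2) (r 1 8)) (n (q 2) (n (q 2) (q 1) (q 30)) (q 29)) (r 1 7)) (q 13) (q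
  8)) (r 1 5)) (q 1) (q 2)) (n (r 1 11) (q 2) (q 3))) (q 1)))) (q 1)))) (q 17)) (r 1 5)) (q 1) (q
  2)) (n (r 1 11) (q 2) (q 3))) (q 1)))) (q 1)))) (r 1 8)) (r 1 7)) (r 5 23) (r 1 6)) (r 1 5)) (q
  1) (q 7)) (q 6)) (q 6))) (r 1 8)) (r 1 7)) (n (n (n (q 1) (q 2) (r 1 9)) (n (q 2) (n (q 3) (q 1)
  (n (r 1 5) (n (r 1 6) (n (n (n (q 1) (n (n (n (q 1) (n (n (q 3) (q 2) (r 1 11)) (n (q 2) (q 1)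
  (n (r 1 5) (q 7) (r 2 22))) (r 1 10)) (r 1 9)) (q 2) (r 1 8)) (n (q 2) (q 1) (n (r 1 5) (n (r 1
  6) (n (n (q 7) (n (n (r 2 11) (n (q 2) (q 8) (q 7)) (r 1 7)) (n (n (r 2 12) (q 8) (q 7)) (q 1)
  (q 5)) (r 1 6)) (q 4)) (q 1) (n (q 4) (n (r 1 9) (n (q 5) (q 1) (q 3)) (q 2)) (q 13))) (r 3 22))
  (r 2 19))) (r 1 7)) (r 1 6)) (n (n (n (q 1) (q 2) (r 1 8)) (n (q 2) (n (q 2) (q 1) (n (r 1 5) (n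
  (r 1 6) (n (n (n (q 1) (n (r 3 12) (q 8) (r 1 7)) (r 1 6)) (n (n (n (q 1) (q 2) (r 1 8)) (q 8)
  (r 1 7)) (n (q 8) (q 1) (q 5)) (q 5)) (r 1 5)) (q 1) (n (r 1 8) (n (q 5) (n (q 5) (q 1) (q 3))
  (q 2)) (q 13))) (r 3 23)) (r 2 20))) (r 1 8)) (r 1 7)) (n (n (n (q 1) (q 2) (r 1 9)) (n (q 2) (n
  (q 3) (q 1) (n (r 1 5) (n (r 1 6) (n (n (n (q 1) (q 8) (r 1 6)) (n (q 8) (n (n (n (q 1) (q 2) (r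
  1 9)) (n (q 2) (q 9) (q 8)) (r 1 8)) (q 1) (q 6)) (q 5)) (r 1 5)) (q 1) (n (r 1 8) (n (q 5) (n
  (q 6) (q 1) (q 3)) (q 2)) (q 14))) (r 3 24)) (n (r 1 6) (n (r 1 7) (n (n (n (q 1) (n (n (n (q 1)
  (n (n (q 3) (q 2) (r 1 11)) (n (q 2) (q 1) (n (r 1 5) (r 3 23) (n (r 1 6) (n (r 1 7) (n (n (n (q
  1) (n (n (n (q 1) (n (n (q 3) (q 2) (r 1 11)) (n (q 2) (q 1) (n (r 1 5) (q 6) (n (r 1 6) (n (q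
  9) (q 10) (r 3 47)) (q 1)))) (q 5)) (r 1 9)) (q 2) (r 1 8)) (n (q 2) (q 1) (q 4)) (r 1 7)) (r 1
  6)) (n (r 3 13) (n (n (r 2 13) (n (q 2) (n (q 3) (q 1) (n (r 1 5) (n (r 1 6) (n (n (r 2 19) (n
  (r 3 22) (n (n (r 2 22) (n (q 2) (n (q 3) (q 1) (n (r 1 5) (n (r 1 6) (n (n (q 14) (n (q 8) (n
  (n (r 2 31) (n (q 2) (q 9) (q 8)) (r 1 8)) (q 1) (q 6)) (q 5)) (r 1 5)) (q 1) (n (r 1 8) (n (q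
  5) (n (q 6) (q 1) (q 3)) (q 2)) (r 2 24))) (r 3 54)) (n (r 1 6) (n (r 1 7) (n (n (n (q 1) (n (n
  (n (q 1) (n (n (q 3) (q 2) (r 1 11)) (n (q 2) (q 1) (n (r 1 5) (r 3 23) (n (r 1 6) (n (r 1 7) (q
  34) (r 3 66)) (q 1)))) (r 1 10)) (r 1 9)) (q 2) (r 1 8)) (n (q 2) (q 1) (q 4)) (q 16)) (r 1 6))
  (q 5) (r 1 5)) (q 1) (q 2)) (n (r 1 8) (q 2) (n (r 1 9) (q 30) (q 1)))) (q 1)))) (r 1 9)) (q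
  11)) (q 1) (r 7 56)) (q 5)) (r 1 5)) (q 1) (n (r 1 8) (n (q 5) (n (n (q 11) (n (r 3 25) (q 6) (r
  1 6)) (r 1 5)) (q 1) (q 3)) (q 2)) (r 2 15))) (r 3 45)) (q 8))) (r 1 9)) (q 4)) (q 1) (r 7 47))
  (r 1 6)) (r 1 5)) (q 1) (q 2)) (r 3 36)) (q 1)))) (r 1 10)) (r 1 9)) (q 2) (r 1 8)) (n (q 2) (q
  1) (q 4)) (r 1 7)) (r 1 6)) (q 5) (r 1 5)) (q 1) (q 2)) (q 13)) (q 1)))) (r 1 9)) (r 1 8)) (q 1)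
  (r 7 26)) (q 5)) (r 1 5)) (q 1) (q 7)) (q 7)) (q 6))) (r 1 9)) (r 1 8)) (q 1) (n (r 1 5) (q 9)
  (n (r 1 6) (q 10) (q 1)))) (q 8)) (r 1 5)) (q 1) (q 2)) (n (r 1 11) (q 2) (q 3))) (q 1)))) (q
  1)))) (n (r 1 4) (n (n (n (q 1) (n (n (n (q 1) (n (n (q 3) (q 2) (r 1 10)) (n (q 2) (q 1) (r 1
  10)) (q 5)) (r 1 8)) (q 2) (r 1 7)) (n (q 2) (q 1) (q 4)) (n (r 1 4) (q 4) (n (r 1 5) (n (q 3)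
  (n (q 7) (q 1) (q 2)) (n (r 1 7) (q 2) (n (r 1 8) (n (n (n (q 1) (n (n (n (q 1) (n (n (q 3) (q
  2) (r 1 10)) (n (q 2) (q 1) (r 1 10)) (n (r 1 4) (r 3 20) (q 6))) (r 1 8)) (q 2) (r 1 7)) (q 7)
  (n (r 1 4) (n (n (n (q 1) (n (n (n (q 1) (n (n (q 3) (q 2) (r 1 10)) (n (q 2) (q 1) (q 5)) (n (r
  1 4) (q 5) (r 2 16))) (r 1 8)) (q 2) (r 1 7)) (n (q 2) (q 1) (r 1 7)) (q 6)) (q 6)) (n (n (r 2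
  9) (n (q 2) (n (q 2) (q 1) (r 1 8)) (n (r 1 4) (n (n (q 5) (n (n (r 2 15) (n (q 2) (n (q 2) (q
  1) (q 6)) (n (r 1 4) (q 6) (q 7))) (q 5)) (n (n (r 2 16) (n (q 2) (n (n (r 2 19) (q 3) (q 6)) (q
  1) (r 1 9)) (q 6)) (r 1 7)) (q 1) (q 4)) (q 4)) (r 1 4)) (n (r 1 6) (q 1) (n (q 4) (n (q 4) (n
  (r 1 9) (q 1) (n (r 1 10) (q 3) (r 2 20))) (q 2)) (r 2 17))) (r 3 17)) (r 2 14))) (q 6)) (n (n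
  (q 15) (n (q 2) (n (n (r 2 13) (q 3) (r 1 10)) (q 1) (r 1 9)) (n (r 1 4) (n (n (n (q 1) (n (n (n
  (q 1) (n (n (q 3) (q 2) (r 1 10)) (r 2 13) (n (r 1 4) (n (q 7) (q 6) (r 3 26)) (r 2 23))) (r 1
  8)) (q 2) (r 1 7)) (r 2 10) (n (r 1 4) (q 6) (q 10))) (r 1 5)) (n (n (r 2 16) (n (q 2) (r 2 11)
  (q 6)) (r 1 6)) (n (n (r 2 17) (n (q 2) (n (n (r 2 20) (q 3) (r 1 10)) (q 1) (r 1 9)) (n (q 6)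
  (n (n (n (q 1) (n (n (n (q 1) (n (n (q 3) (q 2) (r 1 10)) (r 2 13) (n (r 1 4) (n (n (n (q 1) (n
  (n (n (q 1) (n (n (q 3) (q 2) (q 6)) (r 2 21) (n (q 6) (q 7) (r 2 38))) (r 1 8)) (q 2) (r 1 7))
  (r 2 18) (q 5)) (r 1 5)) (q 8) (r 1 4)) (q 6) (r 3 33)) (r 2 30))) (r 1 8)) (q 2) (r 1 7)) (q 7)
  (n (r 1 4) (n (n (n (q 1) (n (n (n (q 1) (n (n (q 3) (q 2) (r 1 10)) (r 2 18) (q 5)) (r 1 8)) (q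
  2) (r 1 7)) (q 6) (n (r 1 4) (n (q 5) (q 6) (r 3 35)) (q 16))) (r 1 5)) (q 6) (q 3)) (q 7) (r 3
  30)) (n (r 1 5) (n (q 3) (r 2 13) (n (r 1 7) (q 2) (q 19))) (q 1)))) (r 1 5)) (n (n (r 2 23) (q
  7) (r 1 6)) (q 7) (q 4)) (r 1 4)) (r 2 7) (r 3 25)) (q 11))) (q 6)) (q 1) (r 1 6)) (q 4)) (r 1
  4)) (r 2 7) (r 3 18)) (r 2 15))) (r 1 7)) (q 1) (r 1 6)) (n (q 6) (n (n (n (q 1) (n (n (n (q 1)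
  (n (n (q 3) (q 2) (r 1 10)) (n (q 2) (q 1) (r 1 10)) (q 5)) (r 1 8)) (q 2) (r 1 7)) (n (q 2) (q
  1) (q 4)) (n (r 1 4) (q 4) (n (r 1 5) (q 18) (q 1)))) (q 16)) (n (n (r 2 13) (n (q 2) (n (q 2)
  (q 1) (q 4)) (q 4)) (r 1 6)) (n (n (r 2 14) (n (q 2) (n (n (r 2 17) (q 3) (q 6)) (q 1) (r 1 9))
  (q 4)) (q 4)) (q 1) (q 4)) (n (r 1 4) (q 4) (q 8))) (r 1 4)) (n (r 1 6) (q 1) (n (r 1 7) (n (q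
  4) (n (r 1 9) (q 1) (n (r 1 10) (q 3) (r 2 18))) (q 2)) (r 2 15))) (r 3 15)) (r 2 12))) (q 3))
  (n (r 1 6) (q 1) (n (r 1 7) (n (n (n (q 1) (n (n (n (q 1) (n (n (q 3) (q 2) (r 1 10)) (r 2 11)
  (q 5)) (r 1 8)) (q 2) (r 1 7)) (r 2 8) (n (r 1 4) (q 4) (q 8))) (r 1 5)) (r 3 24) (r 1 4)) (n (r
  1 9) (q 1) (n (r 1 10) (q 3) (r 2 14))) (q 2)) (r 2 11))) (r 3 11)) (n (r 1 5) (n (q 3) (n (r 1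
  7) (q 1) (q 2)) (n (r 1 7) (q 2) (n (q 4) (n (n (n (q 1) (q 8) (q 7)) (q 5) (r 1 4)) (n (q 5) (q
  1) (q 2)) (n (r 1 10) (q 2) (q 3))) (q 1)))) (q 1)))) (r 1 5)) (r 3 16) (r 1 4)) (n (r 1 10) (q
  1) (q 2)) (n (r 1 10) (q 2) (q 3))) (q 1)))) (q 1)))) (r 1 5)) (n (n (n (q 1) (q 2) (r 1 7)) (n
  (q 2) (n (q 2) (q 1) (q 4)) (q 4)) (r 1 6)) (n (n (n (q 1) (q 2) (r 1 8)) (n (q 2) (n (n (n (q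
  1) (q 2) (r 1 11)) (q 3) (r 1 10)) (q 1) (r 1 9)) (q 4)) (q 4)) (q 1) (q 4)) (q 4)) (r 1 4)) (n
  (r 1 6) (q 1) (n (r 1 7) (n (n (n (q 1) (n (n (n (q 1) (n (n (q 3) (q 2) (r 1 10)) (r 2 11) (n
  (r 1 4) (n (n (n (q 1) (n (n (n (q 1) (n (n (q 3) (q 2) (q 6)) (r 2 19) (n (q 6) (q 11) (n (r 1
  5) (n (n (n (q 1) (q 5) (r 1 5)) (r 3 27) (r 1 4)) (r 2 22) (n (r 1 7) (q 2) (n (r 1 8) (n (n (n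
  (q 1) (n (n (q 9) (q 2) (r 1 7)) (r 2 28) (n (r 1 4) (r 3 20) (n (r 1 5) (n (q 3) (r 2 31) (n (r
  1 7) (q 2) (n (q 4) (n (n (n (q 1) (n (n (n (q 1) (n (n (q 3) (q 2) (r 1 10)) (r 2 40) (n (r 1
  4) (n (n (n (q 1) (n (n (n (q 1) (n (n (q 3) (q 2) (q 6)) (r 2 48) (n (q 6) (n (n (n (q 1) (n (n
  (n (q 1) (q 8) (r 1 8)) (q 2) (q 6)) (r 2 53) (q 5)) (r 1 5)) (r 3 55) (r 1 4)) (q 25) (r 3 22))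
  (n (r 1 5) (n (n (n (q 1) (q 5) (r 1 5)) (r 3 56) (r 1 4)) (r 2 51) (q 12)) (q 1)))) (r 1 8)) (q
  2) (r 1 7)) (r 2 45) (r 6 23)) (r 1 5)) (r 3 47) (r 1 4)) (r 2 42) (q 6)) (q 6))) (r 1 8)) (q 2)
  (r 1 7)) (r 2 37) (n (r 1 4) (q 8) (n (r 1 5) (n (q 3) (r 2 40) (n (r 1 7) (q 2) (q 9))) (q
  1)))) (q 7)) (q 5) (r 1 4)) (r 2 34) (n (r 1 10) (q 2) (q 3))) (q 1)))) (q 1)))) (r 1 5)) (r 3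
  30) (r 1 4)) (r 2 25) (n (r 1 10) (q 2) (q 3))) (q 1)))) (q 1)))) (r 1 8)) (q 2) (r 1 7)) (r 2
  16) (q 5)) (r 1 5)) (r 3 18) (r 1 4)) (n (r 1 6) (q 1) (q 8)) (n (r 1 6) (q 8) (n (r 1 7) (q 2)
  (q 1)))) (n (r 1 5) (n (n (n (q 1) (q 5) (r 1 5)) (r 3 19) (r 1 4)) (q 8) (n (r 1 7) (q 2) (n (r
  1 8) (n (n (n (q 1) (n (n (n (q 1) (n (n (q 3) (q 2) (r 1 10)) (r 2 23) (n (r 1 4) (n (n (n (q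
  1) (n (n (n (q 1) (n (n (q 3) (q 2) (q 6)) (r 2 31) (q 9)) (q 9)) (q 2) (r 1 7)) (r 2 28) (n (r
  1 4) (q 5) (r 2 16))) (r 1 5)) (r 3 30) (r 1 4)) (n (r 1 6) (q 1) (n (r 1 7) (n (n (q 5) (n (r 3
  13) (r 2 7) (n (r 1 4) (n (q 4) (n (r 1 6) (q 1) (n (r 1 7) (n (n (n (q 1) (n (n (n (q 1) (n (n
  (q 3) (q 2) (r 1 10)) (r 2 11) (n (r 1 4) (q 29) (n (r 1 5) (q 30) (q 1)))) (q 28)) (q 2) (r 1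
  7)) (r 2 8) (n (r 1 4) (q 4) (q 25))) (r 1 5)) (n (r 3 20) (r 2 7) (n (r 1 4) (n (q 4) (n (r 1
  6) (q 1) (n (r 1 7) (q 7) (r 2 28))) (r 3 28)) (r 2 25))) (r 1 4)) (n (r 1 9) (q 1) (n (r 1 10)
  (q 3) (r 2 24))) (q 2)) (r 2 21))) (r 3 21)) (r 2 18))) (q 17)) (n (r 1 9) (q 1) (n (r 1 10) (q
  3) (r 2 17))) (q 2)) (r 2 14))) (q 6)) (q 6))) (r 1 8)) (q 2) (r 1 7)) (q 7) (n (r 1 4) (r 3 20)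
  (n (r 1 5) (n (q 3) (r 2 23) (n (r 1 7) (q 2) (n (q 4) (n (n (n (q 1) (n (n (n (q 1) (n (n (q 3)
  (q 2) (r 1 10)) (r 2 32) (n (r 1 4) (n (n (n (q 1) (n (n (n (q 1) (n (n (q 3) (q 2) (q 6)) (r 2
  40) (n (q 6) (n (n (n (q 1) (n (n (n (q 1) (q 8) (r 1 8)) (q 2) (q 6)) (r 2 45) (q 5)) (r 1 5))
  (r 3 47) (r 1 4)) (r 2 42) (r 3 22)) (n (r 1 5) (n (n (n (q 1) (q 5) (r 1 5)) (r 3 48) (r 1 4))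
  (r 2 43) (q 12)) (q 1)))) (r 1 8)) (q 2) (r 1 7)) (r 2 37) (r 6 23)) (r 1 5)) (r 3 39) (r 1 4))
  (q 17) (q 6)) (q 6))) (r 1 8)) (q 2) (r 1 7)) (r 2 29) (n (r 1 4) (q 8) (n (r 1 5) (n (q 3) (r 2
  32) (n (r 1 7) (q 2) (q 9))) (q 1)))) (q 7)) (q 5) (r 1 4)) (r 2 26) (n (r 1 10) (q 2) (q 3)))
  (q 1)))) (q 1)))) (r 1 5)) (r 3 22) (r 1 4)) (r 2 17) (n (r 1 10) (q 2) (q 3))) (q 1)))) (q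
  1)))) (r 1 8)) (q 2) (r 1 7)) (r 2 8) (n (r 1 4) (q 4) (n (r 1 5) (n (q 3) (r 2 11) (n (r 1 7)
  (q 2) (n (r 1 8) (n (n (n (q 1) (n (n (n (q 1) (n (n (q 3) (q 2) (r 1 10)) (r 2 20) (n (r 1 4)
  (r 3 20) (q 6))) (r 1 8)) (q 2) (r 1 7)) (r 2 17) (n (r 1 4) (n (n (n (q 1) (n (n (n (q 1) (n (n
  (q 3) (q 2) (r 1 10)) (r 2 25) (n (r 1 4) (q 5) (r 2 16))) (r 1 8)) (q 2) (r 1 7)) (r 2 22) (q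
  6)) (q 6)) (r 3 24) (q 3)) (n (r 1 6) (q 1) (n (r 1 7) (n (n (n (q 1) (n (n (n (q 1) (n (n (q 3)
  (q 2) (r 1 10)) (r 2 11) (q 5)) (r 1 8)) (q 2) (r 1 7)) (r 2 8) (n (r 1 4) (q 4) (q 8))) (r 1
  5)) (n (n (r 2 12) (n (q 2) (r 2 9) (q 4)) (r 1 6)) (r 2 7) (n (r 1 4) (n (q 4) (n (r 1 6) (q 1)
  (n (q 9) (n (n (n (q 1) (n (n (n (q 1) (n (n (q 3) (q 2) (r 1 10)) (r 2 11) (n (r 1 4) (n (n (n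
  (q 1) (n (n (n (q 1) (n (n (q 3) (q 2) (q 6)) (r 2 19) (n (q 6) (n (n (n (q 1) (n (n (q 8) (q 2)
  (q 6)) (r 2 24) (q 5)) (r 1 5)) (q 7) (r 1 4)) (n (q 7) (q 1) (n (r 1 7) (n (n (q 5) (n (r 3 13)
  (r 2 7) (n (r 1 4) (n (q 4) (n (r 1 6) (q 1) (n (r 1 7) (n (n (n (q 1) (n (q 11) (r 2 8) (n (r 1
  4) (q 4) (n (r 1 5) (n (q 3) (r 2 11) (q 27)) (q 1)))) (r 1 5)) (n (r 3 20) (r 2 7) (n (r 1 4)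
  (n (q 4) (n (r 1 6) (q 1) (n (r 1 7) (q 7) (r 2 51))) (r 3 51)) (r 2 48))) (r 1 4)) (n (r 1 9)
  (q 1) (n (r 1 10) (q 3) (r 2 47))) (q 2)) (r 2 44))) (r 3 44)) (r 2 41))) (r 1 4)) (n (r 1 9) (q
  1) (n (r 1 10) (q 3) (r 2 40))) (q 2)) (r 2 37))) (r 3 37)) (r 2 34))) (r 1 8)) (q 2) (r 1 7))
  (r 2 16) (q 5)) (r 1 5)) (r 3 18) (r 1 4)) (n (r 1 6) (q 1) (q 8)) (r 3 29)) (r 2 26))) (r 1 8))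
  (q 2) (r 1 7)) (r 2 8) (n (r 1 4) (q 4) (n (r 1 5) (q 24) (q 1)))) (q 22)) (n (n (r 2 19) (n (q
  2) (r 2 9) (q 4)) (r 1 6)) (r 2 7) (n (r 1 4) (n (q 4) (n (r 1 6) (q 1) (n (q 25) (q 7) (r 2
  25))) (r 3 25)) (q 11))) (r 1 4)) (n (r 1 9) (q 1) (n (r 1 10) (q 3) (r 2 21))) (q 2)) (r 2
  18))) (r 3 18)) (r 2 15))) (q 14)) (n (r 1 9) (q 1) (n (r 1 10) (q 3) (r 2 14))) (q 2)) (r 2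
  11))) (r 3 11)) (n (r 1 5) (n (q 3) (r 2 20) (n (r 1 7) (q 2) (n (q 4) (n (n (n (q 1) (q 8) (q
  7)) (q 5) (r 1 4)) (r 2 23) (n (r 1 10) (q 2) (q 3))) (q 1)))) (q 1)))) (r 1 5)) (r 3 19) (r 1
  4)) (r 2 14) (n (r 1 10) (q 2) (q 3))) (q 1)))) (q 1)))) (r 1 5)) (n (n (n (q 1) (q 2) (r 1 7))
  (n (q 2) (r 2 9) (q 4)) (r 1 6)) (r 2 7) (n (r 1 4) (q 7) (n (r 1 5) (n (n (n (q 1) (n (n (n (q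
  1) (n (n (q 3) (q 2) (r 1 10)) (r 2 16) (n (r 1 4) (r 3 16) (n (r 1 5) (n (n (n (q 1) (n (n (n
  (q 1) (n (n (q 3) (q 2) (r 1 10)) (r 2 25) (n (r 1 4) (q 5) (n (q 7) (q 8) (q 1)))) (q 4)) (q 2)
  (r 1 7)) (r 2 22) (q 3)) (r 1 5)) (n (r 3 11) (r 2 21) (n (q 3) (n (n (r 2 12) (n (r 3 15) (r 2
  25) (n (r 1 4) (r 7 32) (n (r 1 5) (n (n (n (q 1) (n (n (n (q 1) (q 19) (r 1 8)) (q 2) (r 1 7))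
  (q 18) (q 3)) (r 1 5)) (q 4) (r 1 4)) (r 2 28) (n (r 1 7) (q 2) (n (r 1 8) (n (q 5) (r 2 31) (n
  (r 1 10) (q 2) (q 3))) (q 1)))) (q 1)))) (q 6)) (n (r 1 6) (q 1) (q 13)) (n (q 6) (q 13) (r 2
  9))) (n (q 6) (n (q 6) (q 13) (n (r 1 7) (q 2) (n (r 1 8) (n (n (r 2 16) (q 5) (r 1 4)) (r 2 27)
  (n (r 1 10) (q 2) (q 3))) (q 1)))) (q 1)))) (r 1 4)) (r 2 19) (n (r 1 7) (q 2) (n (r 1 8) (n (n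
  (q 6) (r 3 20) (r 1 4)) (r 2 22) (n (r 1 10) (q 2) (q 3))) (q 1)))) (q 1)))) (r 1 8)) (q 2) (r 1
  7)) (r 2 13) (q 3)) (r 1 5)) (n (n (n (q 1) (q 2) (r 1 7)) (n (q 2) (r 2 14) (n (r 1 4) (q 4) (n
  (r 1 5) (n (n (n (q 1) (n (r 3 11) (r 2 20) (q 3)) (r 1 5)) (n (n (n (q 1) (q 2) (r 1 7)) (n (q
  2) (q 8) (n (r 1 4) (q 4) (n (r 1 5) (n (q 7) (q 14) (n (r 1 7) (q 2) (n (r 1 8) (n (q 5) (r 2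
  27) (n (r 1 10) (q 2) (q 3))) (q 1)))) (q 1)))) (q 3)) (r 2 19) (n (q 3) (q 10) (q 5))) (r 1 4))
  (q 6) (n (r 1 7) (q 2) (n (r 1 8) (n (q 5) (q 12) (n (r 1 10) (q 2) (q 3))) (q 1)))) (q 1)))) (q
  3)) (q 7) (n (q 3) (q 6) (n (r 1 5) (n (n (n (q 1) (n (n (n (q 1) (n (n (q 3) (q 2) (r 1 10)) (r
  2 21) (n (r 1 4) (r 3 21) (q 6))) (r 1 8)) (q 2) (r 1 7)) (r 2 18) (q 3)) (r 1 5)) (n (n (n (q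
  1) (q 2) (r 1 7)) (n (q 2) (r 2 19) (n (r 1 4) (q 4) (q 5))) (q 3)) (q 6) (q 5)) (r 1 4)) (q 6)
  (n (r 1 7) (q 2) (n (r 1 8) (n (q 5) (r 2 18) (n (r 1 10) (q 2) (q 3))) (q 1)))) (q 1)))) (r 1
  4)) (q 7) (n (r 1 7) (q 2) (n (r 1 8) (n (n (n (q 1) (n (n (n (q 1) (n (n (q 3) (q 2) (r 1 10))
  (r 2 19) (n (r 1 4) (r 3 19) (n (r 1 5) (n (n (n (q 1) (n (n (n (q 1) (n (n (q 3) (q 2) (r 1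
  10)) (r 2 28) (n (r 1 4) (q 5) (n (q 7) (n (n (n (q 1) (n (n (q 9) (q 2) (r 1 7)) (r 2 34) (q
  3)) (r 1 5)) (q 8) (r 1 4)) (r 2 31) (n (r 1 7) (q 2) (n (r 1 8) (n (n (q 6) (n (q 6) (q 19) (n
  (r 1 4) (n (n (r 2 15) (q 22) (r 1 4)) (n (q 22) (q 1) (n (q 5) (n (n (r 2 18) (n (r 3 21) (r 2
  7) (n (q 22) (n (q 4) (n (r 1 6) (q 1) (n (q 6) (n (n (r 2 25) (n (r 3 28) (r 2 7) (n (r 1 4) (n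
  (q 4) (q 7) (r 3 24)) (n (r 1 5) (n (q 37) (q 7) (n (r 1 7) (q 2) (n (r 1 8) (n (n (n (q 1) (n
  (n (n (q 1) (n (n (q 3) (q 2) (q 22)) (r 2 19) (q 43)) (r 1 8)) (q 2) (r 1 7)) (r 2 16) (n (r 1
  4) (r 3 16) (q 40))) (r 1 5)) (n (r 3 36) (q 6) (n (r 1 4) (q 8) (n (q 40) (n (q 5) (r 2 18) (n
  (r 1 7) (q 2) (n (r 1 8) (n (n (r 2 41) (q 7) (q 6)) (r 2 21) (n (q 6) (q 2) (q 3))) (q 1)))) (q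
  1)))) (r 1 4)) (r 2 13) (n (r 1 10) (q 2) (q 3))) (q 1)))) (q 1)))) (q 6)) (n (r 1 9) (q 1) (n
  (r 1 10) (q 3) (r 2 20))) (q 2)) (r 2 17))) (q 24)) (n (r 1 5) (q 24) (q 1)))) (r 1 4)) (n (r 1
  9) (q 1) (q 21)) (q 2)) (r 2 10))) (r 3 10)) (n (r 1 5) (n (r 6 23) (r 2 39) (n (r 1 7) (q 2) (n
  (r 1 8) (n (n (n (q 1) (n (q 12) (r 2 45) (n (r 1 4) (r 3 45) (n (r 1 5) (q 5) (q 1)))) (r 1 5))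
  (n (r 3 22) (r 2 44) (n (r 1 4) (r 3 44) (n (r 1 5) (n (q 5) (r 2 47) (n (q 6) (q 2) (n (r 1 8)
  (q 8) (q 1)))) (q 1)))) (q 6)) (r 2 42) (n (q 6) (q 2) (q 3))) (q 1)))) (q 1)))) (r 1 4)) (r 2
  34) (n (r 1 10) (q 2) (q 3))) (q 1)))) (q 1)))) (q 4)) (q 2) (r 1 7)) (r 2 25) (q 3)) (r 1 5))
  (r 3 20) (r 1 4)) (r 2 22) (n (r 1 7) (q 2) (n (r 1 8) (n (n (q 6) (n (q 6) (r 2 27) (n (r 1 4)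
  (n (n (r 2 15) (n (r 3 18) (r 2 31) (q 5)) (r 1 4)) (n (r 1 6) (q 1) (q 16)) (r 3 10)) (n (r 1
  5) (n (n (r 2 16) (q 5) (r 1 4)) (q 16) (n (r 1 7) (q 2) (n (q 9) (n (q 9) (r 2 33) (n (q 6) (q
  2) (q 3))) (q 1)))) (q 1)))) (r 1 4)) (r 2 25) (n (r 1 10) (q 2) (q 3))) (q 1)))) (q 1)))) (r 1
  8)) (q 2) (r 1 7)) (r 2 16) (n (r 1 4) (r 3 16) (n (r 1 5) (q 5) (q 1)))) (r 1 5)) (n (n (n (q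
  1) (q 2) (r 1 7)) (n (q 2) (r 2 17) (n (r 1 4) (r 3 17) (q 5))) (r 1 6)) (q 6) (n (r 1 4) (q 8)
  (n (r 1 5) (n (q 5) (r 2 18) (n (r 1 7) (q 2) (n (r 1 8) (n (n (n (q 1) (n (n (n (q 1) (n (n (q
  3) (q 2) (r 1 10)) (r 2 27) (n (r 1 4) (r 3 27) (n (r 1 5) (n (n (n (q 1) (n (n (n (q 1) (n (n
  (q 3) (q 2) (r 1 10)) (r 2 36) (n (r 1 4) (q 5) (n (q 7) (n (n (n (q 1) (n (n (q 9) (q 2) (r 1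
  7)) (r 2 42) (q 3)) (r 1 5)) (q 8) (r 1 4)) (r 2 39) (n (r 1 7) (q 2) (n (r 1 8) (n (n (q 6) (n
  (q 6) (r 2 44) (n (r 1 4) (r 3 44) (n (r 1 5) (n (r 6 23) (r 2 47) (n (r 1 7) (q 2) (n (r 1 8)
  (n (n (n (q 1) (n (q 12) (r 2 53) (n (r 1 4) (r 3 53) (n (r 1 5) (q 5) (q 1)))) (r 1 5)) (n (r 3
  22) (q 27) (n (r 1 4) (n (n (q 14) (q 30) (q 5)) (n (q 30) (q 1) (n (q 5) (n (n (r 2 26) (n (r 3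
  29) (r 2 7) (n (q 30) (n (q 4) (n (r 1 6) (q 1) (n (q 6) (n (n (r 2 33) (n (r 3 36) (r 2 7) (n
  (r 1 4) (n (q 4) (q 7) (r 3 24)) (n (r 1 5) (n (r 6 45) (q 7) (n (r 1 7) (q 2) (n (r 1 8) (n (n
  (r 2 41) (n (r 3 44) (q 6) (n (r 1 4) (q 8) (n (r 1 5) (n (q 5) (r 2 18) (n (r 1 7) (q 2) (n (r
  1 8) (n (n (n (q 1) (n (n (n (q 1) (n (n (q 3) (q 2) (q 30)) (r 2 27) (q 59)) (r 1 8)) (q 2) (r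
  1 7)) (r 2 24) (n (r 1 4) (r 3 24) (q 56))) (r 1 5)) (q 7) (q 6)) (r 2 21) (n (q 6) (q 2) (q
  3))) (q 1)))) (q 1)))) (r 1 4)) (r 2 13) (n (r 1 10) (q 2) (q 3))) (q 1)))) (q 1)))) (q 6)) (n
  (r 1 9) (q 1) (n (r 1 10) (q 3) (r 2 20))) (q 2)) (r 2 17))) (q 32)) (q 7))) (q 7)) (n (r 1 9)
  (q 1) (q 29)) (q 2)) (r 2 10))) (r 3 10)) (n (r 1 5) (n (q 5) (r 2 55) (n (q 6) (q 2) (n (r 1 8)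
  (q 8) (q 1)))) (q 1)))) (q 6)) (r 2 50) (n (q 6) (q 2) (q 3))) (q 1)))) (q 1)))) (r 1 4)) (r 2
  42) (n (r 1 10) (q 2) (q 3))) (q 1)))) (q 1)))) (q 4)) (q 2) (r 1 7)) (r 2 33) (q 3)) (r 1 5))
  (r 3 20) (r 1 4)) (r 2 30) (n (r 1 7) (q 2) (q 9))) (q 1)))) (r 1 8)) (q 2) (r 1 7)) (r 2 24) (n
  (r 1 4) (r 3 24) (n (r 1 5) (q 5) (q 1)))) (r 1 5)) (q 7) (q 6)) (r 2 21) (n (q 6) (q 2) (q 3)))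
  (q 1)))) (q 1)))) (r 1 4)) (r 2 13) (n (r 1 10) (q 2) (q 3))) (q 1)))) (q 1)))) (r 1 4)) (n (r 1
  9) (q 1) (n (r 1 10) (q 3) (n (r 1 11) (q 2) (q 1)))) (q 2)) (n (q 5) (q 2) (q 1)))) (n (r 1 6)
  (n (n (n (q 1) (n (n (n (q 1) (n (n (q 3) (q 2) (r 1 10)) (n (q 2) (q 1) (r 1 10)) (n (r 1 4) (n
  (n (n (q 1) (n (n (n (q 1) (n (n (q 3) (q 2) (q 6)) (n (q 2) (q 1) (r 1 10)) (q 10)) (r 1 8)) (q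
  2) (r 1 7)) (n (q 2) (q 1) (q 5)) (q 5)) (r 1 5)) (r 3 17) (r 1 4)) (n (r 1 6) (q 1) (n (r 1 7)
  (n (q 9) (n (r 1 9) (q 1) (n (r 1 10) (q 3) (q 13))) (q 2)) (n (r 1 8) (q 2) (q 1)))) (q 7)) (n
  (r 1 5) (q 7) (q 1)))) (r 1 8)) (q 2) (r 1 7)) (n (q 2) (q 1) (q 4)) (n (r 1 4) (q 4) (n (r 1 5)
  (n (q 3) (q 6) (r 3 11)) (q 1)))) (r 1 5)) (n (n (n (q 1) (q 2) (r 1 7)) (n (q 2) (n (q 2) (q 1)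
  (q 4)) (q 4)) (r 1 6)) (n (n (n (q 1) (q 2) (r 1 8)) (n (q 2) (n (n (n (q 1) (q 2) (r 1 11)) (q
  3) (r 1 10)) (q 1) (r 1 9)) (q 4)) (q 4)) (q 1) (r 1 6)) (n (r 1 4) (q 6) (n (r 1 5) (q 6) (q
  1)))) (q 5)) (n (r 1 8) (q 1) (q 2)) (q 2)) (n (r 1 7) (q 2) (q 1)))) (n (r 1 5) (n (n (n (q 1)
  (n (n (n (q 1) (n (n (q 3) (q 2) (r 1 10)) (n (q 2) (q 1) (r 1 10)) (n (r 1 4) (n (n (n (q 1) (n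
  (n (n (q 1) (n (n (q 3) (q 2) (q 6)) (n (q 2) (q 1) (r 1 10)) (n (q 6) (n (n (n (q 1) (n (n (n
  (q 1) (q 8) (r 1 8)) (q 2) (q 6)) (n (q 2) (q 1) (q 5)) (q 5)) (r 1 5)) (r 3 24) (r 1 4)) (n (r
  1 6) (q 1) (n (r 1 7) (n (n (q 5) (r 3 27) (q 13)) (n (r 1 9) (q 1) (n (r 1 10) (q 3) (r 2 25)))
  (q 2)) (r 2 22))) (n (r 1 6) (n (n (q 5) (r 3 26) (r 1 4)) (n (r 1 8) (q 1) (q 2)) (q 2)) (r 2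
  21))) (n (r 1 5) (n (n (n (q 1) (q 5) (r 1 5)) (n (q 5) (n (n (r 2 11) (n (q 2) (n (n (r 2 14)
  (q 3) (r 1 10)) (q 1) (r 1 9)) (n (r 1 4) (r 3 19) (n (r 1 5) (n (n (n (q 1) (n (n (n (q 1) (n
  (n (q 3) (q 2) (q 24)) (r 2 14) (q 13)) (r 1 8)) (q 2) (q 21)) (r 2 11) (q 3)) (r 1 5)) (q 4) (r
  1 4)) (r 2 8) (n (r 1 7) (q 2) (n (r 1 8) (n (q 5) (r 2 11) (n (r 1 10) (q 2) (q 3))) (q 1))))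
  (q 1)))) (q 13)) (q 1) (q 13)) (n (q 3) (q 13) (n (r 1 5) (n (n (n (q 1) (n (n (n (q 1) (n (n (q
  3) (q 2) (q 20)) (n (q 2) (q 1) (q 22)) (q 22)) (r 1 8)) (q 2) (q 20)) (n (q 2) (q 1) (q 19)) (q
  3)) (r 1 5)) (n (r 3 16) (n (n (r 2 16) (n (q 2) (n (n (r 2 19) (q 3) (r 1 10)) (q 1) (r 1 9))
  (q 4)) (q 19)) (q 1) (r 1 6)) (n (q 3) (r 3 21) (n (r 1 5) (q 5) (q 1)))) (r 1 4)) (n (r 1 7) (q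
  1) (q 2)) (n (r 1 7) (q 2) (n (r 1 8) (n (n (r 2 16) (q 5) (r 1 4)) (n (q 5) (q 1) (q 2)) (n (r
  1 10) (q 2) (q 3))) (q 1)))) (q 1)))) (r 1 4)) (n (r 1 7) (q 1) (q 2)) (n (r 1 7) (q 2) (n (r 1
  8) (n (n (n (q 1) (n (n (q 9) (q 2) (r 1 7)) (n (q 2) (q 1) (r 1 7)) (n (r 1 4) (r 3 20) (n (r 1
  5) (n (q 3) (n (r 1 7) (q 1) (q 2)) (n (r 1 7) (q 2) (n (q 4) (n (n (n (q 1) (n (n (n (q 1) (q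
  14) (r 1 8)) (q 2) (r 1 7)) (n (q 2) (q 1) (q 8)) (n (r 1 4) (q 8) (n (r 1 5) (n (q 3) (n (r 1
  7) (q 1) (q 2)) (n (r 1 7) (q 2) (q 9))) (q 1)))) (q 7)) (q 5) (r 1 4)) (n (q 5) (q 1) (q 2)) (n
  (r 1 10) (q 2) (q 3))) (q 1)))) (q 1)))) (r 1 5)) (r 3 28) (r 1 4)) (n (r 1 10) (q 1) (q 2)) (n
  (r 1 10) (q 2) (q 3))) (q 1)))) (q 1)))) (q 9)) (q 2) (q 9)) (n (q 2) (q 1) (q 5)) (q 8)) (r 1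
  5)) (r 3 16) (r 1 4)) (n (r 1 6) (q 1) (n (q 8) (n (n (q 5) (r 3 19) (r 1 4)) (n (r 1 9) (q 1)
  (n (r 1 10) (q 3) (r 2 17))) (q 2)) (r 2 14))) (n (r 1 6) (n (q 8) (n (r 1 8) (q 1) (q 2)) (q
  2)) (r 2 13))) (q 6))) (r 1 8)) (q 2) (r 1 7)) (n (q 2) (q 1) (r 1 7)) (q 3)) (r 1 5)) (n (n (n
  (q 1) (q 2) (r 1 7)) (n (q 2) (n (q 2) (q 1) (q 4)) (n (r 1 4) (q 4) (q 5))) (q 3)) (n (n (n (q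
  1) (q 2) (r 1 8)) (n (q 2) (n (n (n (q 1) (q 2) (r 1 11)) (q 3) (r 1 10)) (q 1) (r 1 9)) (q 4))
  (r 1 7)) (q 1) (r 1 6)) (q 5)) (r 1 4)) (n (r 1 7) (q 1) (q 2)) (n (r 1 7) (q 2) (n (r 1 8) (n
  (n (n (q 1) (n (n (n (q 1) (n (n (q 3) (q 2) (r 1 10)) (n (q 2) (q 1) (r 1 10)) (n (r 1 4) (n (n
  (n (q 1) (n (n (n (q 1) (n (n (q 3) (q 2) (q 6)) (n (q 2) (q 1) (r 1 10)) (n (q 6) (n (n (n (q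
  1) (n (n (n (q 1) (q 8) (r 1 8)) (q 2) (q 6)) (n (q 2) (q 1) (q 5)) (q 5)) (r 1 5)) (r 3 27) (r
  1 4)) (n (r 1 6) (q 1) (n (r 1 7) (n (n (q 5) (r 3 30) (r 1 4)) (n (r 1 9) (q 1) (n (r 1 10) (q
  3) (r 2 25))) (q 2)) (r 2 22))) (r 3 22)) (n (r 1 5) (n (n (n (q 1) (q 5) (r 1 5)) (r 3 28) (r 1
  4)) (n (r 1 7) (q 1) (q 2)) (n (r 1 7) (q 2) (n (r 1 8) (n (n (n (q 1) (n (n (q 9) (q 2) (r 1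
  7)) (n (q 2) (q 1) (q 16)) (n (r 1 4) (q 16) (n (r 1 5) (n (q 3) (n (r 1 7) (q 1) (q 2)) (q 23))
  (q 1)))) (r 1 5)) (n (r 3 14) (n (n (r 2 14) (n (q 2) (n (n (r 2 17) (q 3) (r 1 10)) (q 1) (r 1
  9)) (n (r 1 4) (r 3 22) (q 5))) (q 16)) (q 1) (q 16)) (n (r 1 4) (q 16) (n (r 1 5) (n (n (r 2
  16) (q 5) (q 23)) (n (q 5) (q 1) (q 2)) (n (q 23) (q 2) (n (r 1 8) (n (n (n (q 1) (n (n (n (q 1)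
  (n (n (q 3) (q 2) (q 26)) (n (q 2) (q 1) (q 28)) (q 28)) (r 1 8)) (q 2) (q 26)) (n (q 2) (q 1)
  (q 25)) (q 25)) (r 1 5)) (n (r 3 22) (n (n (r 2 22) (n (q 2) (n (n (r 2 25) (q 3) (r 1 10)) (q
  1) (r 1 9)) (n (r 1 4) (r 3 30) (q 5))) (q 25)) (q 1) (r 1 6)) (n (q 25) (r 3 27) (n (r 1 5) (n
  (q 5) (n (q 5) (q 1) (q 2)) (n (q 6) (q 2) (n (r 1 8) (q 8) (q 1)))) (q 1)))) (q 6)) (n (r 1 10)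
  (q 1) (q 2)) (n (q 6) (q 2) (q 3))) (q 1)))) (q 1)))) (r 1 4)) (n (r 1 10) (q 1) (q 2)) (n (r 1
  10) (q 2) (q 3))) (q 1)))) (q 1)))) (r 1 8)) (q 2) (r 1 7)) (n (q 2) (q 1) (q 5)) (n (r 1 4) (q
  5) (r 2 16))) (r 1 5)) (r 3 19) (r 1 4)) (n (r 1 6) (q 1) (n (r 1 7) (n (n (q 5) (r 3 22) (r 1
  4)) (n (r 1 9) (q 1) (n (r 1 10) (q 3) (r 2 17))) (q 2)) (r 2 14))) (r 3 14)) (n (r 1 5) (n (n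
  (n (q 1) (n (n (n (q 1) (n (n (q 3) (q 2) (r 1 10)) (n (q 2) (q 1) (q 5)) (n (r 1 4) (q 5) (q
  12))) (q 4)) (q 2) (r 1 7)) (n (q 2) (q 1) (r 1 7)) (q 3)) (r 1 5)) (r 3 20) (r 1 4)) (n (r 1 7)
  (q 1) (q 2)) (n (r 1 7) (q 2) (q 9))) (q 1)))) (r 1 8)) (q 2) (r 1 7)) (n (q 2) (q 1) (r 1 7))
  (n (r 1 4) (n (n (n (q 1) (n (n (n (q 1) (n (n (q 3) (q 2) (r 1 10)) (n (q 2) (q 1) (q 5)) (n (r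
  1 4) (q 5) (r 2 16))) (r 1 8)) (q 2) (r 1 7)) (n (q 2) (q 1) (r 1 7)) (n (r 1 4) (n (n (n (q 1)
  (q 5) (r 1 5)) (r 3 21) (q 3)) (n (r 1 6) (q 1) (n (r 1 7) (n (q 4) (n (r 1 9) (q 1) (n (r 1 10)
  (q 3) (r 2 19))) (q 2)) (r 2 16))) (r 3 16)) (n (r 1 5) (n (q 3) (n (r 1 7) (q 1) (q 2)) (n (r 1
  7) (q 2) (n (r 1 8) (n (n (q 6) (n (n (r 2 13) (n (q 2) (n (q 2) (q 1) (r 1 8)) (q 8)) (r 1 6))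
  (n (n (r 2 14) (n (q 2) (n (n (r 2 17) (q 3) (r 1 10)) (q 1) (r 1 9)) (n (r 1 4) (r 3 19) (q
  5))) (q 8)) (q 1) (q 13)) (n (r 1 4) (q 13) (n (r 1 5) (n (q 8) (n (q 5) (q 1) (q 2)) (n (q 9)
  (q 2) (n (q 9) (n (n (n (q 1) (n (n (q 20) (q 2) (r 1 7)) (n (q 2) (q 1) (q 22)) (q 22)) (r 1
  5)) (n (n (r 2 21) (n (q 2) (n (q 2) (q 1) (q 23)) (n (q 22) (q 23) (q 5))) (q 22)) (n (n (q 16)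
  (n (q 2) (n (n (r 2 25) (q 3) (r 1 10)) (q 1) (r 1 9)) (q 23)) (r 1 7)) (q 1) (q 21)) (n (r 1 4)
  (q 21) (n (q 23) (n (q 5) (n (q 5) (q 1) (q 2)) (n (q 6) (q 2) (n (r 1 8) (q 8) (q 1)))) (q
  1)))) (q 6)) (n (r 1 10) (q 1) (q 2)) (n (q 6) (q 2) (q 3))) (q 1)))) (q 1)))) (r 1 4)) (n (r 1
  10) (q 1) (q 2)) (n (r 1 10) (q 2) (q 3))) (q 1)))) (q 1)))) (r 1 5)) (r 3 16) (q 3)) (n (r 1 6)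
  (q 1) (n (r 1 7) (n (n (n (q 1) (n (n (n (q 1) (n (n (q 3) (q 2) (r 1 10)) (r 2 11) (q 5)) (r 1
  8)) (q 2) (r 1 7)) (r 2 8) (n (r 1 4) (q 4) (n (r 1 5) (n (q 3) (r 2 11) (n (r 1 7) (q 2) (n (r
  1 8) (n (n (n (q 1) (n (n (n (q 1) (n (n (q 3) (q 2) (r 1 10)) (r 2 20) (n (r 1 4) (r 3 20) (q
  6))) (r 1 8)) (q 2) (r 1 7)) (q 7) (q 8)) (r 1 5)) (n (n (r 2 13) (q 7) (q 8)) (r 2 16) (n (q 8)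
  (r 3 16) (n (r 1 5) (n (q 10) (r 2 19) (n (r 1 7) (q 2) (n (r 1 8) (n (n (n (q 1) (n (n (n (q 1)
  (n (n (q 3) (q 2) (r 1 10)) (q 22) (n (r 1 4) (q 23) (n (r 1 5) (n (n (n (q 1) (n (n (n (q 1) (n
  (n (q 3) (q 2) (r 1 10)) (r 2 37) (n (r 1 4) (q 5) (n (q 7) (n (n (n (q 1) (n (n (q 9) (q 2) (r
  1 7)) (r 2 43) (q 3)) (r 1 5)) (q 8) (r 1 4)) (r 2 40) (n (r 1 7) (q 2) (n (r 1 8) (n (n (q 6)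
  (n (q 6) (r 2 45) (n (r 1 4) (r 3 45) (n (r 1 5) (n (r 6 23) (q 21) (n (r 1 7) (q 2) (n (r 1 8)
  (n (n (n (q 1) (n (q 12) (q 28) (n (r 1 4) (n (q 14) (n (r 1 6) (q 1) (n (r 1 7) (n (n (q 27) (r
  3 19) (r 1 4)) (n (r 1 9) (q 1) (q 30)) (q 2)) (q 29))) (q 5)) (n (r 1 5) (q 5) (q 1)))) (r 1
  5)) (n (r 3 22) (r 2 53) (n (r 1 4) (r 3 53) (n (r 1 5) (n (q 5) (r 2 56) (n (q 6) (q 2) (n (r 1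
  8) (q 8) (q 1)))) (q 1)))) (q 6)) (q 21) (n (q 6) (q 2) (q 3))) (q 1)))) (q 1)))) (r 1 4)) (r 2
  43) (n (r 1 10) (q 2) (q 3))) (q 1)))) (q 1)))) (q 4)) (q 2) (r 1 7)) (q 28) (q 3)) (r 1 5)) (q
  26) (r 1 4)) (q 25) (n (r 1 7) (q 2) (q 9))) (q 1)))) (r 1 8)) (q 2) (r 1 7)) (q 20) (n (r 1 4)
  (q 25) (n (r 1 5) (q 5) (q 1)))) (r 1 5)) (q 10) (q 6)) (r 2 22) (n (q 6) (q 2) (q 3))) (q 1))))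
  (q 1)))) (r 1 4)) (r 2 14) (n (r 1 10) (q 2) (q 3))) (q 1)))) (q 1)))) (r 1 5)) (r 3 19) (r 1
  4)) (n (r 1 9) (q 1) (n (r 1 10) (q 3) (r 2 14))) (q 2)) (r 2 11))) (q 5)) (n (r 1 5) (q 5) (q
  1)))) (r 1 5)) (n (n (n (q 1) (q 2) (r 1 7)) (n (q 2) (n (q 2) (q 1) (r 1 8)) (n (r 1 4) (n (n
  (n (q 1) (n (r 3 10) (n (q 2) (q 1) (r 1 7)) (n (r 1 4) (n (n (q 5) (n (n (r 2 9) (n (q 2) (n (q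
  2) (q 1) (q 6)) (n (q 5) (q 6) (q 7))) (q 5)) (n (n (r 2 10) (n (q 2) (n (n (r 2 13) (q 3) (q
  6)) (q 1) (r 1 9)) (q 6)) (r 1 7)) (q 1) (q 4)) (r 5 24)) (q 3)) (n (r 1 6) (q 1) (n (r 1 7) (n
  (q 4) (n (r 1 9) (q 1) (n (r 1 10) (q 3) (r 2 20))) (q 2)) (q 10))) (r 3 17)) (r 2 14))) (r 1
  5)) (n (n (n (q 1) (q 2) (r 1 7)) (n (q 2) (n (q 2) (q 1) (r 1 8)) (n (r 1 4) (n (n (n (q 1) (n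
  (r 3 10) (q 6) (n (r 1 4) (q 6) (r 2 20))) (r 1 5)) (n (n (n (q 1) (q 2) (r 1 7)) (q 6) (r 1 6))
  (n (q 6) (q 1) (q 4)) (q 4)) (r 1 4)) (n (r 1 6) (q 1) (n (q 4) (n (q 4) (n (r 1 9) (q 1) (n (r
  1 10) (q 3) (r 2 21))) (q 2)) (r 2 18))) (r 3 18)) (n (r 1 5) (n (n (n (q 1) (n (r 3 11) (q 6)
  (q 3)) (r 1 5)) (q 4) (r 1 4)) (n (q 4) (q 1) (q 2)) (q 10)) (q 1)))) (r 1 6)) (n (n (n (q 1) (q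
  2) (r 1 8)) (n (q 2) (n (n (n (q 1) (q 2) (r 1 11)) (q 3) (r 1 10)) (q 1) (r 1 9)) (n (r 1 4) (n
  (n (n (q 1) (q 6) (r 1 5)) (n (q 6) (n (n (n (q 1) (q 2) (r 1 8)) (n (q 2) (n (n (n (q 1) (q 2)
  (r 1 11)) (q 3) (r 1 10)) (q 1) (q 7)) (n (q 6) (q 7) (q 8))) (q 6)) (q 1) (r 1 6)) (q 4)) (r 1
  4)) (r 2 7) (r 3 19)) (r 2 16))) (r 1 7)) (q 1) (q 4)) (r 5 19)) (r 1 4)) (n (r 1 6) (q 1) (n (r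
  1 7) (n (q 4) (n (r 1 9) (q 1) (n (r 1 10) (q 3) (r 2 15))) (q 2)) (q 7))) (q 5)) (q 5))) (r 1
  6)) (n (n (n (q 1) (q 2) (r 1 8)) (n (q 2) (n (n (n (q 1) (q 2) (r 1 11)) (q 3) (r 1 10)) (q 1)
  (r 1 9)) (n (r 1 4) (n (n (n (q 1) (n (n (n (q 1) (n (n (q 3) (q 2) (r 1 10)) (r 2 13) (n (r 1
  4) (n (n (n (q 1) (n (n (n (q 1) (n (n (q 3) (q 2) (q 6)) (r 2 21) (n (q 6) (q 7) (r 2 26))) (r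
  1 8)) (q 2) (r 1 7)) (r 2 18) (q 5)) (r 1 5)) (n (r 3 10) (n (n (r 2 10) (n (q 2) (n (n (r 2 13)
  (q 3) (r 1 10)) (q 1) (r 1 9)) (n (r 1 4) (n (n (q 7) (n (q 8) (n (q 8) (q 1) (r 1 6)) (q 4)) (r
  1 4)) (r 2 7) (r 3 28)) (n (r 1 5) (n (n (r 2 15) (q 4) (r 1 4)) (r 2 8) (n (r 1 7) (q 2) (q
  16))) (q 1)))) (q 5)) (q 1) (r 1 6)) (r 5 28)) (r 1 4)) (q 6) (r 3 21)) (r 2 18))) (r 1 8)) (q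
  2) (r 1 7)) (r 2 10) (n (r 1 4) (n (n (n (q 1) (n (n (n (q 1) (n (n (q 3) (q 2) (r 1 10)) (r 2
  18) (q 5)) (r 1 8)) (q 2) (r 1 7)) (q 6) (n (r 1 4) (n (q 5) (q 6) (q 7)) (r 2 20))) (r 1 5)) (n
  (n (r 2 9) (q 6) (r 1 6)) (n (q 6) (q 1) (q 4)) (r 5 25)) (q 3)) (r 2 12) (r 3 18)) (r 2 15)))
  (r 1 5)) (n (n (n (q 1) (q 2) (r 1 7)) (n (q 2) (r 2 11) (n (r 1 4) (n (n (n (q 1) (q 6) (r 1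
  5)) (n (q 6) (n (n (n (q 1) (q 2) (r 1 8)) (n (q 2) (n (n (n (q 1) (q 2) (r 1 11)) (q 3) (q 6))
  (q 1) (q 7)) (n (q 6) (q 7) (q 8))) (q 6)) (q 1) (q 4)) (q 4)) (r 1 4)) (r 2 13) (r 3 19)) (r 2
  16))) (r 1 6)) (n (n (n (q 1) (q 2) (r 1 8)) (n (q 2) (n (n (n (q 1) (q 2) (r 1 11)) (q 3) (r 1
  10)) (q 1) (r 1 9)) (n (r 1 4) (n (n (n (q 1) (n (n (n (q 1) (n (n (q 3) (q 2) (r 1 10)) (r 2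
  13) (n (r 1 4) (n (n (n (q 1) (n (n (n (q 1) (n (n (q 3) (q 2) (q 6)) (r 2 21) (n (q 6) (q 7) (r
  2 33))) (r 1 8)) (q 2) (r 1 7)) (r 2 18) (q 5)) (r 1 5)) (q 8) (r 1 4)) (q 6) (r 3 28)) (r 2
  25))) (r 1 8)) (q 2) (r 1 7)) (r 2 10) (n (r 1 4) (n (n (n (q 1) (n (n (n (q 1) (n (n (q 3) (q
  2) (r 1 10)) (r 2 18) (q 5)) (r 1 8)) (q 2) (r 1 7)) (q 6) (n (r 1 4) (n (q 5) (q 6) (r 3 30))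
  (r 2 27))) (r 1 5)) (q 6) (q 3)) (q 7) (r 3 25)) (r 2 22))) (r 1 5)) (n (n (n (q 1) (q 2) (r 1
  7)) (n (q 2) (q 7) (n (r 1 4) (q 7) (r 2 23))) (r 1 6)) (n (n (n (q 1) (q 2) (r 1 8)) (q 7) (r 1
  7)) (q 1) (r 1 6)) (q 4)) (r 1 4)) (r 2 7) (r 3 20)) (n (r 1 5) (n (n (n (q 1) (n (n (n (q 1) (n
  (n (q 3) (q 2) (r 1 10)) (r 2 14) (n (r 1 4) (r 3 19) (n (r 1 5) (n (n (n (q 1) (n (n (n (q 1)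
  (n (n (q 3) (q 2) (r 1 10)) (r 2 23) (n (r 1 4) (q 5) (n (q 7) (q 8) (q 1)))) (q 4)) (q 2) (r 1
  7)) (r 2 20) (q 3)) (r 1 5)) (n (r 3 11) (n (n (r 2 11) (n (q 2) (n (n (r 2 14) (q 3) (r 1 10))
  (q 1) (r 1 9)) (n (r 1 4) (n (n (r 2 15) (n (r 3 18) (n (n (r 2 18) (n (q 2) (n (n (r 2 21) (q
  3) (r 1 10)) (q 1) (r 1 9)) (n (r 1 4) (n (n (q 11) (n (r 3 25) (n (n (r 2 25) (q 7) (r 1 7)) (q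
  1) (r 1 6)) (q 4)) (r 1 4)) (r 2 7) (r 3 44)) (n (r 1 5) (n (n (n (q 1) (n (n (n (q 1) (n (n (q
  3) (q 2) (r 1 10)) (r 2 14) (n (r 1 4) (q 15) (q 27))) (r 1 8)) (q 2) (r 1 7)) (r 2 11) (q 3))
  (r 1 5)) (q 4) (r 1 4)) (r 2 8) (n (r 1 7) (q 2) (q 24))) (q 1)))) (q 9)) (q 1) (r 1 6)) (q 4))
  (r 1 4)) (r 2 7) (r 3 37)) (n (r 1 5) (n (n (q 8) (q 4) (r 1 4)) (r 2 8) (r 3 38)) (q 1)))) (r 1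
  7)) (q 1) (r 1 6)) (r 5 37)) (r 1 4)) (r 2 17) (r 3 30)) (q 1)))) (r 1 8)) (q 2) (r 1 7)) (r 2
  11) (q 3)) (r 1 5)) (q 4) (r 1 4)) (r 2 8) (q 11)) (q 1)))) (r 1 7)) (q 1) (r 1 6)) (q 4)) (r 1
  4)) (r 2 7) (r 3 13)) (q 5))) (r 1 7)) (q 1) (q 7)) (n (r 1 4) (q 7) (n (r 1 5) (q 8) (q 1))))
  (q 6)) (n (r 1 10) (q 1) (q 2)) (n (r 1 10) (q 2) (q 3))) (q 1)))) (q 1))))

set_option maxRecDepth 100000 in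
theorem oddCert_ok : check [L3.a] oddCert [L3.b] = true := by decide +kernel

end Pool.Agent.Rich3
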