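import Pool.Agent.Rich3.Even
import Pool.Agent.Rich3.Odd

/-!
Every infinite rich word over three letters contains an abelian cube.
-/

namespace Pool.Agent.Rich3

open List

section general

variable {α β : Type*}

lemma palFactors_map (g : α → β) (hg : Function.Injective g) (v : List α) :
    palFactors (v.map g) = (List.map g) '' palFactors v := by
  have hinj : Function.Injective (List.map g) := List.map_injective_iff.mpr hg
  ext p
  constructor
  · rintro ⟨⟨s, t, hst⟩, hp⟩
    rw [eq_comm, List.map_eq_append_iff] at hst
    obtain ⟨l1, t', h1, h2, _⟩ := hst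
    rw [List.map_eq_append_iff] at h2
    obtain ⟨s', q, h3, _, h4⟩ := h2
    refine ⟨q, ⟨⟨s', t', ?_⟩, ?_⟩, h4⟩
    · rw [h1, h3]
    · apply hinj
      rw [List.map_reverse, h4, hp]
  · rintro ⟨q, ⟨⟨s, t, hst⟩, hq⟩, rfl⟩
    refine ⟨⟨s.map g, t.map g, ?_⟩, ?_⟩
    · rw [← hst]; simp
    · rw [← List.map_reverse, hq]

lemma richWord_map (g : α → β) (hg : Function.Injective g) (v : List α) :
    RichWord (v.map g) ↔ RichWord v := by
  unfold RichWord
  rw [palFactors_map g hg, Set.ncard_image_of_injective _ (List.map_injective_iff.mpr hg),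
    List.length_map]

lemma factor_comp (g : α → β) (u : ℕ → α) (i n : ℕ) :
    factor (g ∘ u) i n = (factor u i n).map g := by
  simp [factor]

lemma length_factor (u : ℕ → α) (i n : ℕ) : (factor u i n).length = n := by
  simp [factor]

lemma richSeq_comp (g : α → β) (hg : Function.Injective g) (u : ℕ → α) :
    RichSeq (g ∘ u) ↔ RichSeq u := by
  unfold RichSeq
  simp only [factor_comp, richWord_map g hg]

lemma perm_map_iff' (g : α → β) (hg : Function.Injective g) (x y : List α) :
    (x.map g).Perm (y.map g) ↔ x.Perm y := by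
  classical
  constructor
  · intro h
    rw [List.perm_iff_count] at h ⊢
    intro a
    have := h (g a)
    rwa [List.count_map_of_injective _ _ hg, List.count_map_of_injective _ _ hg] at this
  · exact fun h => h.map g

lemma hasAbelianCube_comp (g : α → β) (hg : Function.Injective g) (u : ℕ → α) :
    HasAbelianCube (g ∘ u) ↔ HasAbelianCube u := by
  unfold HasAbelianCube
  simp only [factor_comp, perm_map_iff' g hg]

lemma factor_add (u : ℕ → α) (i m n : ℕ) :
    factor u i (m + n) = factor u i m ++ factor u (i + m) n := by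
  unfold factor
  rw [List.range_add, List.map_append, List.map_map]
  congr 1
  apply List.map_congr_left
  intro k _
  simp [add_assoc]

/-- factors of factors -/
lemma infix_factor {u : ℕ → α} {i n : ℕ} {v : List α} (h : v <:+: factor u i n) :
    ∃ j, v = factor u j v.length := by
  obtain ⟨s, t, hst⟩ := h
  refine ⟨i + s.length, ?_⟩
  have hn : n = s.length + (v.length + t.length) := by
    have := congrArg List.length hst
    rw [length_factor] at this
    simp at this
    omega
  rw [hn, factor_add, factor_add, List.append_assoc] at hst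
  have h1 := List.append_inj hst (by rw [length_factor])
  have h2 := List.append_inj h1.2 (by rw [length_factor])
  exact h2.1

lemma hasAbelianCube_of_cubeIn {u : ℕ → α} {i n : ℕ} (h : CubeIn (factor u i n)) :
    HasAbelianCube u := by
  obtain ⟨x, y, z, hx, hxy, hyz, hin⟩ := h
  obtain ⟨j, hj⟩ := infix_factor hin
  have hl : x.length = y.length := hxy.length_eq
  have hl2 : y.length = z.length := hyz.length_eq
  have hlen : (x ++ y ++ z).length = x.length + (x.length + x.length) := by
    simp only [List.length_append]; omega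
  rw [hlen, factor_add, factor_add, List.append_assoc] at hj
  have h1 := List.append_inj hj (by rw [length_factor])
  have h2 := List.append_inj h1.2 (by rw [length_factor]; omega)
  refine ⟨j, x.length, ?_, ?_, ?_⟩
  · exact List.length_pos_iff.mpr hx
  · rw [← h1.1, ← h2.1]; exact hxy
  · rw [← h2.1, two_mul, ← add_assoc, ← h2.2]; exact hyz

lemma pal_decomp (w : List α) (hw : w.reverse = w) :
    ∃ h : List α, w = h ++ h.reverse ∨ ∃ x, w = h ++ (x :: h.reverse) := by
  have hp : List.Palindrome w := List.Palindrome.of_reverse_eq hw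
  induction hp with
  | nil => exact ⟨[], Or.inl rfl⟩
  | singleton x => exact ⟨[], Or.inr ⟨x, rfl⟩⟩
  | @cons_concat y l hl ih =>
    obtain ⟨h, h1 | ⟨x, h1⟩⟩ := ih hl.reverse_eq
    · exact ⟨y :: h, Or.inl (by rw [h1]; simp)⟩
    · exact ⟨y :: h, Or.inr ⟨x, by rw [h1]; simp⟩⟩

/-- Infinite rich words over a finite alphabet have arbitrarily long palindromic factors. -/
lemma exists_long_pal [Finite α] {u : ℕ → α} (hr : RichSeq u) (M : ℕ) :
    ∃ i n, M ≤ n ∧ (factor u i n).reverse = factor u i n := by
  by_contra hcon
  push Not at hcon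
  have hfin : {l : List α | l.length < M}.Finite := List.finite_length_lt α M
  set K := {l : List α | l.length < M}.ncard with hK
  have hsub : palFactors (factor u 0 K) ⊆ {l : List α | l.length < M} := by
    rintro p ⟨hp1, hp2⟩
    by_contra hlt
    obtain ⟨j, hj⟩ := infix_factor hp1
    have hM : M ≤ p.length := by
      simpa using hlt
    refine hcon j p.length hM ?_
    rw [← hj]; exact hp2
  have h1 := Set.ncard_le_ncard hsub hfin
  have h2 := hr 0 K
  unfold RichWord at h2
  rw [h2, length_factor] at h1
  omega

end general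

lemma exists_relabel (x y : L3) (h : y ≠ x) :
    ∃ σ : L3 → L3, Function.Injective σ ∧ σ x = L3.a ∧ σ y = L3.b := by
  revert x y
  decide

section L3words

variable {u : ℕ → L3}

lemma not_factor {z : List L3} {C : Cert} {h : List L3} (hC : check z C h = true)
    (hr : RichSeq u) (hc : ¬ HasAbelianCube u) (g : List L3) (hg : C.depth ≤ g.length) (i n : ℕ) :
    factor u i n ≠ word z (g ++ h) := by
  intro he
  refine check_sound (fun v => ∃ j, v = factor u j v.length) ?_ ?_ ?_ z C h hC g hg ?_
  · rintro v w hvw ⟨j, hj⟩
    rw [hj] at hvw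
    exact infix_factor hvw
  · rintro v ⟨j, hj⟩
    rw [hj]; exact hr _ _
  · rintro v ⟨j, hj⟩ hcube
    rw [hj] at hcube
    exact hc (hasAbelianCube_of_cubeIn hcube)
  · rw [← he]
    exact ⟨i, by rw [length_factor]⟩

theorem hasAbelianCube_L3 (hr : RichSeq u) : HasAbelianCube u := by
  by_contra hc
  obtain ⟨i, n, hn, hpal⟩ := exists_long_pal hr (2 * (evenCert.depth + oddCert.depth) + 10)
  obtain ⟨h, hw⟩ := pal_decomp _ hpal
  have key : ∀ σ : L3 → L3, Function.Injective σ →
      (∀ g : List L3, evenCert.depth ≤ g.length →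
        (factor u i n).map σ ≠ word [] (g ++ [L3.b, L3.a])) ∧
      (∀ g : List L3, oddCert.depth ≤ g.length →
        (factor u i n).map σ ≠ word [L3.a] (g ++ [L3.b])) := by
    intro σ hσ
    have h1 : RichSeq (σ ∘ u) := (richSeq_comp σ hσ u).mpr hr
    have h2 : ¬ HasAbelianCube (σ ∘ u) := fun h3 => hc ((hasAbelianCube_comp σ hσ u).mp h3)
    constructor
    · intro g hg
      rw [← factor_comp]
      exact not_factor evenCert_ok h1 h2 g hg i n
    · intro g hg
      rw [← factor_comp]
      exact not_factor oddCert_ok h1 h2 g hg i n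
  have hcube : ∀ x : L3, ¬ [x, x, x] <:+: factor u i n := by
    intro x hx
    exact hc (hasAbelianCube_of_cubeIn (u := u) (i := i) (n := n)
      ⟨[x], [x], [x], by simp, List.Perm.refl _, List.Perm.refl _, by simpa using hx⟩)
  have hlen := length_factor u i n
  rcases hw with hw | ⟨x, hw⟩
  · -- even length
    have hh : n = h.length + h.length := by
      rw [← hlen, hw]; simp
    rcases List.eq_nil_or_concat h with h0 | ⟨h', x, hx⟩
    · subst h0; simp at hh; omega
    rcases List.eq_nil_or_concat h' with h0 | ⟨g, y, hy⟩
    · subst h0; subst hx; simp at hh; omega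
    subst hy; subst hx
    have hw' : factor u i n = g ++ ([y, x, x, y] ++ g.reverse) := by
      rw [hw]; simp
    have hne : y ≠ x := by
      rintro rfl
      refine hcube y ⟨g, y :: g.reverse, ?_⟩
      rw [hw']; simp
    obtain ⟨σ, hσ, h1, h2⟩ := exists_relabel x y hne
    refine (key σ hσ).1 (g.map σ) ?_ ?_
    · simp at hh ⊢; omega
    · rw [hw']; simp [word, h1, h2]
  · -- odd length
    have hh : n = h.length + (h.length + 1) := by
      rw [← hlen, hw]; simp
    rcases List.eq_nil_or_concat h with h0 | ⟨g, y, hy⟩
    · subst h0; simp at hh; omega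
    subst hy
    have hw' : factor u i n = g ++ ([y, x, y] ++ g.reverse) := by
      rw [hw]; simp
    have hne : y ≠ x := by
      rintro rfl
      refine hcube y ⟨g, g.reverse, ?_⟩
      rw [hw']; simp
    obtain ⟨σ, hσ, h1, h2⟩ := exists_relabel x y hne
    refine (key σ hσ).2 (g.map σ) ?_ ?_
    · simp at hh ⊢; omega
    · rw [hw']; simp [word, h1, h2]

end L3words

/-- Every infinite rich word over at most three letters contains an abelian cube. -/
theorem hasAbelianCube_of_card {α : Type*} (A : Finset α) (hA : A.card ≤ 3) (u : ℕ → α)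
    (hu : ∀ n, u n ∈ A) (hr : RichSeq u) : HasAbelianCube u := by
  classical
  have hcard : Fintype.card A ≤ Fintype.card L3 := by
    rw [Fintype.card_coe]
    exact hA
  obtain ⟨f⟩ := Function.Embedding.nonempty_of_card_le hcard
  let v : ℕ → A := fun n => ⟨u n, hu n⟩
  have huv : u = (Subtype.val : A → α) ∘ v := rfl
  have hinj : Function.Injective (Subtype.val : A → α) := Subtype.val_injective
  rw [huv] at hr ⊢
  rw [richSeq_comp _ hinj] at hr
  rw [hasAbelianCube_comp _ hinj]
  have h1 : RichSeq (f ∘ v) := (richSeq_comp _ f.injective v).mpr hr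
  exact (hasAbelianCube_comp _ f.injective v).mp (hasAbelianCube_L3 h1)

end Pool.Agent.Rich3
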